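import Pool.Agent.PEPS953.Count

/-!
# Basic definitions for the unconditional PEPS bound
-/

open Finset
open scoped InnerProductSpace

set_option autoImplicit false
set_option linter.unusedSectionVars false

namespace Pool.Agent.PepsX

open Pool.Agent.PEPS953

/-- A letter: nothing, or a matrix unit `|a⟩⟨b|` on the box. -/
abbrev Opn (d r : ℕ) : Type := Option (LConf d r × LConf d r)

variable {d L r : ℕ} [NeZero L]

/-- The one-site matrix at `u` of one time layer `η` (ordered product over the translates). -/
noncomputable def lay (η : Site L → Opn d r) (u : Site L) : Matrix (Fin d) (Fin d) ℂ :=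
  (List.ofFn fun a : Fin (Fintype.card (Site L)) => facq (enum L a) u (η (enum L a))).prod

/-- The weight of a letter. -/
def hh (h : Matrix (LConf d r) (LConf d r) ℂ) : Opn d r → ℂ
  | none => 1
  | some p => h p.1 p.2

/-- The number of insertions of a history. -/
def nins {n : ℕ} (ω : Fin n → Site L → Opn d r) : ℕ :=
  ∑ t, ∑ v, if ω t v = none then 0 else 1

/-- The index of the cell of side `R` (the last one may be longer) containing `x`. -/
def cidx (L R : ℕ) (x : ZMod L) : ℕ := min (x.val / R) (L / R - 1)

/-- The cell of the site `u` for the grid shifted by `o`. -/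
def cell (R : ℕ) (o u : Site L) : ℕ × ℕ := (cidx L R (u.1 - o.1), cidx L R (u.2 - o.2))

end Pool.Agent.PepsX
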