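import Pool.Agent.PepsX.Basic

/-!
# PX4: counting cells
-/

open Finset

set_option autoImplicit false
set_option linter.unusedSectionVars false

namespace Pool.Agent.PepsX

open Pool.Agent.PEPS953

variable {d L r : ℕ} [NeZero L]

private lemma cc_div_pos {R : ℕ} (hR : 0 < R) (hRL : R ≤ L) : 1 ≤ L / R :=
  (Nat.one_le_div_iff hR).2 hRL

/-- The values of one coordinate in a cell lie in an interval of length `2 R`. -/
private lemma cc_mem_Ico {R : ℕ} (hR : 0 < R) (hRL : R ≤ L) (y : ZMod L) (k : ℕ)
    (h : cidx L R y = k) : y.val ∈ Ico (k * R) (k * R + 2 * R) := by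
  have h1 := cc_div_pos (L := L) hR hRL
  have hy : y.val < L := ZMod.val_lt y
  have hLR : L < (L / R + 1) * R := by
    have := Nat.lt_div_mul_add (a := L) hR
    calc L < L / R * R + R := this
      _ = (L / R + 1) * R := by ring
  unfold cidx at h
  have hq : y.val / R * R ≤ y.val := Nat.div_mul_le_self _ _
  have hq2 : y.val < y.val / R * R + R := Nat.lt_div_mul_add hR
  rw [mem_Ico]
  rcases le_total (y.val / R) (L / R - 1) with h2 | h2
  · rw [min_eq_left h2] at h
    rw [h] at hq hq2
    constructor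
    · exact hq
    · omega
  · rw [min_eq_right h2] at h
    subst h
    constructor
    · exact le_trans (Nat.mul_le_mul_right R h2) hq
    · have : (L / R - 1) * R + 2 * R = (L / R + 1) * R := by
        obtain ⟨m, hm⟩ : ∃ m, L / R = m + 1 := ⟨L / R - 1, by omega⟩
        rw [hm]
        simp only [Nat.add_sub_cancel]
        ring
      omega

private lemma cc_card_coord {R : ℕ} (hR : 0 < R) (hRL : R ≤ L) (a : ZMod L) (k : ℕ) :
    (univ.filter fun x : ZMod L => cidx L R (x - a) = k).card ≤ 2 * R := by
  have h := Finset.card_le_card_of_injOn (s := univ.filter fun x : ZMod L => cidx L R (x - a) = k)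
    (t := Ico (k * R) (k * R + 2 * R)) (fun x => (x - a).val) (by
      intro x hx
      simp only [coe_filter, mem_univ, true_and, Set.mem_ofPred_eq] at hx
      have := cc_mem_Ico hR hRL (x - a) k hx
      simpa using this) (by
      intro x _ y _ hxy
      have : x - a = y - a := ZMod.val_injective L hxy
      simpa using this)
  simpa using h

/-- PX4a: number of sites in a cell. -/
theorem card_cell_le (R : ℕ) (hR : 0 < R) (hRL : R ≤ L) (o : Site L) (c : ℕ × ℕ) :
    (univ.filter fun u : Site L => cell R o u = c).card ≤ (2 * R) ^ 2 := by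
  have h1 := cc_card_coord (L := L) hR hRL o.1 c.1
  have h2 := cc_card_coord (L := L) hR hRL o.2 c.2
  have hsub : (univ.filter fun u : Site L => cell R o u = c) ⊆
      (univ.filter fun x : ZMod L => cidx L R (x - o.1) = c.1) ×ˢ
        (univ.filter fun x : ZMod L => cidx L R (x - o.2) = c.2) := by
    intro u hu
    simp only [mem_filter, mem_univ, true_and] at hu
    simp only [mem_product, mem_filter, mem_univ, true_and]
    unfold cell at hu
    rw [← hu]
    exact ⟨rfl, rfl⟩
  calc (univ.filter fun u : Site L => cell R o u = c).card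
      ≤ _ := card_le_card hsub
    _ = _ := card_product _ _
    _ ≤ (2 * R) * (2 * R) := Nat.mul_le_mul h1 h2
    _ = (2 * R) ^ 2 := by ring

/-- PX4b: number of cells. -/
theorem card_cells_le (R : ℕ) (hR : 0 < R) (hRL : R ≤ L) (o : Site L) :
    ((univ : Finset (Site L)).image (cell R o)).card ≤ (L / R) ^ 2 := by
  have h1 := cc_div_pos (L := L) hR hRL
  have hsub : (univ : Finset (Site L)).image (cell R o) ⊆ range (L / R) ×ˢ range (L / R) := by
    intro c hc
    obtain ⟨u, _, rfl⟩ := mem_image.1 hc
    unfold cell cidx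
    simp only [mem_product, mem_range]
    constructor <;> omega
  calc ((univ : Finset (Site L)).image (cell R o)).card ≤ _ := card_le_card hsub
    _ = (L / R) ^ 2 := by rw [card_product, card_range]; ring

/-- A change of the cell index happens only at the start of a cell. -/
private lemma cc_start {R : ℕ} (hR : 0 < R) (hRL : R ≤ L) (w : ZMod L)
    (h : cidx L R (w + 1) ≠ cidx L R w) : ∃ a, a ≤ L / R - 1 ∧ (w + 1).val = a * R := by
  have h1 := cc_div_pos (L := L) hR hRL
  have hw : w.val < L := ZMod.val_lt w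
  have hadd : (w + 1).val = (w.val + 1) % L := by
    rcases Nat.lt_or_ge 1 L with hL | hL
    · have : Fact (1 < L) := ⟨hL⟩
      rw [ZMod.val_add, ZMod.val_one]
    · have hL1 : L = 1 := by
        have := NeZero.pos L
        omega
      subst hL1
      have h0 : ∀ z : ZMod 1, z.val = 0 := fun z => by
        have := ZMod.val_lt z
        omega
      rw [h0, h0]
  rcases Nat.lt_or_ge (w.val + 1) L with hlt | hge
  · rw [Nat.mod_eq_of_lt hlt] at hadd
    unfold cidx at h
    rw [hadd] at h ⊢
    have hq : w.val / R * R ≤ w.val := Nat.div_mul_le_self _ _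
    have hq2 : w.val < w.val / R * R + R := Nat.lt_div_mul_add hR
    have hdiv : (w.val + 1) / R = if R ∣ w.val + 1 then w.val / R + 1 else w.val / R := by
      rw [Nat.succ_div]
      split_ifs <;> simp
    split_ifs at hdiv with hd
    · refine ⟨w.val / R + 1, ?_, ?_⟩
      · rw [hdiv] at h
        omega
      · rw [← hdiv, Nat.div_mul_cancel hd]
    · rw [hdiv] at h
      exact absurd rfl h
  · have : w.val + 1 = L := by omega
    rw [this, Nat.mod_self] at hadd
    exact ⟨0, Nat.zero_le _, by rw [hadd, zero_mul]⟩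

/-- Two starts of cells are at distance at least `R`. -/
private lemma cc_far {R : ℕ} (hR : 0 < R) (hRL : R ≤ L) (z : ZMod L) (a b δ : ℕ)
    (ha : a ≤ L / R - 1) (hz : z.val = a * R) (hzb : (z + (δ : ZMod L)).val = b * R)
    (hδ : 0 < δ) (hδR : δ < R) : False := by
  have h1 := cc_div_pos (L := L) hR hRL
  have hLR : L / R * R ≤ L := Nat.div_mul_le_self _ _
  have hmul : a * R + R ≤ L := by
    calc a * R + R = (a + 1) * R := by ring
      _ ≤ L / R * R := Nat.mul_le_mul_right R (by omega)
      _ ≤ L := hLR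
  have hv : (z + (δ : ZMod L)).val = a * R + δ := by
    rw [ZMod.val_add, ZMod.val_natCast, Nat.mod_eq_of_lt (a := δ) (by omega), hz,
      Nat.mod_eq_of_lt (by omega)]
  rw [hv] at hzb
  have h2 : (a * R + δ) % R = δ := by
    rw [add_comm, Nat.add_mul_mod_self_right, Nat.mod_eq_of_lt hδR]
  rw [hzb, Nat.mul_mod_left] at h2
  omega

private lemma cc_change (g : ℕ → ℕ) (i : ℕ) : ∀ j, g i ≠ g (i + j) →
    ∃ k, i ≤ k ∧ k < i + j ∧ g (k + 1) ≠ g k := by
  intro j
  induction j with
  | zero => intro h; exact absurd rfl h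
  | succ j ih =>
    intro h
    by_cases h2 : g i = g (i + j)
    · refine ⟨i + j, by omega, by omega, ?_⟩
      intro h3
      apply h
      rw [h2, ← h3]
      rfl
    · obtain ⟨k, hk1, hk2, hk3⟩ := ih h2
      exact ⟨k, hk1, by omega, hk3⟩

private lemma cc_two_changes {R : ℕ} (hR : 0 < R) (hRL : R ≤ L) (y : ZMod L) (k l : ℕ)
    (hkl : k < l) (hlR : l < k + R)
    (hk : cidx L R (y + ((k + 1 : ℕ) : ZMod L)) ≠ cidx L R (y + (k : ZMod L)))
    (hl : cidx L R (y + ((l + 1 : ℕ) : ZMod L)) ≠ cidx L R (y + (l : ZMod L))) : False := by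
  have e1 : y + ((k + 1 : ℕ) : ZMod L) = y + (k : ZMod L) + 1 := by push_cast; ring
  have e2 : y + ((l + 1 : ℕ) : ZMod L) = y + (l : ZMod L) + 1 := by push_cast; ring
  rw [e1] at hk
  rw [e2] at hl
  obtain ⟨a, ha, haz⟩ := cc_start hR hRL _ hk
  obtain ⟨b, hb, hbz⟩ := cc_start hR hRL _ hl
  refine cc_far hR hRL (y + (k : ZMod L) + 1) a b (l - k) ha haz ?_ (by omega) (by omega)
  rw [← hbz]
  congr 1
  rw [Nat.cast_sub hkl.le]
  ring

private lemma cc_card_interval {R : ℕ} (hrR : r ≤ R) (hR : 0 < R) (hRL : R ≤ L) (y : ZMod L) :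
    ((univ : Finset (Fin r)).image fun i : Fin r => cidx L R (y + ((i : ℕ) : ZMod L))).card ≤ 2 := by
  rcases Nat.eq_zero_or_pos r with hr | hr
  · subst hr
    simp
  · set g : ℕ → ℕ := fun i => cidx L R (y + (i : ZMod L)) with hg
    have hsub : ((univ : Finset (Fin r)).image fun i : Fin r => cidx L R (y + ((i : ℕ) : ZMod L))) ⊆
        {g 0, g (r - 1)} := by
      intro c hc
      obtain ⟨i, _, rfl⟩ := mem_image.1 hc
      simp only [mem_insert, mem_singleton]
      by_contra hcon
      push Not at hcon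
      obtain ⟨h1, h2⟩ := hcon
      have hi := i.2
      obtain ⟨k, hk1, hk2, hk3⟩ := cc_change g 0 i (by
        rw [zero_add]
        exact fun h => h1 h.symm)
      obtain ⟨l, hl1, hl2, hl3⟩ := cc_change g i (r - 1 - i) (by
        rw [show (i : ℕ) + (r - 1 - i) = r - 1 by omega]
        exact h2)
      exact cc_two_changes hR hRL y k l (by omega) (by omega) hk3 hl3
    exact (card_le_card hsub).trans card_le_two

/-- PX4c: a box of side `r ≤ R` meets at most four cells. -/
theorem card_touch_le (R : ℕ) (hrR : r ≤ R) (hR : 0 < R) (hRL : R ≤ L) (o τ : Site L) :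
    ((univ : Finset (Box r)).image (fun p => cell R o (boxPos L r τ p))).card ≤ 4 := by
  have h1 := cc_card_interval (L := L) hrR hR hRL (τ.1 - o.1)
  have h2 := cc_card_interval (L := L) hrR hR hRL (τ.2 - o.2)
  have hsub : ((univ : Finset (Box r)).image (fun p => cell R o (boxPos L r τ p))) ⊆
      ((univ : Finset (Fin r)).image fun i : Fin r => cidx L R (τ.1 - o.1 + ((i : ℕ) : ZMod L))) ×ˢ
      ((univ : Finset (Fin r)).image fun i : Fin r => cidx L R (τ.2 - o.2 + ((i : ℕ) : ZMod L))) := by
    intro c hc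
    obtain ⟨p, _, rfl⟩ := mem_image.1 hc
    simp only [mem_product, mem_image, mem_univ, true_and, cell, boxPos]
    exact ⟨⟨p.1, by congr 1; ring⟩, ⟨p.2, by congr 1; ring⟩⟩
  calc ((univ : Finset (Box r)).image (fun p => cell R o (boxPos L r τ p))).card
      ≤ _ := card_le_card hsub
    _ = _ := card_product _ _
    _ ≤ 2 * 2 := Nat.mul_le_mul h1 h2

/-- PX4d: for given `x`, at most `r` offsets `o < R` make the interval `x, …, x + r - 1` meet two
cells. -/
theorem card_bad_offset_le (R : ℕ) (hR : 0 < R) (hRL : R ≤ L) (x : ZMod L) :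
    ((range R).filter fun o : ℕ => ∃ i : ℕ, i < r ∧
      cidx L R (x + ((i : ℕ) : ZMod L) - ((o : ℕ) : ZMod L)) ≠
        cidx L R (x - ((o : ℕ) : ZMod L))).card ≤ r := by
  classical
  -- the first index at which the cell changes
  have key : ∀ o : ℕ, (∃ i : ℕ, i < r ∧
      cidx L R (x + ((i : ℕ) : ZMod L) - ((o : ℕ) : ZMod L)) ≠
        cidx L R (x - ((o : ℕ) : ZMod L))) →
      ∃ k, k < r ∧ cidx L R (x - (o : ZMod L) + ((k + 1 : ℕ) : ZMod L)) ≠
        cidx L R (x - (o : ZMod L) + (k : ZMod L)) := by
    rintro o ⟨i, hi, hne⟩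
    obtain ⟨k, -, hk2, hk3⟩ := cc_change
      (fun i => cidx L R (x - (o : ZMod L) + (i : ZMod L))) 0 i (by
        simp only [zero_add, Nat.cast_zero, add_zero]
        intro h
        apply hne
        rw [h]
        congr 1
        ring)
    exact ⟨k, by omega, hk3⟩
  choose! f hf1 hf2 using key
  have h := Finset.card_le_card_of_injOn
    (s := (range R).filter fun o : ℕ => ∃ i : ℕ, i < r ∧
      cidx L R (x + ((i : ℕ) : ZMod L) - ((o : ℕ) : ZMod L)) ≠
        cidx L R (x - ((o : ℕ) : ZMod L)))
    (t := range r) f (by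
      intro o ho
      have ho' := (mem_filter.1 (mem_coe.1 ho)).2
      simpa using hf1 o ho') (by
      intro o ho o' ho' hoo
      have m1 := mem_filter.1 (mem_coe.1 ho)
      have m2 := mem_filter.1 (mem_coe.1 ho')
      have r1 := mem_range.1 m1.1
      have r2 := mem_range.1 m2.1
      have c1 := hf2 o m1.2
      have c2 := hf2 o' m2.2
      rw [← hoo] at c2
      have e1 : ∀ p : ℕ, x - (p : ZMod L) + ((f o + 1 : ℕ) : ZMod L) =
          x - (p : ZMod L) + (f o : ZMod L) + 1 := fun p => by push_cast; ring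
      rw [e1] at c1 c2
      obtain ⟨a, ha, haz⟩ := cc_start hR hRL _ c1
      obtain ⟨b, hb, hbz⟩ := cc_start hR hRL _ c2
      by_contra hne
      rcases Nat.lt_or_gt_of_ne hne with hlt | hlt
      · refine cc_far hR hRL (x - (o' : ZMod L) + (f o : ZMod L) + 1) b a (o' - o) hb hbz ?_
          (by omega) (by omega)
        rw [← haz]
        congr 1
        rw [Nat.cast_sub hlt.le]
        ring
      · refine cc_far hR hRL (x - (o : ZMod L) + (f o : ZMod L) + 1) a b (o - o') ha haz ?_
          (by omega) (by omega)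
        rw [← hbz]
        congr 1
        rw [Nat.cast_sub hlt.le]
        ring)
  simpa using h

end Pool.Agent.PepsX
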