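import Pool.Agent.PepsX.Basic
import Pool.Agent.PEPS953.Recode

/-!
# The crossbar construction and sums of PEPS
-/

open Finset

set_option autoImplicit false
set_option linter.unusedSectionVars false

namespace Pool.Agent.PepsX

open Pool.Agent.PEPS953

variable {d L r : ℕ} [NeZero L]

section Const

variable {B : Type*}

lemma const_fst (α : Site L → B) (h : ∀ u : Site L, α u = α (u.1 - 1, u.2)) (u : Site L) :
    α u = α (0, u.2) := by
  have h1 : ∀ (n : ℕ) (y : ZMod L), α ((n : ZMod L), y) = α (0, y) := by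
    intro n y
    induction n with
    | zero => simp
    | succ n ih =>
      rw [h]
      simp only [Nat.cast_add, Nat.cast_one, add_sub_cancel_right]
      exact ih
  have h2 := h1 u.1.val u.2
  rwa [ZMod.natCast_zmod_val] at h2

lemma const_snd (β : Site L → B) (h : ∀ u : Site L, β u = β (u.1, u.2 - 1)) (u : Site L) :
    β u = β (u.1, 0) := by
  have h1 : ∀ (n : ℕ) (x : ZMod L), β (x, (n : ZMod L)) = β (x, 0) := by
    intro n x
    induction n with
    | zero => simp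
    | succ n ih =>
      rw [h]
      simp only [Nat.cast_add, Nat.cast_one, add_sub_cancel_right]
      exact ih
  have h2 := h1 u.2.val u.1
  rwa [ZMod.natCast_zmod_val] at h2

end Const

/-- A sum of products of tiles whose labels have a second component confined by local conditions
is a sum over the allowed second components. -/
lemma sum_split {κ B : Type*} [Fintype κ] [Fintype B]
    (Cond : Site L → B → B → B → B → Prop) [∀ u a b a' b', Decidable (Cond u a b a' b')]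
    (T : Site L → κ × B → κ × B → κ × B → κ × B → ℂ)
    {I : Type*} [Fintype I] (e₁ e₂ : I → Site L → B)
    (hc : ∀ i u, Cond u (e₁ i u) (e₂ i u) (e₁ i (u.1 - 1, u.2)) (e₂ i (u.1, u.2 - 1)))
    (hinj : ∀ i j, e₁ i = e₁ j → e₂ i = e₂ j → i = j)
    (hsurj : ∀ α β : Site L → B,
      (∀ u, Cond u (α u) (β u) (α (u.1 - 1, u.2)) (β (u.1, u.2 - 1))) → ∃ i, e₁ i = α ∧ e₂ i = β) :
    (∑ a : Site L → κ × B, ∑ b : Site L → κ × B, ∏ u : Site L,
      if Cond u (a u).2 (b u).2 (a (u.1 - 1, u.2)).2 (b (u.1, u.2 - 1)).2 then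
        T u (a u) (b u) (a (u.1 - 1, u.2)) (b (u.1, u.2 - 1)) else 0) =
    ∑ i : I, ∑ a : Site L → κ, ∑ b : Site L → κ, ∏ u : Site L,
      T u (a u, e₁ i u) (b u, e₂ i u) (a (u.1 - 1, u.2), e₁ i (u.1 - 1, u.2))
        (b (u.1, u.2 - 1), e₂ i (u.1, u.2 - 1)) := by
  classical
  set e := (Equiv.arrowProdEquivProdArrow (Site L) (fun _ => κ) (fun _ => B)).symm with he
  have hA : ∀ (a : Site L → κ) (α : Site L → B) (u : Site L), e (a, α) u = (a u, α u) :=
    fun _ _ _ => rfl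
  rw [← e.sum_comp, Fintype.sum_prod_type]
  have h1 : ∀ (a : Site L → κ) (α : Site L → B),
      (∑ b : Site L → κ × B, ∏ u : Site L,
      if Cond u (e (a, α) u).2 (b u).2 (e (a, α) (u.1 - 1, u.2)).2 (b (u.1, u.2 - 1)).2 then
        T u (e (a, α) u) (b u) (e (a, α) (u.1 - 1, u.2)) (b (u.1, u.2 - 1)) else 0) =
      ∑ b : Site L → κ, ∑ β : Site L → B,
        if (∀ u, Cond u (α u) (β u) (α (u.1 - 1, u.2)) (β (u.1, u.2 - 1))) then
        ∏ u : Site L, T u (a u, α u) (b u, β u) (a (u.1 - 1, u.2), α (u.1 - 1, u.2))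
        (b (u.1, u.2 - 1), β (u.1, u.2 - 1)) else 0 := by
    intro a α
    rw [← e.sum_comp, Fintype.sum_prod_type]
    refine Finset.sum_congr rfl fun b _ => Finset.sum_congr rfl fun β _ => ?_
    rw [Finset.prod_ite_zero]
    simp only [Finset.mem_univ, true_imp_iff, hA]
  simp_rw [h1]
  have h2 : ∀ (a b : Site L → κ), (∑ α : Site L → B, ∑ β : Site L → B,
        if (∀ u, Cond u (α u) (β u) (α (u.1 - 1, u.2)) (β (u.1, u.2 - 1))) then
        ∏ u : Site L, T u (a u, α u) (b u, β u) (a (u.1 - 1, u.2), α (u.1 - 1, u.2))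
        (b (u.1, u.2 - 1), β (u.1, u.2 - 1)) else 0) =
      ∑ i : I, ∏ u : Site L,
      T u (a u, e₁ i u) (b u, e₂ i u) (a (u.1 - 1, u.2), e₁ i (u.1 - 1, u.2))
        (b (u.1, u.2 - 1), e₂ i (u.1, u.2 - 1)) := by
    intro a b
    rw [← Fintype.sum_prod_type' (f := fun (α β : Site L → B) =>
      if (∀ u, Cond u (α u) (β u) (α (u.1 - 1, u.2)) (β (u.1, u.2 - 1))) then
        ∏ u : Site L, T u (a u, α u) (b u, β u) (a (u.1 - 1, u.2), α (u.1 - 1, u.2))
        (b (u.1, u.2 - 1), β (u.1, u.2 - 1)) else 0)]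
    symm
    refine Finset.sum_of_injOn (fun i => (e₁ i, e₂ i)) ?_ ?_ ?_ ?_
    · intro i _ j _ hij
      exact hinj i j (congrArg Prod.fst hij) (congrArg Prod.snd hij)
    · intro i _
      exact Finset.mem_coe.mpr (Finset.mem_univ _)
    · rintro ⟨α, β⟩ _ hx
      simp only
      rw [if_neg]
      intro hc'
      obtain ⟨i, hi1, hi2⟩ := hsurj α β hc'
      exact hx ⟨i, Finset.mem_coe.mpr (Finset.mem_univ _), Prod.ext hi1 hi2⟩
    · intro i _
      simp only
      rw [if_pos (hc i)]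
  calc (∑ a : Site L → κ, ∑ α : Site L → B, ∑ b : Site L → κ, ∑ β : Site L → B,
        if (∀ u, Cond u (α u) (β u) (α (u.1 - 1, u.2)) (β (u.1, u.2 - 1))) then
        ∏ u : Site L, T u (a u, α u) (b u, β u) (a (u.1 - 1, u.2), α (u.1 - 1, u.2))
        (b (u.1, u.2 - 1), β (u.1, u.2 - 1)) else 0)
      = ∑ a : Site L → κ, ∑ b : Site L → κ, ∑ α : Site L → B, ∑ β : Site L → B,
        if (∀ u, Cond u (α u) (β u) (α (u.1 - 1, u.2)) (β (u.1, u.2 - 1))) then
        ∏ u : Site L, T u (a u, α u) (b u, β u) (a (u.1 - 1, u.2), α (u.1 - 1, u.2))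
        (b (u.1, u.2 - 1), β (u.1, u.2 - 1)) else 0 :=
        Finset.sum_congr rfl fun a _ => Finset.sum_comm
    _ = ∑ a : Site L → κ, ∑ b : Site L → κ, ∑ i : I, ∏ u : Site L,
      T u (a u, e₁ i u) (b u, e₂ i u) (a (u.1 - 1, u.2), e₁ i (u.1 - 1, u.2))
        (b (u.1, u.2 - 1), e₂ i (u.1, u.2 - 1)) :=
        Finset.sum_congr rfl fun a _ => Finset.sum_congr rfl fun b _ => h2 a b
    _ = ∑ a : Site L → κ, ∑ i : I, ∑ b : Site L → κ, ∏ u : Site L,
      T u (a u, e₁ i u) (b u, e₂ i u) (a (u.1 - 1, u.2), e₁ i (u.1 - 1, u.2))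
        (b (u.1, u.2 - 1), e₂ i (u.1, u.2 - 1)) :=
        Finset.sum_congr rfl fun a _ => Finset.sum_comm
    _ = _ := Finset.sum_comm

/-- The labels of the crossbar. -/
abbrev CB (d L NW : ℕ) : Type := Fin NW × ((ZMod L → Fin d) × (ZMod L → Fin d))

/-- PX3a. -/
theorem crossbar_peps {D₀ NW : ℕ} (hd : 0 < d) {Φ₀ : Hil d L} (hΦ : IsPEPS D₀ Φ₀)
    (F : ZMod L → Fin NW → ℂ) (C : ZMod L → ZMod L → Fin NW → Fin NW → ℂ)
    (E : ZMod L → ZMod L → (ZMod L → Fin d) → (ZMod L → Fin d) → Fin NW → ℂ)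
    (ψ : Hil d L)
    (hψ : ∀ s : Conf d L, ψ s = ∑ W : ZMod L → Fin NW, ∑ f : Conf d L,
      Φ₀ f * (∏ u, F u (W u)) * (∏ x, ∏ y, C x y (W x) (W y)) *
        ∏ x, ∏ y, E x y (fun x' => s (x', y)) (fun x' => f (x', y)) (W x)) :
    IsPEPS (D₀ * (NW * (d ^ L * d ^ L))) ψ := by
  classical
  obtain ⟨A₀, hA₀⟩ := hΦ
  have hcard : Fintype.card (Fin D₀ × CB d L NW) = D₀ * (NW * (d ^ L * d ^ L)) := by
    simp [Fintype.card_prod, ZMod.card]
  rw [← hcard]
  apply IsPEPSL.isPEPS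
  set z : ZMod L → Fin d := fun _ => ⟨0, hd⟩ with hz
  obtain ⟨Cd, hCd⟩ : ∃ Cd : Fin d → Site L → CB d L NW → CB d L NW → CB d L NW → CB d L NW → Prop,
      Cd = fun σ u a b a' b' => a = a' ∧ b = b' ∧ b.2 = (z, z) ∧ σ = a.2.1 u.1 ∧
        (u.1 = u.2 → a.1 = b.1) := ⟨_, rfl⟩
  obtain ⟨T, hT⟩ : ∃ T : Site L → Fin D₀ × CB d L NW → Fin D₀ × CB d L NW → Fin D₀ × CB d L NW →
      Fin D₀ × CB d L NW → ℂ, T = fun u a b a' b' =>
      A₀ u (a.2.2.2 u.1) a.1 b.1 a'.1 b'.1 * (if u.1 = u.2 then F u.1 a.2.1 else 1) *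
        C u.1 u.2 b.2.1 a.2.1 * E u.1 u.2 a.2.2.1 a.2.2.2 b.2.1 := ⟨_, rfl⟩
  refine ⟨fun u σ a b a' b' => if Cd σ u a.2 b.2 a'.2 b'.2 then T u a b a' b' else 0,
    fun s => ?_⟩
  rw [hψ s]
  set I : Type := (ZMod L → Fin NW) × Conf d L with hI
  set e₁ : I → Site L → CB d L NW := fun i u =>
    (i.1 u.2, (fun x' => s (x', u.2), fun x' => i.2 (x', u.2))) with he₁
  set e₂ : I → Site L → CB d L NW := fun i u => (i.1 u.1, (z, z)) with he₂
  have hmain := sum_split (κ := Fin D₀) (B := CB d L NW) (fun (u : Site L) => Cd (s u) u) T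
    e₁ e₂ ?_ ?_ ?_
  · refine Eq.trans ?_ hmain.symm
    rw [← Fintype.sum_prod_type' (f := fun (W : ZMod L → Fin NW) (f : Conf d L) =>
      Φ₀ f * (∏ u, F u (W u)) * (∏ x, ∏ y, C x y (W x) (W y)) *
        ∏ x, ∏ y, E x y (fun x' => s (x', y)) (fun x' => f (x', y)) (W x))]
    refine Finset.sum_congr rfl fun i _ => ?_
    simp only [he₁, he₂, hT]
    simp_rw [Finset.prod_mul_distrib]
    simp_rw [← Finset.sum_mul]
    have hΦi : Φ₀ i.2 = ∑ a : Site L → Fin D₀, ∑ b : Site L → Fin D₀,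
      ∏ u : Site L, A₀ u (i.2 (u.1, u.2)) (a u) (b u) (a (u.1 - 1, u.2)) (b (u.1, u.2 - 1)) :=
      hA₀ i.2
    rw [← hΦi]
    have hF : (∏ u : Site L, if u.1 = u.2 then F u.1 (i.1 u.2) else 1) = ∏ u, F u (i.1 u) := by
      rw [Fintype.prod_prod_type]
      refine Finset.prod_congr rfl fun x _ => ?_
      simp only
      rw [Finset.prod_ite_eq]
      simp
    have hC : (∏ u : Site L, C u.1 u.2 (i.1 u.1) (i.1 u.2)) =
        ∏ x, ∏ y, C x y (i.1 x) (i.1 y) := by
      rw [Fintype.prod_prod_type]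
    have hE : (∏ u : Site L, E u.1 u.2 (fun x' => s (x', u.2)) (fun x' => i.2 (x', u.2))
        (i.1 u.1)) =
        ∏ x, ∏ y, E x y (fun x' => s (x', y)) (fun x' => i.2 (x', y)) (i.1 x) := by
      rw [Fintype.prod_prod_type]
    rw [hF, hC, hE]
  · intro i u
    rw [hCd]
    refine ⟨rfl, rfl, rfl, rfl, fun h => ?_⟩
    simp only [he₁, he₂]
    rw [h]
  · intro i j h1 h2
    refine Prod.ext ?_ ?_
    · funext x
      have := congrFun h2 (x, 0)
      exact congrArg Prod.fst this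
    · funext u
      have h3 := congrFun h1 u
      have h4 := congrArg (fun t : CB d L NW => t.2.2 u.1) h3
      exact h4
  · intro α β h
    simp only [hCd] at h
    have hα : ∀ u, α u = α (0, u.2) := const_fst α fun u => (h u).1
    have hβ : ∀ u, β u = β (u.1, 0) := const_snd β fun u => (h u).2.1
    refine ⟨(fun x => (β (x, 0)).1, fun u => (α u).2.2 u.1), ?_, ?_⟩
    · funext u
      simp only [he₁]
      refine Prod.ext ?_ (Prod.ext ?_ ?_)
      · simp only
        have h1 := (h (u.2, u.2)).2.2.2.2 rfl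
        rw [hα (u.2, u.2), hβ (u.2, u.2)] at h1
        rw [hα u]
        exact h1.symm
      · simp only
        funext x'
        have h1 := (h (x', u.2)).2.2.2.1
        rw [hα (x', u.2)] at h1
        rw [hα u]
        exact h1
      · simp only
        funext x'
        rw [hα (x', u.2), hα u]
    · funext u
      simp only [he₂]
      refine Prod.ext ?_ ?_
      · simp only
        rw [hβ u]
      · simp only
        exact (h u).2.2.1.symm

/-- PX3b. -/
theorem isPEPS_sum {ι : Type*} [Fintype ι] {D : ℕ} (ψ : ι → Hil d L) (hψ : ∀ g, IsPEPS D (ψ g)) :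
    IsPEPS (Fintype.card ι * D) (∑ g, ψ g) := by
  classical
  choose A hA using hψ
  have hcard : Fintype.card (Fin D × ι) = Fintype.card ι * D := by
    simp [Fintype.card_prod, mul_comm]
  rw [← hcard]
  apply IsPEPSL.isPEPS
  obtain ⟨Cd, hCd⟩ : ∃ Cd : Site L → ι → ι → ι → ι → Prop,
      Cd = fun _ a b a' b' => a = b ∧ a = a' ∧ b = b' := ⟨_, rfl⟩
  refine ⟨fun u σ a b a' b' =>
    if Cd u a.2 b.2 a'.2 b'.2 then A a.2 u σ a.1 b.1 a'.1 b'.1 else 0, fun s => ?_⟩
  have hmain := sum_split (κ := Fin D) (B := ι) Cd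
    (fun (u : Site L) a b a' b' => A a.2 u (s u) a.1 b.1 a'.1 b'.1)
    (fun (i : ι) (_ : Site L) => i) (fun (i : ι) (_ : Site L) => i) ?_ ?_ ?_
  · refine Eq.trans ?_ hmain.symm
    have e1 : (∑ g, ψ g) s = ∑ g, (ψ g) s := by simp
    rw [e1]
    exact Finset.sum_congr rfl fun g _ => hA g s
  · intro i u
    rw [hCd]
    exact ⟨rfl, rfl, rfl⟩
  · intro i j h1 _
    exact congrFun h1 (0, 0)
  · intro α β h
    simp only [hCd] at h
    have hα : ∀ u, α u = α (0, u.2) := const_fst α fun u => (h u).2.1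
    have hβ : ∀ u, β u = β (u.1, 0) := const_snd β fun u => (h u).2.2
    have hαβ : ∀ u, α u = β u := fun u => (h u).1
    have hc : ∀ u, α u = α (0, 0) := by
      intro u
      rw [hα u, hαβ (0, u.2), hβ (0, u.2), ← hαβ (0, 0)]
    refine ⟨α (0, 0), ?_, ?_⟩
    · funext u
      exact (hc u).symm
    · funext u
      rw [← hαβ u]
      exact (hc u).symm

end Pool.Agent.PepsX
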