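import Pool.Agent.PepsX.Basic

/-!
# Time layers: a polynomial of the Hamiltonian as a sum over histories
-/

open Finset
open scoped InnerProductSpace

set_option autoImplicit false
set_option linter.unusedSectionVars false

namespace Pool.Agent.PepsX

open Pool.Agent.PEPS953

namespace Layers

section Poly

open Polynomial

variable {A : Type*} [Ring A]

/-- The coefficients of `1` and `X` of an ordered product of `1 + X x_i`. -/
lemma coeff_ofFn_prod (N : ℕ) (x : Fin N → A) :
    ((List.ofFn fun i => (1 : A[X]) + monomial 1 (x i)).prod).coeff 0 = 1 ∧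
      ((List.ofFn fun i => (1 : A[X]) + monomial 1 (x i)).prod).coeff 1 = ∑ i, x i := by
  induction N with
  | zero => simp [coeff_one]
  | succ N ih =>
    obtain ⟨h0, h1⟩ := ih (fun i => x i.succ)
    rw [List.ofFn_succ, List.prod_cons, Fin.sum_univ_succ]
    constructor
    · rw [mul_coeff_zero, h0]
      simp [coeff_monomial]
    · rw [add_mul, one_mul, coeff_add, h1, add_comm]
      congr 1
      have := coeff_monomial_mul ((List.ofFn fun i : Fin N => (1 : A[X]) + monomial 1 (x i.succ)).prod)
        1 0 (x 0)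
      rw [zero_add, h0, mul_one] at this
      exact this

/-- If `F = 1 + X x + O(X²)` then `x ^ N` is an alternating sum of the coefficients of `X ^ N` in the
powers of `F`. -/
lemma pow_eq_sum_coeff (F : A[X]) (h0 : F.coeff 0 = 1) (N : ℕ) :
    F.coeff 1 ^ N =
      ∑ i ∈ range (N + 1), ((-1) ^ (N - i) * (N.choose i : ℤ) : ℤ) • (F ^ i).coeff N := by
  have h1 : F - 1 = divX F * X := by
    have h2 := divX_mul_X_add F
    rw [h0, map_one] at h2
    exact (eq_sub_of_add_eq h2).symm
  have h3 : ((F - 1) ^ N).coeff N = F.coeff 1 ^ N := by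
    rw [h1, (commute_X (divX F)).symm.mul_pow]
    have h4 := coeff_mul_X_pow (divX F ^ N) N 0
    rw [zero_add] at h4
    rw [h4]
    have h5 : (divX F ^ N).coeff 0 = (divX F).coeff 0 ^ N :=
      map_pow (constantCoeff (R := A)) (divX F) N
    rw [h5, coeff_divX, zero_add]
  rw [← h3, sub_eq_add_neg, (Commute.neg_one_right F).add_pow, finsetSum_coeff]
  refine Finset.sum_congr rfl fun i _ => ?_
  rw [← coeff_smul, zsmul_eq_mul']
  push_cast
  rw [mul_assoc]

lemma ofFn_prod_monomial (n : ℕ) (c : Fin n → ℕ) (m : Fin n → A) :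
    (List.ofFn fun t => (monomial (c t) (m t) : A[X])).prod =
      monomial (∑ t, c t) (List.ofFn m).prod := by
  induction n with
  | zero => simp
  | succ n ih =>
    rw [List.ofFn_succ, List.prod_cons, ih (fun t => c t.succ) (fun t => m t.succ),
      Fin.sum_univ_succ, List.ofFn_succ, List.prod_cons, monomial_mul_monomial]

/-- The power of a sum of monomials as a sum over histories padded by the trivial letter. -/
lemma pow_eq_sum_hist {B : Type*} [Fintype B] [DecidableEq B] (c : B → ℕ) (m : B → A) (b₀ : B)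
    (hc : c b₀ = 0) (hm : m b₀ = 1) (n i : ℕ) (hi : i ≤ n) :
    (∑ b, monomial (c b) (m b) : A[X]) ^ i =
      ∑ ω : Fin n → B, if (∀ t : Fin n, i ≤ t → ω t = b₀) then
        monomial (∑ t, c (ω t)) (List.ofFn fun t => m (ω t)).prod else 0 := by
  set F : A[X] := ∑ b, monomial (c b) (m b) with hF
  have h1 : ∀ k : ℕ, (List.ofFn fun t : Fin k => if (t : ℕ) < i then F else 1).prod =
      F ^ (min i k) := by
    intro k
    induction k with
    | zero => simp
    | succ k ih =>
      rw [List.ofFn_succ', List.concat_eq_append, List.prod_append]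
      simp only [Fin.val_castSucc, Fin.val_last, List.prod_cons, List.prod_nil, mul_one]
      rw [ih]
      by_cases hk : k < i
      · rw [if_pos hk, min_eq_right hk.le, min_eq_right (Nat.succ_le_of_lt hk), pow_succ]
      · rw [if_neg hk, mul_one, min_eq_left (not_lt.mp hk), min_eq_left (by omega)]
  have h2 := h1 n
  rw [min_eq_left hi] at h2
  rw [← h2]
  have h3 : ∀ t : Fin n, (if (t : ℕ) < i then F else 1) =
      ∑ b, if (i ≤ (t : ℕ) → b = b₀) then monomial (c b) (m b) else 0 := by
    intro t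
    by_cases ht : (t : ℕ) < i
    · rw [if_pos ht, hF]
      refine Finset.sum_congr rfl fun b _ => ?_
      rw [if_pos (fun h => absurd ht (not_lt.mpr h))]
    · rw [if_neg ht]
      have h4 : ∀ b, (i ≤ (t : ℕ) → b = b₀) ↔ b = b₀ :=
        fun b => ⟨fun h => h (not_lt.mp ht), fun h _ => h⟩
      simp only [h4]
      rw [Finset.sum_ite_eq' univ b₀, if_pos (Finset.mem_univ _), hc, hm]
      rfl
  simp_rw [h3]
  rw [ofFn_prod_sum]
  refine Finset.sum_congr rfl fun ω _ => ?_
  by_cases hω : ∀ t : Fin n, i ≤ t → ω t = b₀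
  · rw [if_pos hω]
    have h5 : (fun t : Fin n => if (i ≤ (t : ℕ) → ω t = b₀) then
        (monomial (c (ω t)) (m (ω t)) : A[X]) else 0) = fun t => monomial (c (ω t)) (m (ω t)) := by
      funext t
      rw [if_pos (hω t)]
    rw [h5]
    exact ofFn_prod_monomial n _ _
  · rw [if_neg hω]
    push Not at hω
    obtain ⟨t, h6, h7⟩ := hω
    refine List.prod_eq_zero ?_
    rw [List.mem_ofFn]
    exact ⟨t, if_neg (fun h => h7 (h h6))⟩

end Poly

section Path

/-- An ordered product of matrices applied to a vector is a sum over paths. -/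
lemma ofFn_prod_mulVec {ι : Type*} [Fintype ι] [DecidableEq ι] (n : ℕ) (M : Fin n → Matrix ι ι ℂ)
    (φ : ι → ℂ) (s : ι) :
    ((List.ofFn M).prod.mulVec φ) s = ∑ p : Fin (n + 1) → ι,
      if p 0 = s then (∏ t : Fin n, M t (p t.castSucc) (p t.succ)) * φ (p (Fin.last n)) else 0 := by
  induction n generalizing s with
  | zero =>
    rw [List.ofFn_zero, List.prod_nil, Matrix.one_mulVec,
      ← (Equiv.funUnique (Fin 1) ι).symm.sum_comp]
    simp
  | succ n ih =>
    rw [List.ofFn_succ, List.prod_cons, ← Matrix.mulVec_mulVec]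
    rw [← (Fin.consEquiv (fun _ : Fin (n + 2) => ι)).sum_comp, Fintype.sum_prod_type]
    have h1 : ∀ (x : ι) (p : Fin (n + 1) → ι),
        (if (Fin.consEquiv (fun _ : Fin (n + 2) => ι)) (x, p) 0 = s then
          (∏ t : Fin (n + 1), M t ((Fin.consEquiv (fun _ : Fin (n + 2) => ι)) (x, p) t.castSucc)
            ((Fin.consEquiv (fun _ : Fin (n + 2) => ι)) (x, p) t.succ)) *
            φ ((Fin.consEquiv (fun _ : Fin (n + 2) => ι)) (x, p) (Fin.last (n + 1))) else 0) =
        if x = s then M 0 s (p 0) * ((∏ t : Fin n, M t.succ (p t.castSucc) (p t.succ)) *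
          φ (p (Fin.last n))) else 0 := by
      intro x p
      have h2 : (Fin.consEquiv (fun _ : Fin (n + 2) => ι)) (x, p) = Fin.cons x p := rfl
      rw [h2, Fin.cons_zero]
      by_cases hx : x = s
      · rw [if_pos hx, if_pos hx, hx, Fin.prod_univ_succ]
        rw [← Fin.succ_last, Fin.cons_succ, Fin.castSucc_zero, Fin.cons_zero, Fin.cons_succ]
        rw [mul_assoc]
        congr 2
      · rw [if_neg hx, if_neg hx]
    simp_rw [h1]
    rw [Finset.sum_comm]
    have h3 : ∀ p : Fin (n + 1) → ι, (∑ x : ι, if x = s then M 0 s (p 0) *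
        ((∏ t : Fin n, M t.succ (p t.castSucc) (p t.succ)) * φ (p (Fin.last n))) else 0) =
        M 0 s (p 0) * ((∏ t : Fin n, M t.succ (p t.castSucc) (p t.succ)) *
          φ (p (Fin.last n))) := by
      intro p
      rw [Finset.sum_ite_eq' univ s, if_pos (Finset.mem_univ _)]
    simp_rw [h3]
    have h4 : ((M 0).mulVec ((List.ofFn fun i => M i.succ).prod.mulVec φ)) s =
        ∑ s', M 0 s s' * ((List.ofFn fun i => M i.succ).prod.mulVec φ) s' := rfl
    rw [h4]
    simp_rw [ih]
    simp_rw [Finset.mul_sum]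
    rw [Finset.sum_comm]
    refine Finset.sum_congr rfl fun p _ => ?_
    have h5 : ∀ s' : ι, (M 0 s s' * if p 0 = s' then
        (∏ t : Fin n, M t.succ (p t.castSucc) (p t.succ)) * φ (p (Fin.last n)) else 0) =
        if p 0 = s' then M 0 s (p 0) * ((∏ t : Fin n, M t.succ (p t.castSucc) (p t.succ)) *
          φ (p (Fin.last n))) else 0 := by
      intro s'
      by_cases h : p 0 = s'
      · rw [if_pos h, if_pos h, h]
      · rw [if_neg h, if_neg h, mul_zero]
    simp_rw [h5]
    rw [Finset.sum_ite_eq univ (p 0), if_pos (Finset.mem_univ _)]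

end Path

section Ham

variable {d L r : ℕ} [NeZero L]

/-- The number of insertions in a layer. -/
def cnt (η : Site L → Opn d r) : ℕ := ∑ v, if η v = none then 0 else 1

/-- The weighted operator of a layer. -/
noncomputable def lm (h : Matrix (LConf d r) (LConf d r) ℂ) (η : Site L → Opn d r) :
    Matrix (Conf d L) (Conf d L) ℂ := (∏ v, hh h (η v)) • siteOp (lay η)

/-- The weighted operator of a letter. -/
noncomputable def lt (h : Matrix (LConf d r) (LConf d r) ℂ) (v : Site L) (q : Opn d r) :
    Matrix (Conf d L) (Conf d L) ℂ := hh h q • siteOp (fun u => facq v u q)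

lemma translate_eq_sum (hrL : r ≤ L) (h : Matrix (LConf d r) (LConf d r) ℂ) (v : Site L) :
    translate L h v = ∑ p : LConf d r × LConf d r, lt h v (some p) := by
  have h1 : h = ∑ p : LConf d r × LConf d r, h p.1 p.2 • Matrix.single p.1 p.2 (1 : ℂ) := by
    conv_lhs => rw [Matrix.matrix_eq_sum_single h]
    rw [Fintype.sum_prod_type]
    refine Finset.sum_congr rfl fun i _ => Finset.sum_congr rfl fun j _ => ?_
    rw [Matrix.smul_single, smul_eq_mul, mul_one]
  conv_lhs => rw [h1]
  rw [translate_sum]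
  refine Finset.sum_congr rfl fun p _ => ?_
  rw [translate_smul, translate_single hrL]
  rfl

open Polynomial in
lemma letter_sum (hrL : r ≤ L) (h : Matrix (LConf d r) (LConf d r) ℂ) (v : Site L) :
    (∑ q : Opn d r, monomial (if q = none then 0 else 1) (lt h v q) :
      (Matrix (Conf d L) (Conf d L) ℂ)[X]) = 1 + monomial 1 (translate L h v) := by
  rw [Fintype.sum_option, translate_eq_sum hrL, map_sum]
  congr 1
  · rw [if_pos rfl]
    have h1 : lt h v none = 1 := by
      unfold lt hh facq
      rw [one_smul, siteOp_one]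
    rw [h1]
    rfl

lemma lm_eq (h : Matrix (LConf d r) (LConf d r) ℂ) (η : Site L → Opn d r) :
    lm h η = (List.ofFn fun a => lt h (enum L a) (η (enum L a))).prod := by
  unfold lm lt
  rw [ofFn_prod_smul, siteOp_list_prod]
  congr 1
  exact ((enum L).prod_comp (fun v => hh h (η v))).symm

open Polynomial in
lemma gen_eq (hrL : r ≤ L) (h : Matrix (LConf d r) (LConf d r) ℂ) :
    (∑ η : Site L → Opn d r, monomial (cnt η) (lm h η) : (Matrix (Conf d L) (Conf d L) ℂ)[X]) =
      (List.ofFn fun a => 1 + monomial 1 (translate L h (enum L a))).prod := by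
  simp_rw [← letter_sum hrL]
  rw [ofFn_prod_sum]
  rw [← (Equiv.arrowCongr (enum L).symm (Equiv.refl (Opn d r))).sum_comp]
  refine Finset.sum_congr rfl fun η _ => ?_
  have h2 : (Equiv.arrowCongr (enum L).symm (Equiv.refl (Opn d r))) η = fun τ => η (enum L τ) := rfl
  have h3 : cnt η = ∑ a, if η (enum L a) = none then 0 else 1 :=
    ((enum L).sum_comp (fun v => if η v = none then 0 else 1)).symm
  rw [h2, ofFn_prod_monomial, lm_eq, h3]

lemma cnt_none : cnt (fun _ : Site L => (none : Opn d r)) = 0 := by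
  simp [cnt]

lemma lm_none (h : Matrix (LConf d r) (LConf d r) ℂ) :
    lm h (fun _ : Site L => (none : Opn d r)) = 1 := by
  rw [lm_eq]
  have h1 : ∀ v : Site L, lt h v (none : Opn d r) = 1 := by
    intro v
    unfold lt hh facq
    rw [one_smul, siteOp_one]
  simp [h1]

/-- Powers of the Hamiltonian. -/
lemma pow_ham (hrL : r ≤ L) (h : Matrix (LConf d r) (LConf d r) ℂ) (n N : ℕ) (hN : N ≤ n) :
    (∑ v : Site L, translate L h v) ^ N = ∑ i : Fin (n + 1), ∑ ω : Fin n → Site L → Opn d r,
      if (∀ t : Fin n, (i : ℕ) ≤ t → ∀ v, ω t v = none) ∧ nins ω = N then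
        ((-1) ^ (nins ω - (i : ℕ)) * ((nins ω).choose i : ℂ)) •
          (List.ofFn fun t => lm h (ω t)).prod else 0 := by
  classical
  set F : Polynomial (Matrix (Conf d L) (Conf d L) ℂ) :=
    ∑ η : Site L → Opn d r, Polynomial.monomial (cnt η) (lm h η) with hF
  have h0 : F.coeff 0 = 1 := by
    rw [hF, gen_eq hrL]
    exact (coeff_ofFn_prod _ _).1
  have h1 : F.coeff 1 = ∑ v : Site L, translate L h v := by
    rw [hF, gen_eq hrL, (coeff_ofFn_prod _ _).2]
    exact (enum L).sum_comp (fun v => translate L h v)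
  rw [← h1, pow_eq_sum_coeff F h0 N]
  have h2 : ∑ i ∈ range (N + 1), ((-1) ^ (N - i) * (N.choose i : ℤ) : ℤ) • (F ^ i).coeff N =
      ∑ i ∈ range (n + 1), ((-1) ^ (N - i) * (N.choose i : ℤ) : ℤ) • (F ^ i).coeff N := by
    refine Finset.sum_subset (fun x hx => ?_) (fun x _ hx => ?_)
    · rw [mem_range] at hx ⊢
      omega
    · rw [mem_range, not_lt] at hx
      rw [Nat.choose_eq_zero_of_lt (by omega)]
      simp
  rw [h2, Finset.sum_range]
  refine Finset.sum_congr rfl fun i _ => ?_
  rw [hF, pow_eq_sum_hist cnt (lm h) (fun _ => none) cnt_none (lm_none h) n i (by omega),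
    Polynomial.finsetSum_coeff, Finset.smul_sum]
  refine Finset.sum_congr rfl fun ω _ => ?_
  by_cases hω : ∀ t : Fin n, (i : ℕ) ≤ t → ∀ v, ω t v = none
  · rw [if_pos (fun t ht => funext (hω t ht)), Polynomial.coeff_monomial]
    have h3 : ∑ t, cnt (ω t) = nins ω := rfl
    rw [h3]
    by_cases hn : nins ω = N
    · rw [if_pos hn, if_pos ⟨hω, hn⟩, hn]
      rw [← Int.cast_smul_eq_zsmul ℂ]
      push_cast
      rfl
    · rw [if_neg hn, if_neg (fun h => hn h.2), smul_zero]
  · rw [if_neg (fun h => hω fun t ht v => congrFun (h t ht) v), if_neg (fun h => hω h.1)]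
    simp

end Ham

end Layers

variable {d L r : ℕ} [NeZero L]

open Layers in
/-- A polynomial of the Hamiltonian as a sum over histories of `n` time layers. -/
theorem aeval_ham_apply (hrL : r ≤ L) (h : Matrix (LConf d r) (LConf d r) ℂ) (P : Polynomial ℂ)
    (n : ℕ) (hP : P.natDegree ≤ n) (Φ : Hil d L) (s : Conf d L) :
    (Polynomial.aeval (ham L h) P Φ) s =
      ∑ i : Fin (n + 1), ∑ ω : Fin n → Site L → Opn d r, ∑ p : Fin (n + 1) → Conf d L,
        if p 0 = s ∧ (∀ t : Fin n, (i : ℕ) ≤ t → ∀ v, ω t v = none) then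
          (P.coeff (nins ω) * (-1) ^ (nins ω - (i : ℕ)) * ((nins ω).choose i : ℂ)) *
            (∏ t, ∏ v, hh h (ω t v)) *
            (∏ t : Fin n, ∏ u, lay (ω t) u (p t.castSucc u) (p t.succ u)) *
            Φ (p (Fin.last n))
        else 0 := by
  classical
  have h1 : Polynomial.aeval (ham L h) P = Matrix.toEuclideanCLM (𝕜 := ℂ)
      (Polynomial.aeval (∑ v : Site L, translate L h v) P) := by
    rw [ham_eq]
    exact Polynomial.aeval_algHom_apply (Matrix.toEuclideanCLM (𝕜 := ℂ) (n := Conf d L)) _ P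
  have h2 : (Polynomial.aeval (ham L h) P Φ) s =
      ((Polynomial.aeval (∑ v : Site L, translate L h v) P).mulVec (fun s' => Φ s')) s := by
    rw [h1]
    rfl
  rw [h2]
  have h3 : Polynomial.aeval (∑ v : Site L, translate L h v) P =
      ∑ i : Fin (n + 1), ∑ ω : Fin n → Site L → Opn d r,
        if (∀ t : Fin n, (i : ℕ) ≤ t → ∀ v, ω t v = none) then
          (P.coeff (nins ω) * (-1) ^ (nins ω - (i : ℕ)) * ((nins ω).choose i : ℂ)) •
            (List.ofFn fun t => lm h (ω t)).prod else 0 := by
    rw [Polynomial.aeval_eq_sum_range' (Nat.lt_succ_of_le hP)]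
    have h4 : ∀ N ∈ range (n + 1), P.coeff N • (∑ v : Site L, translate L h v) ^ N =
        ∑ i : Fin (n + 1), ∑ ω : Fin n → Site L → Opn d r, if nins ω = N then
          (if (∀ t : Fin n, (i : ℕ) ≤ t → ∀ v, ω t v = none) then
          (P.coeff (nins ω) * (-1) ^ (nins ω - (i : ℕ)) * ((nins ω).choose i : ℂ)) •
            (List.ofFn fun t => lm h (ω t)).prod else 0) else 0 := by
      intro N hN
      rw [pow_ham hrL h n N (by rw [mem_range] at hN; omega), Finset.smul_sum]
      refine Finset.sum_congr rfl fun i _ => ?_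
      rw [Finset.smul_sum]
      refine Finset.sum_congr rfl fun ω _ => ?_
      by_cases hn : nins ω = N
      · rw [if_pos hn]
        by_cases hω : ∀ t : Fin n, (i : ℕ) ≤ t → ∀ v, ω t v = none
        · rw [if_pos hω, if_pos ⟨hω, hn⟩, smul_smul, ← hn, mul_assoc]
        · rw [if_neg hω, if_neg (fun h => hω h.1), smul_zero]
      · rw [if_neg hn, if_neg (fun h => hn h.2), smul_zero]
    rw [Finset.sum_congr rfl h4, Finset.sum_comm]
    refine Finset.sum_congr rfl fun i _ => ?_
    rw [Finset.sum_comm]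
    refine Finset.sum_congr rfl fun ω _ => ?_
    rw [Finset.sum_ite_eq (range (n + 1)) (nins ω)]
    by_cases hn : nins ω ∈ range (n + 1)
    · rw [if_pos hn]
    · rw [if_neg hn]
      rw [mem_range, not_lt] at hn
      rw [Polynomial.coeff_eq_zero_of_natDegree_lt (by omega)]
      simp
  rw [h3, Matrix.sum_mulVec, Finset.sum_apply]
  refine Finset.sum_congr rfl fun i _ => ?_
  rw [Matrix.sum_mulVec, Finset.sum_apply]
  refine Finset.sum_congr rfl fun ω _ => ?_
  by_cases hω : ∀ t : Fin n, (i : ℕ) ≤ t → ∀ v, ω t v = none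
  · rw [if_pos hω, Matrix.smul_mulVec, Pi.smul_apply]
    have h5 : (List.ofFn fun t => lm h (ω t)).prod = (∏ t, ∏ v, hh h (ω t v)) •
        (List.ofFn fun t => siteOp (lay (ω t))).prod := by
      unfold lm
      exact ofFn_prod_smul _ _ _
    rw [h5, Matrix.smul_mulVec, Pi.smul_apply, ofFn_prod_mulVec, smul_eq_mul, smul_eq_mul,
      ← mul_assoc, Finset.mul_sum]
    refine Finset.sum_congr rfl fun p _ => ?_
    by_cases hp : p 0 = s
    · rw [if_pos hp, if_pos ⟨hp, hω⟩, ← mul_assoc]
      rfl
    · rw [if_neg hp, if_neg (fun h => hp h.1), mul_zero]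
  · rw [if_neg hω, Matrix.zero_mulVec, Pi.zero_apply]
    symm
    refine Finset.sum_eq_zero fun p _ => ?_
    rw [if_neg (fun h => hω h.2)]

end Pool.Agent.PepsX
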