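import Pool.Agent.PepsX.Terms
import Pool.Agent.PepsX.Layers
import Pool.Agent.PepsX.Crossbar
import Pool.Agent.PepsX.CellCount

/-!
# PX10: decomposition of a polynomial of the Hamiltonian
-/

open Finset
open scoped InnerProductSpace

set_option autoImplicit false
set_option linter.unusedSectionVars false

namespace Pool.Agent.PepsX

open Pool.Agent.PEPS953

namespace Aeval

variable {d L r : ℕ} [NeZero L]

/-- The interval `x, …, x + r - 1` meets two cells for the offset `o`. -/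
def Bad (L r R : ℕ) (x : ZMod L) (o : ℕ) : Prop :=
  ∃ i : ℕ, i < r ∧ cidx L R (x + ((i : ℕ) : ZMod L) - ((o : ℕ) : ZMod L)) ≠
    cidx L R (x - ((o : ℕ) : ZMod L))

open scoped Classical in
/-- The contribution of an insertion at `v` to the statistics `j`. -/
noncomputable def chi (L r R : ℕ) [NeZero L] : Option (Fin R ⊕ Fin R) → Site L → ℕ
  | none, _ => 1
  | some (Sum.inl o), v => if Bad L r R v.1 o then 1 else 0
  | some (Sum.inr o), v => if Bad L r R v.2 o then 1 else 0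

open scoped Classical in
lemma chi_inl (R : ℕ) (o : Fin R) (v : Site L) :
    chi L r R (some (Sum.inl o)) v = if Bad L r R v.1 o then 1 else 0 := rfl

open scoped Classical in
lemma chi_inr (R : ℕ) (o : Fin R) (v : Site L) :
    chi L r R (some (Sum.inr o)) v = if Bad L r R v.2 o then 1 else 0 := rfl

lemma chi_le (R : ℕ) (j : Option (Fin R ⊕ Fin R)) (v : Site L) : chi L r R j v ≤ 1 := by
  rcases j with _ | o | o
  · exact le_rfl
  · rw [chi_inl]; split_ifs <;> simp
  · rw [chi_inr]; split_ifs <;> simp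

/-- The statistics of a history. -/
noncomputable def stat {n : ℕ} (R : ℕ) (ω : Fin n → Site L → Opn d r)
    (j : Option (Fin R ⊕ Fin R)) : ℕ :=
  ∑ t, ∑ v, if ω t v = none then 0 else chi L r R j v

lemma stat_none {n : ℕ} (R : ℕ) (ω : Fin n → Site L → Opn d r) : stat R ω none = nins ω := rfl

lemma card_site : Fintype.card (Site L) = L ^ 2 := by
  rw [Fintype.card_prod, ZMod.card]; ring

lemma stat_lt {n : ℕ} (R : ℕ) (ω : Fin n → Site L → Opn d r) (j : Option (Fin R ⊕ Fin R)) :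
    stat R ω j < n * L ^ 2 + 1 := by
  have h1 : stat R ω j ≤ ∑ _t : Fin n, ∑ _v : Site L, 1 := by
    refine sum_le_sum fun t _ => sum_le_sum fun v _ => ?_
    split_ifs
    · exact Nat.zero_le _
    · exact chi_le R j v
  have h2 : ∑ _t : Fin n, ∑ _v : Site L, 1 = n * L ^ 2 := by
    simp only [sum_const, card_univ, card_site, smul_eq_mul, mul_one, Fintype.card_fin]
  omega

lemma prod_stat {n : ℕ} (R : ℕ) (ω : Fin n → Site L → Opn d r)
    (y : Option (Fin R ⊕ Fin R) → ℂ) :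
    ∏ j, y j ^ stat R ω j =
      ∏ t, ∏ v, if ω t v = none then 1 else ∏ j, y j ^ chi L r R j v := by
  have h1 : ∀ j, y j ^ stat R ω j = ∏ t, ∏ v, y j ^ (if ω t v = none then 0 else chi L r R j v) := by
    intro j
    unfold stat
    rw [← Finset.prod_pow_eq_pow_sum]
    exact Finset.prod_congr rfl fun t _ => by rw [← Finset.prod_pow_eq_pow_sum]
  rw [Finset.prod_congr rfl fun j _ => h1 j, Finset.prod_comm]
  refine Finset.prod_congr rfl fun t _ => ?_
  rw [Finset.prod_comm]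
  refine Finset.prod_congr rfl fun v _ => ?_
  by_cases h : ω t v = none
  · simp [h]
  · simp [h]

lemma sum_chi_inl {R : ℕ} (hR : 0 < R) (hRL : R ≤ L) (v : Site L) :
    ∑ o : Fin R, chi L r R (some (Sum.inl o)) v ≤ r := by
  classical
  have h := card_bad_offset_le (L := L) (r := r) R hR hRL v.1
  rw [card_filter, ← Fin.sum_univ_eq_sum_range] at h
  refine le_trans (le_of_eq (sum_congr rfl fun o _ => ?_)) h
  rw [chi_inl]
  unfold Bad
  congr

lemma sum_chi_inr {R : ℕ} (hR : 0 < R) (hRL : R ≤ L) (v : Site L) :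
    ∑ o : Fin R, chi L r R (some (Sum.inr o)) v ≤ r := by
  classical
  have h := card_bad_offset_le (L := L) (r := r) R hR hRL v.2
  rw [card_filter, ← Fin.sum_univ_eq_sum_range] at h
  refine le_trans (le_of_eq (sum_congr rfl fun o _ => ?_)) h
  rw [chi_inr]
  unfold Bad
  congr

lemma sum_stat_le {n R : ℕ} (ω : Fin n → Site L → Opn d r) (e : Fin R → Option (Fin R ⊕ Fin R))
    (he : ∀ v : Site L, ∑ o : Fin R, chi L r R (e o) v ≤ r) :
    ∑ o : Fin R, stat R ω (e o) ≤ r * stat R ω none := by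
  unfold stat
  rw [Finset.sum_comm, Finset.mul_sum]
  refine sum_le_sum fun t _ => ?_
  rw [Finset.sum_comm, Finset.mul_sum]
  refine sum_le_sum fun v _ => ?_
  by_cases h : ω t v = none
  · simp [h]
  · simp only [h, if_false]
    exact (he v).trans (by simp [chi])

lemma exists_offset {n R : ℕ} (hR : 0 < R) (ω : Fin n → Site L → Opn d r)
    (e : Fin R → Option (Fin R ⊕ Fin R))
    (he : ∀ v : Site L, ∑ o : Fin R, chi L r R (e o) v ≤ r) :
    ∃ o : Fin R, R * stat R ω (e o) ≤ r * stat R ω none := by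
  by_contra hcon
  push Not at hcon
  have h1 := sum_stat_le ω e he
  have h2 : ∑ _o : Fin R, r * stat R ω none < ∑ o : Fin R, R * stat R ω (e o) := by
    refine sum_lt_sum_of_nonempty ?_ fun o _ => hcon o
    exact ⟨⟨0, hR⟩, mem_univ _⟩
  rw [sum_const, card_univ, Fintype.card_fin, smul_eq_mul, ← Finset.mul_sum] at h2
  exact absurd (Nat.mul_le_mul_left R h1) (not_le.2 h2)

/-- The offset as a site. -/
def off {R : ℕ} (o : Fin R × Fin R) : Site L := (((o.1 : ℕ) : ZMod L), ((o.2 : ℕ) : ZMod L))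

lemma bad_of_crossing {R : ℕ} (o : Fin R × Fin R) (τ : Site L)
    (h : Crossing r R (off o : Site L) τ) : Bad L r R τ.1 o.1 ∨ Bad L r R τ.2 o.2 := by
  by_contra hcon
  push Not at hcon
  obtain ⟨h1, h2⟩ := hcon
  unfold Bad at h1 h2
  push Not at h1 h2
  unfold Crossing at h
  refine absurd h (not_lt.2 ?_)
  rw [card_le_one]
  have key : ∀ a ∈ touch r R (off o : Site L) τ, a =
      (cidx L R (τ.1 - ((o.1 : ℕ) : ZMod L)), cidx L R (τ.2 - ((o.2 : ℕ) : ZMod L))) := by
    intro a ha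
    unfold touch at ha
    obtain ⟨p, _, rfl⟩ := mem_image.1 ha
    unfold cell boxPos off
    simp only
    rw [h1 p.1 p.1.2, h2 p.2 p.2.2]
  intro a ha b hb
  rw [key a ha, key b hb]

open scoped Classical in
/-- The number of crossing insertions. -/
noncomputable def ncr {n : ℕ} (R : ℕ) (o : Site L) (ω : Fin n → Site L → Opn d r) : ℕ :=
  ∑ t, ∑ τ, if Crossing r R o τ ∧ ω t τ ≠ none then 1 else 0

lemma ncr_le {n R : ℕ} (o : Fin R × Fin R) (ω : Fin n → Site L → Opn d r) :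
    ncr R (off o : Site L) ω ≤ stat R ω (some (Sum.inl o.1)) + stat R ω (some (Sum.inr o.2)) := by
  unfold ncr stat
  rw [← sum_add_distrib]
  refine sum_le_sum fun t _ => ?_
  rw [← sum_add_distrib]
  refine sum_le_sum fun v _ => ?_
  by_cases h : Crossing r R (off o : Site L) v ∧ ω t v ≠ none
  · rw [if_pos h, if_neg h.2, if_neg h.2]
    rcases bad_of_crossing o v h.1 with hb | hb
    · have : chi L r R (some (Sum.inl o.1)) v = 1 := if_pos hb
      omega
    · have : chi L r R (some (Sum.inr o.2)) v = 1 := if_pos hb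
      omega
  · rw [if_neg h]
    exact Nat.zero_le _

lemma sum_cload {n R : ℕ} (o : Site L) (c : ℕ × ℕ) (ω : Fin n → Site L → Opn d r) :
    ∑ x ∈ range n, cload R o c ω x =
      ∑ t : Fin n, (univ.filter fun τ => c ∈ touch r R o τ ∧ Crossing r R o τ ∧ ω t τ ≠ none).card := by
  unfold cload
  rw [Finset.sum_comm]
  refine sum_congr rfl fun t _ => ?_
  rw [Finset.sum_ite_eq (range n) (t : ℕ), if_pos (mem_range.2 t.2)]

lemma sum_grid_cload {n R : ℕ} (hrR : r ≤ R) (hR : 0 < R) (hRL : R ≤ L) (o : Site L)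
    (ω : Fin n → Site L → Opn d r) :
    ∑ c ∈ grid L R, ∑ x ∈ range n, cload R o c ω x ≤ 4 * ncr R o ω := by
  classical
  rw [sum_congr rfl fun c _ => sum_cload o c ω, Finset.sum_comm]
  unfold ncr
  rw [Finset.mul_sum]
  refine sum_le_sum fun t _ => ?_
  simp only [card_filter]
  rw [Finset.sum_comm, Finset.mul_sum]
  refine sum_le_sum fun τ _ => ?_
  by_cases h : Crossing r R o τ ∧ ω t τ ≠ none
  · rw [if_pos h, mul_one]
    calc ∑ c ∈ grid L R, (if c ∈ touch r R o τ ∧ Crossing r R o τ ∧ ω t τ ≠ none then 1 else 0)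
        = ((grid L R).filter fun c => c ∈ touch r R o τ ∧ Crossing r R o τ ∧ ω t τ ≠ none).card := by
          rw [card_filter]
      _ ≤ (touch r R o τ).card := card_le_card fun c hc => (mem_filter.1 hc).2.1
      _ ≤ 4 := card_touch_le R hrR hR hRL o τ
  · rw [if_neg h]
    rw [mul_zero]
    refine le_of_eq (sum_eq_zero fun c _ => ?_)
    rw [if_neg fun hc => h hc.2]

/-- The set of profiles. -/
def prof (L R B r n : ℕ) : Finset (Finset ((ℕ × ℕ) × ℕ)) :=
  (grid L R ×ˢ Ico 1 n).powerset.filter fun 𝒟 => 𝒟.card * (R * B) ≤ 8 * r * n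

lemma prof_card {R B n : ℕ} (hcond : ∀ K : ℕ, K * (R * B) ≤ 8 * r * n → (L / R) ^ 2 + K ≤ L) :
    (prof L R B r n).card ≤ (1 + (L / R) ^ 2 * n) ^ L := by
  have hsub : prof L R B r n ⊆ (range (L + 1)).biUnion fun j =>
      (grid L R ×ˢ Ico 1 n).powersetCard j := by
    intro 𝒟 h𝒟
    obtain ⟨h1, h2⟩ := mem_filter.1 h𝒟
    rw [mem_powerset] at h1
    have := hcond _ h2
    rw [mem_biUnion]
    exact ⟨𝒟.card, mem_range.2 (by omega), mem_powersetCard.2 ⟨h1, rfl⟩⟩
  have hS : (grid L R ×ˢ Ico 1 n).card ≤ (L / R) ^ 2 * n := by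
    rw [card_product]
    unfold grid
    rw [card_product, card_range, Nat.card_Ico, sq]
    exact Nat.mul_le_mul_left _ (Nat.sub_le _ _)
  calc (prof L R B r n).card ≤ _ := card_le_card hsub
    _ ≤ ∑ j ∈ range (L + 1), ((grid L R ×ˢ Ico 1 n).powersetCard j).card := card_biUnion_le
    _ = ∑ j ∈ range (L + 1), (grid L R ×ˢ Ico 1 n).card.choose j :=
        sum_congr rfl fun j _ => card_powersetCard _ _
    _ ≤ (1 + (grid L R ×ˢ Ico 1 n).card) ^ L := sum_choose_le _ _
    _ ≤ _ := Nat.pow_le_pow_left (by omega) L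

lemma cuts_mem {𝒟 : Finset ((ℕ × ℕ) × ℕ)} {c : ℕ × ℕ} {t : ℕ} : t ∈ cuts 𝒟 c ↔ (c, t) ∈ 𝒟 := by
  unfold cuts
  rw [mem_image]
  constructor
  · rintro ⟨⟨c', t'⟩, hx, rfl⟩
    obtain ⟨h1, h2⟩ := mem_filter.1 hx
    simp only at h2
    subst h2
    exact h1
  · intro h
    exact ⟨(c, t), mem_filter.2 ⟨h, rfl⟩, rfl⟩

open scoped Classical in
lemma sum_prof {n R B : ℕ} (hrR : r ≤ R) (hR : 0 < R) (hRL : R ≤ L)
    (o : Site L) (ω : Fin n → Site L → Opn d r) (hcr : R * ncr R o ω ≤ 2 * r * n) :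
    (∑ 𝒟 ∈ prof L R B r n,
      if ∀ c ∈ grid L R, Greedy n B (cload R o c ω) (cuts 𝒟 c) then (1 : ℂ) else 0) = 1 := by
  choose D hD huniq using fun c : ℕ × ℕ => greedy_exists_unique n B (cload R o c ω)
  simp only at hD huniq
  set 𝒟s : Finset ((ℕ × ℕ) × ℕ) := (grid L R ×ˢ Ico 1 n).filter fun x => x.2 ∈ D x.1 with h𝒟s
  have hcuts : ∀ c ∈ grid L R, cuts 𝒟s c = D c := by
    intro c hc
    ext t
    rw [cuts_mem, h𝒟s, mem_filter, mem_product]
    constructor
    · exact fun h => h.2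
    · exact fun h => ⟨⟨hc, (hD c).1 h⟩, h⟩
  have hcard : 𝒟s.card ≤ ∑ c ∈ grid L R, (D c).card := by
    have : 𝒟s ⊆ ((grid L R).sigma (fun c => D c)).image (fun x => (x.1, x.2)) := by
      intro x hx
      rw [h𝒟s, mem_filter, mem_product] at hx
      exact mem_image.2 ⟨⟨x.1, x.2⟩, mem_sigma.2 ⟨hx.1.1, hx.2⟩, rfl⟩
    calc 𝒟s.card ≤ _ := card_le_card this
      _ ≤ _ := card_image_le
      _ = _ := card_sigma _ _
  have hbound : 𝒟s.card * (R * B) ≤ 8 * r * n := by
    have h1 : (∑ c ∈ grid L R, (D c).card) * B ≤ 4 * ncr R o ω := by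
      rw [Finset.sum_mul]
      exact (sum_le_sum fun c _ => greedy_card_le n B _ (D c) (hD c)).trans
        (sum_grid_cload hrR hR hRL o ω)
    calc 𝒟s.card * (R * B) ≤ (∑ c ∈ grid L R, (D c).card) * (R * B) :=
          Nat.mul_le_mul_right _ hcard
      _ = R * ((∑ c ∈ grid L R, (D c).card) * B) := by ring
      _ ≤ R * (4 * ncr R o ω) := Nat.mul_le_mul_left _ h1
      _ = 4 * (R * ncr R o ω) := by ring
      _ ≤ 4 * (2 * r * n) := Nat.mul_le_mul_left _ hcr
      _ = 8 * r * n := by ring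
  have hmem : 𝒟s ∈ prof L R B r n :=
    mem_filter.2 ⟨mem_powerset.2 (filter_subset _ _), hbound⟩
  rw [sum_eq_single 𝒟s]
  · rw [if_pos]
    intro c hc
    rw [hcuts c hc]
    exact hD c
  · intro 𝒟 h𝒟 hne
    rw [if_neg]
    intro hall
    apply hne
    have h1 := mem_powerset.1 (mem_filter.1 h𝒟).1
    ext ⟨c, t⟩
    constructor
    · intro hx
      have hx' := mem_product.1 (h1 hx)
      rw [h𝒟s, mem_filter]
      refine ⟨h1 hx, ?_⟩
      have := huniq c _ (hall c hx'.1)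
      simp only
      rw [← this, cuts_mem]
      exact hx
    · intro hx
      rw [h𝒟s, mem_filter] at hx
      have hx' := mem_product.1 hx.1
      have := huniq c _ (hall c hx'.1)
      have h3 := hx.2
      simp only at h3
      rw [← this, cuts_mem] at h3
      exact h3
  · exact fun h => absurd hmem h

open scoped Classical in
/-- The chosen offset coordinate, a function of the statistics. -/
noncomputable def sel {R : ℕ} (hR : 0 < R) (r : ℕ) (e : Fin R → Option (Fin R ⊕ Fin R))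
    (A : Option (Fin R ⊕ Fin R) → ℕ) : Fin R :=
  if h : ∃ o : Fin R, R * A (e o) ≤ r * A none then Classical.choose h else ⟨0, hR⟩

lemma sel_spec {n R : ℕ} (hR : 0 < R) (ω : Fin n → Site L → Opn d r)
    (e : Fin R → Option (Fin R ⊕ Fin R))
    (he : ∀ v : Site L, ∑ o : Fin R, chi L r R (e o) v ≤ r) :
    R * stat R ω (e (sel hR r e (stat R ω))) ≤ r * stat R ω none := by
  have h := exists_offset hR ω e he
  unfold sel
  rw [dif_pos h]
  exact Classical.choose_spec h

open scoped Classical in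
/-- The coefficient function. -/
noncomputable def cof {R : ℕ} (hR : 0 < R) (r : ℕ) (P : Polynomial ℂ) (i : ℕ) (o : Fin R × Fin R)
    (A : Option (Fin R ⊕ Fin R) → ℕ) : ℂ :=
  if sel hR r (fun o => some (Sum.inl o)) A = o.1 ∧ sel hR r (fun o => some (Sum.inr o)) A = o.2 then
    P.coeff (A none) * (-1) ^ (A none - i) * ((A none).choose i : ℂ)
  else 0

lemma sum_cof {R : ℕ} (hR : 0 < R) (P : Polynomial ℂ) (i : ℕ)
    (A : Option (Fin R ⊕ Fin R) → ℕ) :
    ∑ o, cof hR r P i o A = P.coeff (A none) * (-1) ^ (A none - i) * ((A none).choose i : ℂ) := by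
  classical
  rw [sum_eq_single (sel hR r (fun o => some (Sum.inl o)) A, sel hR r (fun o => some (Sum.inr o)) A)]
  · unfold cof
    rw [if_pos ⟨rfl, rfl⟩]
  · intro o _ ho
    unfold cof
    rw [if_neg]
    rintro ⟨h1, h2⟩
    exact ho (Prod.ext h1.symm h2.symm)
  · exact fun h => absurd (mem_univ _) h

lemma ncr_of_cof {n R : ℕ} (hR : 0 < R) (hRL : R ≤ L) (P : Polynomial ℂ) (hP : P.natDegree ≤ n)
    (i : ℕ) (o : Fin R × Fin R) (ω : Fin n → Site L → Opn d r)
    (h : cof hR r P i o (stat R ω) ≠ 0) : R * ncr R (off o : Site L) ω ≤ 2 * r * n := by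
  unfold cof at h
  split_ifs at h with h1
  · have hN : stat R ω none ≤ n := by
      by_contra hcon
      push Not at hcon
      apply h
      rw [Polynomial.coeff_eq_zero_of_natDegree_lt (lt_of_le_of_lt hP hcon)]
      ring
    have h2 := sel_spec hR ω (fun o => some (Sum.inl o)) (sum_chi_inl hR hRL)
    have h3 := sel_spec hR ω (fun o => some (Sum.inr o)) (sum_chi_inr hR hRL)
    rw [h1.1] at h2
    rw [h1.2] at h3
    calc R * ncr R (off o : Site L) ω
        ≤ R * (stat R ω (some (Sum.inl o.1)) + stat R ω (some (Sum.inr o.2))) :=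
          Nat.mul_le_mul_left _ (ncr_le o ω)
      _ = R * stat R ω (some (Sum.inl o.1)) + R * stat R ω (some (Sum.inr o.2)) := by ring
      _ ≤ r * stat R ω none + r * stat R ω none := Nat.add_le_add h2 h3
      _ = 2 * r * stat R ω none := by ring
      _ ≤ 2 * r * n := Nat.mul_le_mul_left _ hN
  · exact absurd rfl h

open scoped Classical in
/-- The weights of a term. -/
noncomputable def wt {n : ℕ} (R : ℕ) (h : Matrix (LConf d r) (LConf d r) ℂ) (i : ℕ)
    (y : Option (Fin R ⊕ Fin R) → ℂ) (t : Fin n) (v : Site L) (q : Opn d r) : ℂ :=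
  hh h q * (if q = none then 1 else ∏ j, y j ^ chi L r R j v) *
    (if i ≤ (t : ℕ) ∧ q ≠ none then 0 else 1)

open scoped Classical in
lemma prod_wt {n : ℕ} (R : ℕ) (h : Matrix (LConf d r) (LConf d r) ℂ) (i : ℕ)
    (y : Option (Fin R ⊕ Fin R) → ℂ) (ω : Fin n → Site L → Opn d r) :
    ∏ t, ∏ v, wt R h i y t v (ω t v) = (∏ t, ∏ v, hh h (ω t v)) * (∏ j, y j ^ stat R ω j) *
      (if ∀ t : Fin n, i ≤ (t : ℕ) → ∀ v, ω t v = none then 1 else 0) := by
  rw [prod_stat]
  unfold wt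
  simp only [Finset.prod_mul_distrib]
  congr 1
  by_cases hω : ∀ t : Fin n, i ≤ (t : ℕ) → ∀ v, ω t v = none
  · rw [if_pos hω]
    refine prod_eq_one fun t _ => prod_eq_one fun v _ => ?_
    rw [if_neg]
    rintro ⟨h1, h2⟩
    exact h2 (hω t h1 v)
  · rw [if_neg hω]
    push Not at hω
    obtain ⟨t, ht, v, hv⟩ := hω
    refine prod_eq_zero (mem_univ t) (prod_eq_zero (mem_univ v) ?_)
    rw [if_pos ⟨ht, hv⟩]

open scoped Classical in
/-- The pointwise identity. -/
lemma point {n R B : ℕ} (hrR : r ≤ R) (hR : 0 < R) (hRL : R ≤ L)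
    (h : Matrix (LConf d r) (LConf d r) ℂ) (P : Polynomial ℂ) (hP : P.natDegree ≤ n)
    (a : ℕ → (Fin R × Fin R) → (Option (Fin R ⊕ Fin R) → Fin (n * L ^ 2 + 1)) → ℂ)
    (z : ℕ → (Fin R × Fin R) → Fin (n * L ^ 2 + 1) → ℂ)
    (ha : ∀ i o (A : Option (Fin R ⊕ Fin R) → ℕ), (∀ j, A j < n * L ^ 2 + 1) →
      cof hR r P i o A = ∑ θ, a i o θ * ∏ j, z i o (θ j) ^ A j)
    (i : ℕ) (ω : Fin n → Site L → Opn d r) :
    (∑ o : Fin R × Fin R, ∑ θ : Option (Fin R ⊕ Fin R) → Fin (n * L ^ 2 + 1),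
      ∑ 𝒟 ∈ prof L R B r n, a i o θ *
        if ∀ c ∈ grid L R, Greedy n B (cload R (off o : Site L) c ω) (cuts 𝒟 c) then
          ∏ t, ∏ v, wt R h i (fun j => z i o (θ j)) t v (ω t v) else 0) =
      if ∀ t : Fin n, i ≤ (t : ℕ) → ∀ v, ω t v = none then
        (P.coeff (nins ω) * (-1) ^ (nins ω - i) * ((nins ω).choose i : ℂ)) *
            (∏ t, ∏ v, hh h (ω t v)) else 0 := by
  have h1 : ∀ o : Fin R × Fin R, (∑ θ : Option (Fin R ⊕ Fin R) → Fin (n * L ^ 2 + 1),
      ∑ 𝒟 ∈ prof L R B r n, a i o θ *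
        if ∀ c ∈ grid L R, Greedy n B (cload R (off o : Site L) c ω) (cuts 𝒟 c) then
          ∏ t, ∏ v, wt R h i (fun j => z i o (θ j)) t v (ω t v) else 0) =
      cof hR r P i o (stat R ω) * ((∏ t, ∏ v, hh h (ω t v)) *
        (if ∀ t : Fin n, i ≤ (t : ℕ) → ∀ v, ω t v = none then 1 else 0)) := by
    intro o
    have h2 : (∑ θ : Option (Fin R ⊕ Fin R) → Fin (n * L ^ 2 + 1),
      ∑ 𝒟 ∈ prof L R B r n, a i o θ *
        if ∀ c ∈ grid L R, Greedy n B (cload R (off o : Site L) c ω) (cuts 𝒟 c) then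
          ∏ t, ∏ v, wt R h i (fun j => z i o (θ j)) t v (ω t v) else 0) =
        cof hR r P i o (stat R ω) * ((∏ t, ∏ v, hh h (ω t v)) *
        (if ∀ t : Fin n, i ≤ (t : ℕ) → ∀ v, ω t v = none then 1 else 0)) *
          (∑ 𝒟 ∈ prof L R B r n,
            if ∀ c ∈ grid L R, Greedy n B (cload R (off o : Site L) c ω) (cuts 𝒟 c) then
              (1 : ℂ) else 0) := by
      rw [ha i o (stat R ω) (stat_lt R ω), Finset.sum_mul, Finset.sum_mul]
      refine sum_congr rfl fun θ _ => ?_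
      rw [Finset.mul_sum]
      refine sum_congr rfl fun 𝒟 _ => ?_
      rw [prod_wt]
      by_cases hg : ∀ c ∈ grid L R, Greedy n B (cload R (off o : Site L) c ω) (cuts 𝒟 c)
      · rw [if_pos hg, if_pos hg]
        ring
      · rw [if_neg hg, if_neg hg]
        ring
    rw [h2]
    by_cases hc : cof hR r P i o (stat R ω) = 0
    · rw [hc]
      ring
    · rw [sum_prof hrR hR hRL (off o) ω (ncr_of_cof hR hRL P hP i o ω hc), mul_one]
  rw [sum_congr rfl fun o _ => h1 o, ← Finset.sum_mul, sum_cof, stat_none]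
  by_cases hω : ∀ t : Fin n, i ≤ (t : ℕ) → ∀ v, ω t v = none
  · rw [if_pos hω, if_pos hω]
    ring
  · rw [if_neg hω, if_neg hω]
    ring

lemma isPEPS_le {ι : Type*} [Fintype ι] {D G : ℕ} (hG : Fintype.card ι ≤ G) [Nonempty ι]
    (ψ : ι → Hil d L) (hψ : ∀ g, IsPEPS D (ψ g)) : IsPEPS (G * D) (∑ g, ψ g) := by
  classical
  obtain ⟨x⟩ := ‹Nonempty ι›
  have h0 : IsPEPS D (0 : Hil d L) := by
    have := (hψ x).smul 0
    rwa [zero_smul] at this
  have h1 := isPEPS_sum (ι := ι ⊕ Fin (G - Fintype.card ι)) (D := D)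
    (Sum.elim ψ fun _ => 0) (by
      rintro (g | g)
      · exact hψ g
      · exact h0)
  have h2 : Fintype.card (ι ⊕ Fin (G - Fintype.card ι)) = G := by
    rw [Fintype.card_sum, Fintype.card_fin]
    omega
  rw [h2, Fintype.sum_sum_type] at h1
  simpa using h1

end Aeval

variable {d L r : ℕ} [NeZero L]

open Aeval in
/-- PX10, from the statement of PX9 for the given parameters. -/
theorem aeval_peps_of {n D₀ : ℕ} (hr : 0 < r) (B R : ℕ)
    (hrR : r ≤ R) (hRL : R ≤ L)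
    (hcond : ∀ K : ℕ, K * (R * B) ≤ 8 * r * n → (L / R) ^ 2 + K ≤ L)
    (h : Matrix (LConf d r) (LConf d r) ℂ) (P : Polynomial ℂ) (hP : P.natDegree ≤ n)
    {Φ₀ : Hil d L}
    (hterm : ∀ (o : Site L) (𝒟 : Finset ((ℕ × ℕ) × ℕ)), 𝒟 ⊆ grid L R ×ˢ Ico 1 n →
      (L / R) ^ 2 + 𝒟.card ≤ L → ∀ w : Fin n → Site L → Opn d r → ℂ,
      IsPEPS (D₀ * (labelSize d r R B n * (d ^ L * d ^ L))) (term B R o 𝒟 w Φ₀)) :
    IsPEPS (globalSize L R n * (D₀ * (labelSize d r R B n * (d ^ L * d ^ L))))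
      (Polynomial.aeval (ham L h) P Φ₀) := by
  classical
  have hR : 0 < R := lt_of_lt_of_le hr hrR
  have hexp := fun (i : ℕ) (o : Fin R × Fin R) =>
    stat_expand (J := Option (Fin R ⊕ Fin R)) (n * L ^ 2 + 1) (Nat.succ_pos _) (cof hR r P i o)
  choose a z haz using hexp
  have hpt := fun (i : ℕ) (ω : Fin n → Site L → Opn d r) =>
    point (B := B) hrR hR hRL h P hP a z (fun i o A hA => haz i o A hA) i ω
  -- the index type
  let ι : Type := Fin (n + 1) × (Fin R × Fin R) ×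
    (Option (Fin R ⊕ Fin R) → Fin (n * L ^ 2 + 1)) × (prof L R B r n)
  let ψ : ι → Hil d L := fun x =>
    a x.1 x.2.1 x.2.2.1 • term (n := n) B R (off x.2.1) x.2.2.2.1
      (wt R h x.1 fun j => z x.1 x.2.1 (x.2.2.1 j)) Φ₀
  have hψ : ∀ x, IsPEPS (D₀ * (labelSize d r R B n * (d ^ L * d ^ L))) (ψ x) := by
    intro x
    refine IsPEPS.smul ?_ _
    have hx := mem_filter.1 x.2.2.2.2
    exact hterm _ _ (mem_powerset.1 hx.1) (hcond _ hx.2) _
  have hcard : Fintype.card ι ≤ globalSize L R n := by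
    have h1 : Fintype.card ι = (n + 1) * ((R * R) * ((n * L ^ 2 + 1) ^ (2 * R + 1) *
        (prof L R B r n).card)) := by
      show Fintype.card (Fin (n + 1) × (Fin R × Fin R) ×
        (Option (Fin R ⊕ Fin R) → Fin (n * L ^ 2 + 1)) × (prof L R B r n)) = _
      simp only [Fintype.card_prod, Fintype.card_fin, Fintype.card_fun, Fintype.card_option,
        Fintype.card_sum, Fintype.card_coe]
      rw [two_mul]
    rw [h1]
    unfold globalSize
    calc (n + 1) * ((R * R) * ((n * L ^ 2 + 1) ^ (2 * R + 1) * (prof L R B r n).card))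
        ≤ (n + 1) * ((R * R) * ((n * L ^ 2 + 1) ^ (2 * R + 1) * (1 + (L / R) ^ 2 * n) ^ L)) := by
          gcongr
          exact prof_card hcond
      _ = _ := by ring
  have hne : Nonempty ι := by
    refine ⟨⟨0, Nat.succ_pos _⟩, (⟨0, hR⟩, ⟨0, hR⟩), fun _ => ⟨0, Nat.succ_pos _⟩, ⟨∅, ?_⟩⟩
    exact mem_filter.2 ⟨mem_powerset.2 (empty_subset _), by simp⟩
  have hsum : Polynomial.aeval (ham L h) P Φ₀ = ∑ x : ι, ψ x := by
    ext s
    rw [aeval_ham_apply (hrR.trans hRL) h P n hP Φ₀ s]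
    have e1 : (∑ x : ι, ψ x) s = ∑ x : ι, ψ x s := by simp
    rw [e1]
    show _ = ∑ x : Fin (n + 1) × (Fin R × Fin R) ×
      (Option (Fin R ⊕ Fin R) → Fin (n * L ^ 2 + 1)) × (prof L R B r n), ψ x s
    rw [Fintype.sum_prod_type]
    refine sum_congr rfl fun i _ => ?_
    rw [Fintype.sum_prod_type]
    have e2 : ∀ o : Fin R × Fin R, (∑ x : (Option (Fin R ⊕ Fin R) → Fin (n * L ^ 2 + 1)) ×
        (prof L R B r n), ψ (i, o, x) s) =
        ∑ θ : Option (Fin R ⊕ Fin R) → Fin (n * L ^ 2 + 1), ∑ 𝒟 ∈ prof L R B r n,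
          a i o θ * ∑ ω : Fin n → Site L → Opn d r, ∑ p : Fin (n + 1) → Conf d L,
            if p 0 = s ∧ ∀ c ∈ grid L R, Greedy n B (cload R (off o : Site L) c ω) (cuts 𝒟 c) then
              (∏ t, ∏ v, wt R h i (fun j => z i o (θ j)) t v (ω t v)) *
                (∏ t : Fin n, ∏ u, lay (ω t) u (p t.castSucc u) (p t.succ u)) *
                  Φ₀ (p (Fin.last n))
            else 0 := by
      intro o
      rw [Fintype.sum_prod_type]
      refine sum_congr rfl fun θ _ => ?_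
      rw [← Finset.sum_coe_sort (prof L R B r n)]
      rfl
    rw [sum_congr rfl fun o _ => e2 o]
    -- exchange the sums
    have e3 : (∑ o : Fin R × Fin R, ∑ θ : Option (Fin R ⊕ Fin R) → Fin (n * L ^ 2 + 1),
        ∑ 𝒟 ∈ prof L R B r n,
          a i o θ * ∑ ω : Fin n → Site L → Opn d r, ∑ p : Fin (n + 1) → Conf d L,
            if p 0 = s ∧ ∀ c ∈ grid L R, Greedy n B (cload R (off o : Site L) c ω) (cuts 𝒟 c) then
              (∏ t, ∏ v, wt R h i (fun j => z i o (θ j)) t v (ω t v)) *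
                (∏ t : Fin n, ∏ u, lay (ω t) u (p t.castSucc u) (p t.succ u)) *
                  Φ₀ (p (Fin.last n))
            else 0) =
        ∑ ω : Fin n → Site L → Opn d r, ∑ p : Fin (n + 1) → Conf d L,
          (∑ o : Fin R × Fin R, ∑ θ : Option (Fin R ⊕ Fin R) → Fin (n * L ^ 2 + 1),
            ∑ 𝒟 ∈ prof L R B r n, a i o θ *
              if ∀ c ∈ grid L R, Greedy n B (cload R (off o : Site L) c ω) (cuts 𝒟 c) then
                ∏ t, ∏ v, wt R h i (fun j => z i o (θ j)) t v (ω t v) else 0) *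
          (if p 0 = s then (∏ t : Fin n, ∏ u, lay (ω t) u (p t.castSucc u) (p t.succ u)) *
                  Φ₀ (p (Fin.last n)) else 0) := by
      simp only [Finset.sum_mul, Finset.mul_sum]
      have e4 : ∀ (F : (Fin R × Fin R) → (Option (Fin R ⊕ Fin R) → Fin (n * L ^ 2 + 1)) →
          (Finset ((ℕ × ℕ) × ℕ)) → (Fin n → Site L → Opn d r) → (Fin (n + 1) → Conf d L) → ℂ),
          (∑ o, ∑ θ, ∑ 𝒟 ∈ prof L R B r n, ∑ ω, ∑ p, F o θ 𝒟 ω p) =
            ∑ ω, ∑ p, ∑ o, ∑ θ, ∑ 𝒟 ∈ prof L R B r n, F o θ 𝒟 ω p := by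
        intro F
        calc (∑ o, ∑ θ, ∑ 𝒟 ∈ prof L R B r n, ∑ ω, ∑ p, F o θ 𝒟 ω p)
            = ∑ o, ∑ θ, ∑ ω, ∑ 𝒟 ∈ prof L R B r n, ∑ p, F o θ 𝒟 ω p :=
              sum_congr rfl fun o _ => sum_congr rfl fun θ _ => sum_comm
          _ = ∑ o, ∑ ω, ∑ θ, ∑ 𝒟 ∈ prof L R B r n, ∑ p, F o θ 𝒟 ω p :=
              sum_congr rfl fun o _ => sum_comm
          _ = ∑ ω, ∑ o, ∑ θ, ∑ 𝒟 ∈ prof L R B r n, ∑ p, F o θ 𝒟 ω p := sum_comm
          _ = ∑ ω, ∑ o, ∑ θ, ∑ p, ∑ 𝒟 ∈ prof L R B r n, F o θ 𝒟 ω p :=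
              sum_congr rfl fun ω _ => sum_congr rfl fun o _ => sum_congr rfl fun θ _ => sum_comm
          _ = ∑ ω, ∑ o, ∑ p, ∑ θ, ∑ 𝒟 ∈ prof L R B r n, F o θ 𝒟 ω p :=
              sum_congr rfl fun ω _ => sum_congr rfl fun o _ => sum_comm
          _ = ∑ ω, ∑ p, ∑ o, ∑ θ, ∑ 𝒟 ∈ prof L R B r n, F o θ 𝒟 ω p :=
              sum_congr rfl fun ω _ => sum_comm
      rw [e4]
      refine sum_congr rfl fun ω _ => sum_congr rfl fun p _ => sum_congr rfl fun o _ =>
        sum_congr rfl fun θ _ => sum_congr rfl fun 𝒟 _ => ?_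
      by_cases hp : p 0 = s
      · by_cases hg : ∀ c ∈ grid L R, Greedy n B (cload R (off o : Site L) c ω) (cuts 𝒟 c)
        · rw [if_pos ⟨hp, hg⟩, if_pos hg, if_pos hp]
          ring
        · rw [if_neg (fun hc => hg hc.2), if_neg hg]
          ring
      · rw [if_neg (fun hc => hp hc.1), if_neg hp]
        ring
    rw [e3]
    refine sum_congr rfl fun ω _ => sum_congr rfl fun p _ => ?_
    rw [hpt i ω]
    by_cases hp : p 0 = s
    · by_cases hω : ∀ t : Fin n, (i : ℕ) ≤ (t : ℕ) → ∀ v, ω t v = none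
      · rw [if_pos ⟨hp, hω⟩, if_pos hω, if_pos hp]
        ring
      · rw [if_neg (fun hc => hω hc.2), if_neg hω]
        ring
    · rw [if_neg (fun hc => hp hc.1), if_neg hp]
      ring
  rw [hsum]
  exact isPEPS_le hcard ψ hψ

end Pool.Agent.PepsX
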