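import Pool.Agent.PepsX.Terms

/-!
# The choice of the parameters
-/

set_option autoImplicit false

namespace Pool.Agent.PepsX

/-- the sizes are bounded by powers of `L` -/
private theorem pb_sizes {d r L R B n S : ℕ} (hd : 2 ≤ d) (hdL : d ≤ L) (hR : R ≤ L) (hR0 : 0 < R)
    (hRS : R * R ≤ S) (hBS : B ≤ S) (hn1 : n + 1 ≤ L ^ 5) (hn2 : n * L ^ 2 + 1 ≤ L ^ 7)
    (hn3 : 1 + n * ((2 * L) ^ 2 * r ^ 2) * (d ^ (r * r) * d ^ (r * r)) ≤ L ^ 7) :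
    globalSize L R n * (labelSize d r R B n * (d ^ L * d ^ L)) ≤
      L ^ (14 + 9 * L + S * (29 + 28 * r ^ 2)) := by
  have hL : 1 ≤ L := by omega
  have hRS' : R ≤ S := le_trans (Nat.le_mul_of_pos_left R hR0) hRS
  have hLR : L / R ≤ L := Nat.div_le_self _ _
  have g1 : R * R ≤ L ^ 2 := by
    rw [pow_two]; exact Nat.mul_le_mul hR hR
  have g2 : 1 + (L / R) ^ 2 * n ≤ L ^ 7 := by
    have h1 : (L / R) ^ 2 ≤ L ^ 2 := Nat.pow_le_pow_left hLR 2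
    have h2 : (L / R) ^ 2 * n ≤ n * L ^ 2 := by
      rw [mul_comm]; exact Nat.mul_le_mul_left _ h1
    omega
  have g3 : globalSize L R n ≤ L ^ 5 * L ^ 2 * (L ^ 7) ^ L * (L ^ 7) ^ (2 * R + 1) := by
    unfold globalSize
    gcongr
  have l1 : 1 + n * ((2 * R) ^ 2 * r ^ 2) * (d ^ (r * r) * d ^ (r * r)) ≤ L ^ 7 := by
    refine le_trans ?_ hn3
    gcongr
  have l2 : labelSize d r R B n ≤ L ^ (2 * (2 * R) ^ 2) * (L ^ 7) ^ (B + (2 * R) ^ 2 * r ^ 2) := by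
    unfold labelSize
    gcongr
  have l3 : d ^ L * d ^ L ≤ L ^ L * L ^ L := by gcongr
  calc globalSize L R n * (labelSize d r R B n * (d ^ L * d ^ L))
      ≤ (L ^ 5 * L ^ 2 * (L ^ 7) ^ L * (L ^ 7) ^ (2 * R + 1)) *
        ((L ^ (2 * (2 * R) ^ 2) * (L ^ 7) ^ (B + (2 * R) ^ 2 * r ^ 2)) * (L ^ L * L ^ L)) := by
        gcongr
    _ = L ^ (5 + 2 + 7 * L + 7 * (2 * R + 1) + (2 * (2 * R) ^ 2 +
          7 * (B + (2 * R) ^ 2 * r ^ 2) + (L + L))) := by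
        simp only [← pow_mul, ← pow_add]
    _ ≤ L ^ (14 + 9 * L + S * (29 + 28 * r ^ 2)) := by
        apply Nat.pow_le_pow_right hL
        have h1 : R * R * r ^ 2 ≤ S * r ^ 2 := Nat.mul_le_mul_right _ hRS
        have h2 : 5 + 2 + 7 * L + 7 * (2 * R + 1) + (2 * (2 * R) ^ 2 +
            7 * (B + (2 * R) ^ 2 * r ^ 2) + (L + L)) =
            14 + 9 * L + 14 * R + 8 * (R * R) + 7 * B + 28 * (R * R * r ^ 2) := by ring
        have h3 : 14 + 9 * L + S * (29 + 28 * r ^ 2) = 14 + 9 * L + 29 * S + 28 * (S * r ^ 2) := by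
          ring
        rw [h2, h3]
        linarith

/-- PX11. -/
theorem param_bound (d r : ℕ) (hd : 2 ≤ d) (hr : 0 < r) (K : ℝ) (hK : 0 ≤ K) :
    ∃ (C : ℝ) (L₀ : ℕ), 0 < C ∧ ∀ (L : ℕ) (Q : ℝ), L₀ ≤ L → 1 ≤ Q → Q ≤ (L : ℝ) ^ 3 →
      ∀ n : ℕ, 0 < n → (n : ℝ) ≤ K * (Q * L) →
      ∃ B R : ℕ, 0 < B ∧ r ≤ R ∧ R ≤ L ∧ (∀ k : ℕ, k * (R * B) ≤ 8 * r * n → (L / R) ^ 2 + k ≤ L) ∧
        (globalSize L R n : ℝ) * ((labelSize d r R B n : ℝ) * ((d : ℝ) ^ L * (d : ℝ) ^ L)) ≤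
          Real.exp (C * ((L : ℝ) + Q ^ (2 / 3 : ℝ)) * Real.log L) := by
  -- the constant
  obtain ⟨c0, hc0⟩ := exists_nat_ge (16 * (r : ℝ) * K)
  set c : ℕ := c0 + r + 2 with hc
  obtain ⟨K1, hK1⟩ := exists_nat_ge K
  have hcr : (r : ℝ) ≤ c := by rw [hc]; push_cast; have : (0 : ℝ) ≤ c0 := by positivity
                               linarith
  have hc2 : (2 : ℝ) ≤ c := by
    rw [hc]; push_cast
    have : (0 : ℝ) ≤ c0 := by positivity
    have : (0 : ℝ) ≤ r := by positivity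
    linarith
  have hcK : 16 * (r : ℝ) * K ≤ c := by
    rw [hc]; push_cast
    have : (0 : ℝ) ≤ r := by positivity
    linarith
  refine ⟨23 + 2 * ((c : ℝ) + 1) ^ 2 * (29 + 28 * (r : ℝ) ^ 2),
    d + r + 2 + K1 + 1 + (1 + K1 * (4 * r ^ 2) * (d ^ (r * r) * d ^ (r * r))), by positivity, ?_⟩
  intro L Q hL0 hQ1 hQL n hn hnQ
  have hL2 : 2 ≤ L := by omega
  have hdL : d ≤ L := by omega
  have hrL : r ≤ L := by omega
  have hK1L : K1 + 1 ≤ L := by omega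
  have hML : 1 + K1 * (4 * r ^ 2) * (d ^ (r * r) * d ^ (r * r)) ≤ L := by omega
  have hLr : (2 : ℝ) ≤ L := by exact_mod_cast hL2
  -- roots
  obtain ⟨y, hy0, hy3, hy2⟩ : ∃ y : ℝ, 0 ≤ y ∧ y ^ 3 = Q ∧ y ^ 2 = Q ^ (2 / 3 : ℝ) := by
    have hQ0 : (0 : ℝ) ≤ Q := by linarith
    refine ⟨Q ^ (1 / 3 : ℝ), Real.rpow_nonneg hQ0 _, ?_, ?_⟩
    · rw [← Real.rpow_natCast, ← Real.rpow_mul hQ0]; norm_num
    · rw [← Real.rpow_natCast, ← Real.rpow_mul hQ0]; norm_num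
  have hy1 : 1 ≤ y := by
    by_contra hlt
    push Not at hlt
    have : y ^ 3 < 1 := pow_lt_one₀ hy0 hlt (by norm_num)
    linarith
  have hyL : y ≤ L := by
    have h1 : y ^ 3 ≤ (L : ℝ) ^ 3 := by rw [hy3]; exact hQL
    exact le_of_pow_le_pow_left₀ (by norm_num) (by positivity) h1
  obtain ⟨s, hs0, hs2⟩ : ∃ s : ℝ, 0 ≤ s ∧ s ^ 2 = L :=
    ⟨Real.sqrt L, Real.sqrt_nonneg _, Real.sq_sqrt (by positivity)⟩
  have hs1 : 1 ≤ s := by
    by_contra hlt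
    push Not at hlt
    have : s ^ 2 < 1 := pow_lt_one₀ hs0 hlt (by norm_num)
    linarith
  set ρ : ℕ := ⌈(c : ℝ) * (s + y)⌉₊ with hρ
  have hρ1 : (c : ℝ) * (s + y) ≤ ρ := Nat.le_ceil _
  have hρ2 : (ρ : ℝ) < (c : ℝ) * (s + y) + 1 := Nat.ceil_lt_add_one (by positivity)
  have hcpos : (0 : ℝ) < c := by linarith
  have hρr : r ≤ ρ := by
    have : (r : ℝ) ≤ ρ := by
      calc (r : ℝ) ≤ c := hcr
        _ = c * 1 := by ring
        _ ≤ c * (s + y) := by gcongr; linarith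
        _ ≤ ρ := hρ1
    exact_mod_cast this
  have hρ0 : 0 < ρ := by omega
  have hρs : (c : ℝ) * s ≤ ρ := le_trans (by gcongr; linarith) hρ1
  have hρy : (c : ℝ) * y ≤ ρ := le_trans (by gcongr; linarith) hρ1
  have hρS : ((ρ : ℝ)) ^ 2 ≤ 2 * ((c : ℝ) + 1) ^ 2 * ((L : ℝ) + Q ^ (2 / 3 : ℝ)) := by
    have h1 : (ρ : ℝ) ≤ ((c : ℝ) + 1) * (s + y) := by
      have h0 : ((c : ℝ) + 1) * (s + y) = c * (s + y) + (s + y) := by ring
      linarith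
    have h2 : (ρ : ℝ) ^ 2 ≤ (((c : ℝ) + 1) * (s + y)) ^ 2 := by gcongr
    have h3 : (s + y) ^ 2 ≤ 2 * (s ^ 2 + y ^ 2) := by
      have h4 := sq_nonneg (s - y)
      have h5 : (s - y) ^ 2 = 2 * (s ^ 2 + y ^ 2) - (s + y) ^ 2 := by ring
      linarith
    rw [hs2, hy2] at h3
    calc (ρ : ℝ) ^ 2 ≤ ((c : ℝ) + 1) ^ 2 * (s + y) ^ 2 := by rw [← mul_pow]; exact h2
      _ ≤ ((c : ℝ) + 1) ^ 2 * (2 * ((L : ℝ) + Q ^ (2 / 3 : ℝ))) := by gcongr
      _ = _ := by ring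
  have hnL : (n : ℝ) ≤ K1 * (L : ℝ) ^ 4 := by
    calc (n : ℝ) ≤ K * (Q * L) := hnQ
      _ ≤ K1 * ((L : ℝ) ^ 3 * L) := by gcongr
      _ = K1 * (L : ℝ) ^ 4 := by ring
  have hnL' : n ≤ K1 * L ^ 4 := by exact_mod_cast hnL
  refine ⟨ρ ^ 2, min L ρ, by positivity, le_min hrL hρr, min_le_left _ _, ?_, ?_⟩
  · -- the condition
    intro k hk
    have hkr : (k : ℝ) * (((min L ρ : ℕ) : ℝ) * (ρ : ℝ) ^ 2) ≤ 8 * r * n := by
      exact_mod_cast hk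
    have hup : 8 * (r : ℝ) * n ≤ 8 * r * K * (Q * L) := by
      calc 8 * (r : ℝ) * n ≤ 8 * (r : ℝ) * (K * (Q * L)) := by gcongr
        _ = _ := by ring
    have hgoal : ∀ t : ℕ, (t : ℝ) ^ 2 + k ≤ L → t ^ 2 + k ≤ L := by
      intro t ht
      exact_mod_cast ht
    apply hgoal
    rcases le_total ρ L with h | h
    · rw [min_eq_right h] at hkr ⊢
      have hρr0 : (0 : ℝ) < ρ := by exact_mod_cast hρ0
      have hdiv : ((L / ρ : ℕ) : ℝ) ≤ (L : ℝ) / ρ := Nat.cast_div_le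
      have h1 : ((L / ρ : ℕ) : ℝ) ^ 2 ≤ L / 2 := by
        have h2 : ((L / ρ : ℕ) : ℝ) * ρ ≤ L := by
          rw [le_div_iff₀ hρr0] at hdiv
          exact hdiv
        have h3 : ((L / ρ : ℕ) : ℝ) * (c * s) ≤ L :=
          le_trans (mul_le_mul_of_nonneg_left hρs (by positivity)) h2
        have h4 : ((L / ρ : ℕ) : ℝ) * (2 * s) ≤ s * s := by
          have h5 : ((L / ρ : ℕ) : ℝ) * (2 * s) ≤ ((L / ρ : ℕ) : ℝ) * (c * s) := by gcongr
          have h6 : (L : ℝ) = s * s := by rw [← hs2]; ring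
          linarith
        have h7 : ((L / ρ : ℕ) : ℝ) ≤ s / 2 := by
          have h8 : (0 : ℝ) < 2 * s := by linarith
          have h10 : ((L / ρ : ℕ) : ℝ) * (2 * s) ≤ s / 2 * (2 * s) := by
            have h11 : s / 2 * (2 * s) = s * s := by ring
            linarith
          exact le_of_mul_le_mul_right h10 h8
        have h9 : (0 : ℝ) ≤ ((L / ρ : ℕ) : ℝ) := by positivity
        calc ((L / ρ : ℕ) : ℝ) ^ 2 ≤ (s / 2) ^ 2 := by gcongr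
          _ = s ^ 2 / 4 := by ring
          _ = (L : ℝ) / 4 := by rw [hs2]
          _ ≤ L / 2 := by linarith
      have h2 : (k : ℝ) ≤ L / 2 := by
        have h3 : (c : ℝ) ^ 3 * Q ≤ (ρ : ℝ) * (ρ : ℝ) ^ 2 := by
          calc (c : ℝ) ^ 3 * Q = ((c : ℝ) * y) ^ 3 := by rw [mul_pow, hy3]
            _ ≤ (ρ : ℝ) ^ 3 := by gcongr
            _ = _ := by ring
        have h4 : (k : ℝ) * ((c : ℝ) ^ 3 * Q) ≤ 8 * r * K * (Q * L) :=
          le_trans (le_trans (mul_le_mul_of_nonneg_left h3 (by positivity)) hkr) hup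
        have h5 : 16 * (r : ℝ) * K ≤ (c : ℝ) ^ 3 := by
          have : (c : ℝ) ≤ (c : ℝ) ^ 3 := le_self_pow₀ (by linarith) (by norm_num)
          linarith
        have h6 : (k : ℝ) * ((c : ℝ) ^ 3 * Q) ≤ (c : ℝ) ^ 3 * Q * (L / 2) := by
          calc (k : ℝ) * ((c : ℝ) ^ 3 * Q) ≤ 8 * r * K * (Q * L) := h4
            _ = (16 * (r : ℝ) * K) * (Q * (L / 2)) := by ring
            _ ≤ (c : ℝ) ^ 3 * (Q * (L / 2)) := by gcongr
            _ = _ := by ring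
        have h7 : (0 : ℝ) < (c : ℝ) ^ 3 * Q := by positivity
        rw [mul_comm] at h6
        exact le_of_mul_le_mul_left h6 h7
      linarith
    · rw [min_eq_left h] at hkr ⊢
      rw [Nat.div_self (by omega)]
      have h2 : (k : ℝ) ≤ L / 2 := by
        have hL0' : (0 : ℝ) < L := by linarith
        have h3 : (c : ℝ) ^ 2 * y ^ 2 ≤ (ρ : ℝ) ^ 2 := by
          rw [← mul_pow]
          gcongr
        have h4 : (k : ℝ) * (L * ((c : ℝ) ^ 2 * y ^ 2)) ≤ 8 * r * K * (Q * L) := by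
          refine le_trans (le_trans ?_ hkr) hup
          gcongr
        have h5 : 16 * (r : ℝ) * K ≤ (c : ℝ) ^ 2 := by
          have : (c : ℝ) ≤ (c : ℝ) ^ 2 := le_self_pow₀ (by linarith) (by norm_num)
          linarith
        have h6 : (k : ℝ) * (L * ((c : ℝ) ^ 2 * y ^ 2)) ≤ (L * ((c : ℝ) ^ 2 * y ^ 2)) * (L / 2) := by
          calc (k : ℝ) * (L * ((c : ℝ) ^ 2 * y ^ 2)) ≤ 8 * r * K * (Q * L) := h4
            _ = (16 * (r : ℝ) * K) * (y ^ 2 * L * (y / 2)) := by rw [← hy3]; ring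
            _ ≤ (c : ℝ) ^ 2 * (y ^ 2 * L * (L / 2)) := by gcongr
            _ = _ := by ring
        have h7 : (0 : ℝ) < L * ((c : ℝ) ^ 2 * y ^ 2) := by positivity
        rw [mul_comm] at h6
        exact le_of_mul_le_mul_left h6 h7
      push_cast
      linarith
  · -- the sizes
    have hR0 : 0 < min L ρ := by
      rw [lt_min_iff]; omega
    have hn1 : n + 1 ≤ L ^ 5 := by
      calc n + 1 ≤ K1 * L ^ 4 + L ^ 4 := by
            have : 1 ≤ L ^ 4 := Nat.one_le_pow _ _ (by omega)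
            omega
        _ = (K1 + 1) * L ^ 4 := by ring
        _ ≤ L * L ^ 4 := by gcongr
        _ = L ^ 5 := by ring
    have hn2 : n * L ^ 2 + 1 ≤ L ^ 7 := by
      calc n * L ^ 2 + 1 ≤ (n + 1) * L ^ 2 := by
            have h1 : 1 ≤ L ^ 2 := Nat.one_le_pow _ _ (by omega)
            have h2 : (n + 1) * L ^ 2 = n * L ^ 2 + L ^ 2 := by ring
            omega
        _ ≤ L ^ 5 * L ^ 2 := by gcongr
        _ = L ^ 7 := by ring
    have hn3 : 1 + n * ((2 * L) ^ 2 * r ^ 2) * (d ^ (r * r) * d ^ (r * r)) ≤ L ^ 7 := by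
      have h1 : 1 ≤ L ^ 6 := Nat.one_le_pow _ _ (by omega)
      calc 1 + n * ((2 * L) ^ 2 * r ^ 2) * (d ^ (r * r) * d ^ (r * r))
          ≤ L ^ 6 + (K1 * L ^ 4) * ((2 * L) ^ 2 * r ^ 2) * (d ^ (r * r) * d ^ (r * r)) := by
            gcongr
        _ = (1 + K1 * (4 * r ^ 2) * (d ^ (r * r) * d ^ (r * r))) * L ^ 6 := by ring
        _ ≤ L * L ^ 6 := by gcongr
        _ = L ^ 7 := by ring
    have hRS : min L ρ * min L ρ ≤ ρ ^ 2 := by
      rw [pow_two]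
      exact Nat.mul_le_mul (min_le_right _ _) (min_le_right _ _)
    have hmain := pb_sizes (r := r) hd hdL (min_le_left L ρ) hR0 hRS le_rfl hn1 hn2 hn3
    have hmain' : (globalSize L (min L ρ) n : ℝ) * ((labelSize d r (min L ρ) (ρ ^ 2) n : ℝ) *
        ((d : ℝ) ^ L * (d : ℝ) ^ L)) ≤
        (L : ℝ) ^ (14 + 9 * L + ρ ^ 2 * (29 + 28 * r ^ 2)) := by
      exact_mod_cast hmain
    refine le_trans hmain' ?_
    have hlog : 0 ≤ Real.log L := Real.log_nonneg (by linarith)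
    have hLpos : (0 : ℝ) < L := by linarith
    rw [← Real.exp_log (pow_pos hLpos _), Real.log_pow]
    apply Real.exp_le_exp.2
    apply mul_le_mul_of_nonneg_right _ hlog
    have hQn : 0 ≤ Q ^ (2 / 3 : ℝ) := by rw [← hy2]; positivity
    push_cast
    have h1 : (ρ : ℝ) ^ 2 * (29 + 28 * (r : ℝ) ^ 2) ≤
        2 * ((c : ℝ) + 1) ^ 2 * ((L : ℝ) + Q ^ (2 / 3 : ℝ)) * (29 + 28 * (r : ℝ) ^ 2) := by
      gcongr
    have h2 : (23 + 2 * ((c : ℝ) + 1) ^ 2 * (29 + 28 * (r : ℝ) ^ 2)) *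
        ((L : ℝ) + Q ^ (2 / 3 : ℝ)) = 23 * ((L : ℝ) + Q ^ (2 / 3 : ℝ)) +
        2 * ((c : ℝ) + 1) ^ 2 * ((L : ℝ) + Q ^ (2 / 3 : ℝ)) * (29 + 28 * (r : ℝ) ^ 2) := by ring
    rw [h2]
    linarith

end Pool.Agent.PepsX
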