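import Pool.Agent.PepsX.Crossbar

/-!
# Grouping of variables
-/

open Finset

set_option autoImplicit false
set_option linter.unusedSectionVars false

namespace Pool.Agent.PepsX

open Pool.Agent.PEPS953

/-! ### The abstract regrouping lemma -/

section Regroup

variable {A U : Type} [Fintype A] [DecidableEq A] [Fintype U] [DecidableEq U]
  {V : A → Type} [∀ a, Fintype (V a)] [∀ a, DecidableEq (V a)]

/-- The label of the task `u`. -/
def msk (v₀ : ∀ a, V a) (S : A → Prop) [DecidablePred S] (x : ∀ a, V a) : ∀ a, V a :=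
  fun a => if S a then x a else v₀ a

lemma msk_pos (v₀ : ∀ a, V a) (S : A → Prop) [DecidablePred S] (x : ∀ a, V a) {a : A} (h : S a) :
    msk v₀ S x a = x a := if_pos h

lemma msk_neg (v₀ : ∀ a, V a) (S : A → Prop) [DecidablePred S] (x : ∀ a, V a) {a : A}
    (h : ¬ S a) : msk v₀ S x a = v₀ a := if_neg h

/-- The data of a task with label `w`. -/
def labExt (v₀ : ∀ a, V a) (vis sh : A → Prop) [DecidablePred vis] [DecidablePred sh]
    (w : ∀ a, V a) : Finset (∀ a, V a) :=
  Fintype.piFinset fun a => if vis a then (if sh a then {w a} else univ) else {v₀ a}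

lemma mem_labExt (v₀ : ∀ a, V a) (vis sh : A → Prop) [DecidablePred vis] [DecidablePred sh]
    (w x : ∀ a, V a) : x ∈ labExt v₀ vis sh w ↔
      (∀ a, vis a → sh a → x a = w a) ∧ ∀ a, ¬ vis a → x a = v₀ a := by
  unfold labExt
  rw [Fintype.mem_piFinset]
  constructor
  · intro h
    refine ⟨fun a h1 h2 => ?_, fun a h1 => ?_⟩
    · have := h a
      rw [if_pos h1, if_pos h2, mem_singleton] at this
      exact this
    · have := h a
      rw [if_neg h1, mem_singleton] at this
      exact this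
  · rintro ⟨h1, h2⟩ a
    by_cases hv : vis a
    · rw [if_pos hv]
      by_cases hs : sh a
      · rw [if_pos hs, mem_singleton]; exact h1 a hv hs
      · rw [if_neg hs]; exact mem_univ _
    · rw [if_neg hv, mem_singleton]; exact h2 a hv

/-- **Regrouping lemma.** -/
theorem regroup (v₀ : ∀ a, V a) (vis : U → A → Prop) (sh : A → Prop) [∀ u, DecidablePred (vis u)]
    [DecidablePred sh] (hv : ∀ a, ∃ u, vis u a)
    (hs : ∀ a, ¬ sh a → ∀ u u', vis u a → vis u' a → u = u')
    (g : U → (∀ a, V a) → ℂ)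
    (hg : ∀ u x x', (∀ a, vis u a → x a = x' a) → g u x = g u x')
    (Θ : (U → ∀ a, V a) → ℂ)
    (lab : Finset (U → ∀ a, V a))
    (hlab : ∀ W, W ∈ lab ↔ (∀ u a, ¬ (vis u a ∧ sh a) → W u a = v₀ a) ∧
      ∀ u u' a, vis u a → vis u' a → sh a → W u a = W u' a) :
    ∑ x : ∀ a, V a, Θ (fun u => msk v₀ (fun a => vis u a ∧ sh a) x) * ∏ u, g u x =
      ∑ W ∈ lab, Θ W * ∏ u, ∑ x ∈ labExt v₀ (vis u) sh (W u), g u x := by
  classical
  choose own hown using hv
  simp_rw [Finset.prod_univ_sum, Finset.mul_sum]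
  rw [Finset.sum_sigma']
  symm
  refine Finset.sum_bij' (i := fun p _ a => p.2 (own a) a)
    (j := fun x _ => ⟨fun u => msk v₀ (fun a => vis u a ∧ sh a) x, fun u => msk v₀ (vis u) x⟩)
    ?_ ?_ ?_ ?_ ?_
  · intro p _
    exact mem_univ _
  · intro x _
    rw [mem_sigma]
    refine ⟨?_, ?_⟩
    · rw [hlab]
      refine ⟨fun u a h => ?_, fun u u' a h h' hsa => ?_⟩
      · simp only [msk]; rw [if_neg h]
      · simp only [msk]; rw [if_pos ⟨h, hsa⟩, if_pos ⟨h', hsa⟩]
    · rw [Fintype.mem_piFinset]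
      intro u
      rw [mem_labExt]
      refine ⟨fun a h1 h2 => ?_, fun a h => ?_⟩
      · simp only [msk]; rw [if_pos h1, if_pos ⟨h1, h2⟩]
      · simp only [msk]; rw [if_neg h]
  · rintro ⟨W, X⟩ hp
    rw [mem_sigma, hlab, Fintype.mem_piFinset] at hp
    obtain ⟨⟨h1, h2⟩, h3⟩ := hp
    simp only [mem_labExt] at h1 h2 h3
    have key : ∀ u a, vis u a → X (own a) a = X u a := by
      intro u a hua
      by_cases hsa : sh a
      · rw [(h3 _).1 a (hown a) hsa, (h3 u).1 a hua hsa]
        exact h2 _ _ _ (hown a) hua hsa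
      · rw [hs a hsa _ _ (hown a) hua]
    refine Sigma.ext ?_ (heq_of_eq ?_)
    · funext u a
      simp only [msk]
      by_cases hua : vis u a ∧ sh a
      · rw [if_pos hua, key u a hua.1, (h3 u).1 a hua.1 hua.2]
      · rw [if_neg hua, h1 u a hua]
    · funext u a
      simp only [msk]
      by_cases hua : vis u a
      · rw [if_pos hua]; exact key u a hua
      · rw [if_neg hua]; exact ((h3 u).2 a hua).symm
  · intro x _
    funext a
    simp only [msk]
    rw [if_pos (hown a)]
  · rintro ⟨W, X⟩ hp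
    rw [mem_sigma, hlab, Fintype.mem_piFinset] at hp
    obtain ⟨⟨h1, h2⟩, h3⟩ := hp
    simp only [mem_labExt] at h1 h2 h3
    have key : ∀ u a, vis u a → X (own a) a = X u a := by
      intro u a hua
      by_cases hsa : sh a
      · rw [(h3 _).1 a (hown a) hsa, (h3 u).1 a hua hsa]
        exact h2 _ _ _ (hown a) hua hsa
      · rw [hs a hsa _ _ (hown a) hua]
    have e1 : (fun u => msk v₀ (fun a => vis u a ∧ sh a) fun a => X (own a) a) = W := by
      funext u a
      simp only [msk]
      by_cases hua : vis u a ∧ sh a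
      · rw [if_pos hua, key u a hua.1, (h3 u).1 a hua.1 hua.2]
      · rw [if_neg hua, h1 u a hua]
    dsimp only
    rw [e1]
    congr 1
    refine Finset.prod_congr rfl fun u _ => hg u _ _ fun a hua => ?_
    exact (key u a hua).symm

end Regroup

/-! ### Encoding by the crossbar -/

section Core

variable {d L : ℕ} [NeZero L]

variable {A U : Type} [Fintype A] [DecidableEq A] [Fintype U] [DecidableEq U]
  {V : A → Type} [∀ a, Fintype (V a)] [∀ a, DecidableEq (V a)]

/-- Sum over families of labels as a sum over codes. -/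
lemma sum_codes {X : Type} [DecidableEq X] (w₀ : X) {NW : ℕ} (hNW : 0 < NW) (ι : U → ZMod L)
    (hι : Function.Injective ι) (𝒜 : U → Finset X) (h𝒜 : ∀ u, (𝒜 u).card ≤ NW) :
    ∃ (F₀ : ZMod L → Fin NW → ℂ) (dec : U → Fin NW → X),
      ∀ f : (U → X) → ℂ, ∑ W ∈ Fintype.piFinset 𝒜, f W =
        ∑ k : ZMod L → Fin NW, (∏ x, F₀ x (k x)) * f (fun u => dec u (k (ι u))) := by
  classical
  by_cases hne : ∀ u, (𝒜 u).Nonempty
  · have hcode : ∀ u, ∃ (code : X → Fin NW) (dec : Fin NW → X), (∀ w ∈ 𝒜 u, dec (code w) = w) ∧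
        ∀ j, dec j ∈ 𝒜 u := by
      intro u
      obtain ⟨w₀, hw₀⟩ := hne u
      refine ⟨fun w => if h : w ∈ 𝒜 u then Fin.castLE (h𝒜 u) ((𝒜 u).equivFin ⟨w, h⟩) else ⟨0, hNW⟩,
        fun j => if h : (j : ℕ) < (𝒜 u).card then ((𝒜 u).equivFin.symm ⟨j, h⟩ : X) else w₀, ?_, ?_⟩
      · intro w hw
        simp [hw]
      · intro j
        dsimp only
        split_ifs with h
        · exact Subtype.coe_prop _
        · exact hw₀
    choose code dec hcd hdec using hcode
    refine ⟨fun x j => if (∃ u, ι u = x ∧ code u (dec u j) = j) ∨ ((∀ u, ι u ≠ x) ∧ j = ⟨0, hNW⟩)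
      then 1 else 0, dec, fun f => ?_⟩
    simp_rw [Finset.prod_ite_zero, Finset.prod_const_one, ite_mul, one_mul, zero_mul]
    rw [← Finset.sum_filter]
    refine Finset.sum_bij' (i := fun W _ x => if h : ∃ u, ι u = x then code h.choose (W h.choose)
      else ⟨0, hNW⟩) (j := fun k _ u => dec u (k (ι u))) ?_ ?_ ?_ ?_ ?_
    · intro W hW
      rw [Fintype.mem_piFinset] at hW
      rw [mem_filter]
      refine ⟨mem_univ _, fun x _ => ?_⟩
      by_cases h : ∃ u, ι u = x
      · left
        refine ⟨h.choose, h.choose_spec, ?_⟩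
        beta_reduce
        rw [dif_pos h, hcd _ _ (hW _)]
      · right
        refine ⟨fun u hu => h ⟨u, hu⟩, ?_⟩
        beta_reduce
        rw [dif_neg h]
    · intro k _
      rw [Fintype.mem_piFinset]
      intro u
      exact hdec _ _
    · intro W hW
      rw [Fintype.mem_piFinset] at hW
      funext u
      have h : ∃ u', ι u' = ι u := ⟨u, rfl⟩
      have h2 : h.choose = u := hι h.choose_spec
      dsimp only
      rw [dif_pos h, h2, hcd _ _ (hW _)]
    · intro k hk
      rw [mem_filter] at hk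
      funext x
      by_cases h : ∃ u, ι u = x
      · dsimp only
        rw [dif_pos h]
        rcases hk.2 x (mem_univ x) with ⟨u, hu, h2⟩ | ⟨h2, _⟩
        · have h3 : h.choose = u := hι (h.choose_spec.trans hu.symm)
          rw [h3, hu]
          exact h2
        · exact absurd h.choose_spec (h2 _)
      · dsimp only
        rw [dif_neg h]
        rcases hk.2 x (mem_univ x) with ⟨u, hu, _⟩ | ⟨_, h2⟩
        · exact absurd ⟨u, hu⟩ h
        · exact h2.symm
    · intro W hW
      rw [Fintype.mem_piFinset] at hW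
      congr 1
      funext u
      have h : ∃ u', ι u' = ι u := ⟨u, rfl⟩
      have h2 : h.choose = u := hι h.choose_spec
      dsimp only
      rw [dif_pos h, h2, hcd _ _ (hW _)]
  · push Not at hne
    obtain ⟨u₀, hu₀⟩ := hne
    have hem : Fintype.piFinset 𝒜 = ∅ := by
      rw [Finset.eq_empty_iff_forall_notMem]
      intro W hW
      rw [Fintype.mem_piFinset] at hW
      have := hW u₀
      rw [hu₀] at this
      exact absurd this (Finset.notMem_empty _)
    refine ⟨fun _ _ => 0, fun _ _ => w₀, fun f => ?_⟩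
    rw [hem, Finset.sum_empty]
    symm
    refine Finset.sum_eq_zero fun k _ => ?_
    rw [Finset.prod_eq_zero (mem_univ (ι u₀)) rfl, zero_mul]

lemma prod_prod_ite {α β : Type*} [Fintype α] [Fintype β] (P : α → β → Prop)
    {_ : ∀ a b, Decidable (P a b)} (Q : Prop) {_ : Decidable Q} (hPQ : (∀ a b, P a b) ↔ Q) :
    ∏ a, ∏ b, (if P a b then (1 : ℂ) else 0) = if Q then 1 else 0 := by
  by_cases h : Q
  · rw [if_pos h]
    refine Finset.prod_eq_one fun a _ => Finset.prod_eq_one fun b _ => ?_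
    rw [if_pos (hPQ.mpr h a b)]
  · rw [if_neg h]
    rw [← hPQ] at h
    push Not at h
    obtain ⟨a, b, hab⟩ := h
    refine Finset.prod_eq_zero (mem_univ a) (Finset.prod_eq_zero (mem_univ b) ?_)
    rw [if_neg hab]

open scoped Classical in
/-- The core of the grouping theorem. -/
theorem shared_core {D₀ NW : ℕ} (hd : 0 < d) (hU : Fintype.card U ≤ L) [Nonempty U]
    (v₀ : ∀ a, V a) (vis : U → A → Prop) (sh : A → Prop)
    (hv : ∀ a, ∃ u, vis u a) (hs : ∀ a, ¬ sh a → ∀ u u', vis u a → vis u' a → u = u')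
    (out inp : Site L → A) (hout : ∀ v, sh (out v)) (hinp : ∀ v, sh (inp v))
    (cO : ∀ v, V (out v) → Fin d) (cI : ∀ v, V (inp v) → Fin d)
    (g : U → (∀ a, V a) → ℂ)
    (hg : ∀ u x x', (∀ a, vis u a → x a = x' a) → g u x = g u x')
    (𝒜 : U → Finset (∀ a, V a)) (h𝒜 : ∀ u, (𝒜 u).card ≤ NW)
    (hgA : ∀ u x, g u x ≠ 0 → msk v₀ (fun a => vis u a ∧ sh a) x ∈ 𝒜 u)
    {Φ₀ : Hil d L} (hΦ : IsPEPS D₀ Φ₀) (ψ : Hil d L)
    (hψ : ∀ s : Conf d L, ψ s = ∑ x : ∀ a, V a,
      if (∀ v, cO v (x (out v)) = s v) then Φ₀ (fun v => cI v (x (inp v))) * ∏ u, g u x else 0) :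
    IsPEPS (D₀ * (NW * (d ^ L * d ^ L))) ψ := by
  rcases Nat.eq_zero_or_pos NW with h0 | hNW
  · -- all terms vanish
    subst h0
    have hg0 : ∀ u x, g u x = 0 := by
      intro u x
      by_contra h
      have h1 := hgA u x h
      have h2 : 𝒜 u = ∅ := Finset.card_eq_zero.mp (Nat.le_zero.mp (h𝒜 u))
      rw [h2] at h1
      exact absurd h1 (Finset.notMem_empty _)
    refine crossbar_peps hd hΦ (fun _ _ => 0) (fun _ _ _ _ => 0) (fun _ _ _ _ _ => 0) ψ fun s => ?_
    rw [hψ]
    trans (0 : ℂ)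
    · refine Finset.sum_eq_zero fun x _ => ?_
      split_ifs
      · rw [Finset.prod_eq_zero (mem_univ (Classical.arbitrary U)) (hg0 _ _), mul_zero]
      · rfl
    · symm
      refine Finset.sum_eq_zero fun W _ => (W 0).elim0
  -- the embedding of the tasks
  obtain ⟨ι, hι⟩ : ∃ ι : U → ZMod L, Function.Injective ι := by
    have h1 : Fintype.card U ≤ Fintype.card (ZMod L) := by rw [ZMod.card]; exact hU
    exact ⟨_, (Function.Embedding.nonempty_of_card_le h1).some.injective⟩
  choose own hown using hv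
  -- finite sets of masked labels
  let 𝒜' : U → Finset (∀ a, V a) := fun u =>
    (𝒜 u).filter fun w => ∀ a, ¬ (vis u a ∧ sh a) → w a = v₀ a
  have h𝒜' : ∀ u, (𝒜' u).card ≤ NW := fun u => (Finset.card_filter_le _ _).trans (h𝒜 u)
  let cons : (U → ∀ a, V a) → Prop := fun W => ∀ u u' a, vis u a → vis u' a → sh a → W u a = W u' a
  let G : U → (∀ a, V a) → ℂ := fun u w => ∑ x ∈ labExt v₀ (vis u) sh w, g u x
  let Θ : Conf d L → (U → ∀ a, V a) → ℂ := fun s W =>
    if (∀ v, cO v (W (own (out v)) (out v)) = s v) then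
      Φ₀ (fun v => cI v (W (own (inp v)) (inp v))) else 0
  have step1 : ∀ s, ψ s = ∑ W ∈ Fintype.piFinset 𝒜',
      (if cons W then Θ s W else 0) * ∏ u, G u (W u) := by
    intro s
    have hlab := regroup v₀ vis sh (fun a => ⟨own a, hown a⟩) hs g hg (Θ s)
      (univ.filter fun W => (∀ u a, ¬ (vis u a ∧ sh a) → W u a = v₀ a) ∧ cons W)
      (fun W => by rw [mem_filter]; simp [cons])
    rw [hψ]
    trans ∑ x : ∀ a, V a, Θ s (fun u => msk v₀ (fun a => vis u a ∧ sh a) x) * ∏ u, g u x
    · refine Finset.sum_congr rfl fun x _ => ?_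
      simp only [Θ, msk]
      have e1 : ∀ v, (vis (own (out v)) (out v) ∧ sh (out v)) := fun v => ⟨hown _, hout v⟩
      have e2 : ∀ v, (vis (own (inp v)) (inp v) ∧ sh (inp v)) := fun v => ⟨hown _, hinp v⟩
      simp_rw [if_pos (e1 _), if_pos (e2 _), ite_mul, zero_mul]
    rw [hlab]
    simp_rw [ite_mul, zero_mul]
    rw [← Finset.sum_filter]
    symm
    refine Finset.sum_subset ?_ ?_
    · intro W hW
      rw [mem_filter, Fintype.mem_piFinset] at hW
      rw [mem_filter]
      exact ⟨mem_univ _, fun u a h => (mem_filter.mp (hW.1 u)).2 a h, hW.2⟩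
    · intro W hW hW2
      rw [mem_filter] at hW
      obtain ⟨_, h1, h2⟩ := hW
      have h3 : ∃ u, W u ∉ 𝒜' u := by
        by_contra hcon
        push Not at hcon
        exact hW2 (mem_filter.mpr ⟨Fintype.mem_piFinset.mpr hcon, h2⟩)
      obtain ⟨u, hu⟩ := h3
      have h4 : ∑ x ∈ labExt v₀ (vis u) sh (W u), g u x = 0 := by
        refine Finset.sum_eq_zero fun x hx => ?_
        by_contra hne
        rw [mem_labExt] at hx
        have h5 := hgA u x hne
        have h6 : msk v₀ (fun a => vis u a ∧ sh a) x = W u := by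
          funext a
          simp only [msk]
          by_cases ha : vis u a ∧ sh a
          · rw [if_pos ha]; exact hx.1 a ha.1 ha.2
          · rw [if_neg ha, h1 u a ha]
        rw [h6] at h5
        exact hu (mem_filter.mpr ⟨h5, fun a ha => h1 u a ha⟩)
      rw [Finset.prod_eq_zero (mem_univ u) h4, mul_zero]
  obtain ⟨F₀, dec, hsum⟩ := sum_codes v₀ hNW ι hι 𝒜' h𝒜'
  refine crossbar_peps hd hΦ
    (fun x j => F₀ x j * ∏ u, if ι u = x then G u (dec u j) else 1)
    (fun x y j j' => if ∀ u u', ι u = x → ι u' = y → ∀ a, vis u a → vis u' a → sh a →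
      dec u j a = dec u' j' a then 1 else 0)
    (fun x y sr fr j => if ∀ u, ι u = x → ∀ x', (vis u (out (x', y)) →
        cO _ (dec u j (out (x', y))) = sr x') ∧ (vis u (inp (x', y)) →
        cI _ (dec u j (inp (x', y))) = fr x') then 1 else 0)
    ψ fun s => ?_
  rw [step1, hsum]
  refine Finset.sum_congr rfl fun k _ => ?_
  set W : U → ∀ a, V a := fun u => dec u (k (ι u)) with hW
  have P1 : ∏ x : ZMod L, (F₀ x (k x) * ∏ u, if ι u = x then G u (dec u (k x)) else 1) =
      (∏ x, F₀ x (k x)) * ∏ u, G u (W u) := by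
    rw [Finset.prod_mul_distrib, Finset.prod_comm]
    congr 1
    refine Finset.prod_congr rfl fun u _ => ?_
    rw [Finset.prod_ite_eq univ (ι u), if_pos (mem_univ _)]
  have P2 : (∏ x : ZMod L, ∏ y : ZMod L, (if ∀ u u', ι u = x → ι u' = y → ∀ a, vis u a →
      vis u' a → sh a → dec u (k x) a = dec u' (k y) a then (1 : ℂ) else 0)) =
      if cons W then 1 else 0 := by
    refine prod_prod_ite _ _ ?_
    constructor
    · intro h u u' a h1 h2 h3
      exact h (ι u) (ι u') u u' rfl rfl a h1 h2 h3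
    · rintro h x y u u' rfl rfl a h1 h2 h3
      exact h u u' a h1 h2 h3
  have P3 : ∀ f : Conf d L, (∏ x : ZMod L, ∏ y : ZMod L, (if ∀ u, ι u = x → ∀ x',
      (vis u (out (x', y)) → cO _ (dec u (k x) (out (x', y))) = s (x', y)) ∧
      (vis u (inp (x', y)) → cI _ (dec u (k x) (inp (x', y))) = f (x', y)) then (1 : ℂ) else 0)) =
      if ∀ u v, (vis u (out v) → cO v (W u (out v)) = s v) ∧
        (vis u (inp v) → cI v (W u (inp v)) = f v) then 1 else 0 := by
    intro f
    refine prod_prod_ite _ _ ?_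
    constructor
    · intro h u v
      exact h (ι u) v.2 u rfl v.1
    · rintro h x y u rfl x'
      exact h u (x', y)
  simp only [P1, P2, P3]
  by_cases hc : cons W
  · rw [if_pos hc]
    simp only [if_pos hc, mul_one]
    have h1 : ∑ f : Conf d L, Φ₀ f * ((∏ x, F₀ x (k x)) * ∏ u, G u (W u)) *
        (if ∀ u v, (vis u (out v) → cO v (W u (out v)) = s v) ∧
        (vis u (inp v) → cI v (W u (inp v)) = f v) then (1 : ℂ) else 0) =
        ((∏ x, F₀ x (k x)) * ∏ u, G u (W u)) * Θ s W := by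
      rw [Finset.sum_eq_single (fun v => cI v (W (own (inp v)) (inp v)))]
      · simp only [Θ]
        by_cases hs1 : ∀ v, cO v (W (own (out v)) (out v)) = s v
        · rw [if_pos hs1, if_pos]
          · ring
          · intro u v
            refine ⟨fun hu => ?_, fun hu => ?_⟩
            · rw [hc u (own (out v)) (out v) hu (hown _) (hout v)]
              exact hs1 v
            · rw [hc u (own (inp v)) (inp v) hu (hown _) (hinp v)]
        · rw [if_neg hs1, if_neg]
          · ring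
          · intro h
            exact hs1 fun v => (h (own (out v)) v).1 (hown _)
      · intro f _ hf
        rw [if_neg, mul_zero]
        intro h
        apply hf
        funext v
        exact ((h (own (inp v)) v).2 (hown _)).symm
      · intro h
        exact absurd (mem_univ _) h
    rw [h1]
    ring
  · rw [if_neg hc]
    simp only [if_neg hc, mul_zero, zero_mul, Finset.sum_const_zero]

end Core

section Final

variable {d L : ℕ} [NeZero L]

/-- The types of the values of the variables. -/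
def Val (d : ℕ) (A₁ A₂ O : Type) : A₁ ⊕ A₂ → Type
  | .inl _ => Fin d
  | .inr _ => O

instance Val.instFintype (d : ℕ) (A₁ A₂ O : Type) [Fintype O] (a : A₁ ⊕ A₂) :
    Fintype (Val d A₁ A₂ O a) :=
  match a with
  | .inl _ => inferInstanceAs (Fintype (Fin d))
  | .inr _ => inferInstanceAs (Fintype O)

instance Val.instDecidableEq (d : ℕ) (A₁ A₂ O : Type) [DecidableEq O] (a : A₁ ⊕ A₂) :
    DecidableEq (Val d A₁ A₂ O a) :=
  match a with
  | .inl _ => inferInstanceAs (DecidableEq (Fin d))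
  | .inr _ => inferInstanceAs (DecidableEq O)

/-- Joining two families. -/
def jn {d : ℕ} {A₁ A₂ O : Type} (q : (A₁ → Fin d) × (A₂ → O)) : ∀ a, Val d A₁ A₂ O a
  | .inl a => q.1 a
  | .inr a => q.2 a

/-- Joining two families, as an equivalence. -/
def jnEquiv (d : ℕ) (A₁ A₂ O : Type) :
    ((A₁ → Fin d) × (A₂ → O)) ≃ (∀ a, Val d A₁ A₂ O a) where
  toFun := jn
  invFun x := (fun a => x (.inl a), fun a => x (.inr a))
  left_inv _ := rfl
  right_inv x := by
    funext a
    cases a <;> rfl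

/-- PX7. The variables are `p : A₁ → Fin d` and `ω : A₂ → O`. The task `u` sees the variables `a`
with `vis₁ u a`, `vis₂ u a`. A variable which is not shared (`sh`) is seen by exactly one task, and
every variable is seen by some task. The masked label of the task `u` is the restriction of the data
to the shared variables seen by `u`, and it is confined to the finite set `𝒜 u` of size at most
`NW` when `g u` does not vanish. -/
theorem shared_peps {d L : ℕ} [NeZero L] {D₀ NW : ℕ} {A₁ A₂ O U : Type} [Fintype A₁] [Fintype A₂]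
    [DecidableEq A₁] [DecidableEq A₂] [Fintype O] [DecidableEq O] [Fintype U] [DecidableEq U]
    (o₀ : O) (d₀ : Fin d) (hU : Fintype.card U ≤ L)
    (vis₁ : U → A₁ → Prop) (vis₂ : U → A₂ → Prop) (sh₁ : A₁ → Prop) (sh₂ : A₂ → Prop)
    [∀ u a, Decidable (vis₁ u a)] [∀ u a, Decidable (vis₂ u a)]
    [∀ a, Decidable (sh₁ a)] [∀ a, Decidable (sh₂ a)]
    (hv₁ : ∀ a, ∃ u, vis₁ u a) (hv₂ : ∀ a, ∃ u, vis₂ u a)
    (hs₁ : ∀ a, ¬ sh₁ a → ∀ u u', vis₁ u a → vis₁ u' a → u = u')
    (hs₂ : ∀ a, ¬ sh₂ a → ∀ u u', vis₂ u a → vis₂ u' a → u = u')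
    (out inp : Site L → A₁) (hout : ∀ v, sh₁ (out v)) (hinp : ∀ v, sh₁ (inp v))
    (g : U → (A₁ → Fin d) → (A₂ → O) → ℂ)
    (hg : ∀ u p p' ω ω', (∀ a, vis₁ u a → p a = p' a) → (∀ a, vis₂ u a → ω a = ω' a) →
      g u p ω = g u p' ω')
    (𝒜 : U → Finset ((A₁ → Fin d) × (A₂ → O))) (h𝒜 : ∀ u, (𝒜 u).card ≤ NW)
    (hgA : ∀ u p ω, g u p ω ≠ 0 →
      ((fun a => if vis₁ u a ∧ sh₁ a then p a else d₀),
        (fun a => if vis₂ u a ∧ sh₂ a then ω a else o₀)) ∈ 𝒜 u)
    {Φ₀ : Hil d L} (hΦ : IsPEPS D₀ Φ₀) (ψ : Hil d L)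
    (hψ : ∀ s : Conf d L, ψ s = ∑ p : A₁ → Fin d, ∑ ω : A₂ → O,
      if (∀ v, p (out v) = s v) then Φ₀ (fun v => p (inp v)) * ∏ u, g u p ω else 0) :
    IsPEPS (D₀ * (NW * (d ^ L * d ^ L))) ψ := by
  classical
  have hd : 0 < d := d₀.pos
  have : Nonempty U := ⟨(hv₁ (out 0)).choose⟩
  have key : ∀ s : Conf d L, ψ s = ∑ x : ∀ a, Val d A₁ A₂ O a,
      if (∀ v, (x (.inl (out v)) : Fin d) = s v) then
        Φ₀ (fun v => (x (.inl (inp v)) : Fin d)) *
          ∏ u, g u (fun a => x (.inl a)) (fun a => x (.inr a)) else 0 := by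
    intro s
    rw [hψ, ← Fintype.sum_prod_type' (f := fun (p : A₁ → Fin d) (ω : A₂ → O) =>
      if (∀ v, p (out v) = s v) then Φ₀ (fun v => p (inp v)) * ∏ u, g u p ω else 0)]
    exact Fintype.sum_equiv (jnEquiv d A₁ A₂ O) _ _ fun q => rfl
  refine shared_core (V := Val d A₁ A₂ O) hd hU (jn ((fun _ => d₀), (fun _ => o₀)))
    (fun u a => Sum.elim (vis₁ u) (vis₂ u) a) (fun a => Sum.elim sh₁ sh₂ a) ?_ ?_
    (fun v => .inl (out v)) (fun v => .inl (inp v)) hout hinp (fun v x => x) (fun v x => x)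
    (fun u x => g u (fun a => x (.inl a)) (fun a => x (.inr a))) ?_
    (fun u => (𝒜 u).image jn) ?_ ?_ hΦ ψ ?_
  · rintro (a | a)
    · exact hv₁ a
    · exact hv₂ a
  · rintro (a | a)
    · exact hs₁ a
    · exact hs₂ a
  · intro u x x' h
    exact hg u _ _ _ _ (fun a ha => h (.inl a) ha) (fun a ha => h (.inr a) ha)
  · intro u
    exact Finset.card_image_le.trans (h𝒜 u)
  · intro u x hx
    refine mem_image.mpr ⟨_, hgA u _ _ hx, ?_⟩
    funext a
    cases a with
    | inl a =>
      simp only [jn, msk, Sum.elim_inl]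
      by_cases h : vis₁ u a ∧ sh₁ a
      · rw [if_pos h, if_pos h]
      · rw [if_neg h, if_neg h]
    | inr a =>
      simp only [jn, msk, Sum.elim_inr]
      by_cases h : vis₂ u a ∧ sh₂ a
      · rw [if_pos h, if_pos h]
      · rw [if_neg h, if_neg h]
  · intro s
    rw [key]
    refine Finset.sum_congr rfl fun x _ => ?_
    by_cases h : ∀ v : Site L, (x (.inl (out v)) : Fin d) = s v
    · exact (if_pos h).trans (if_pos h).symm
    · exact (if_neg h).trans (if_neg h).symm

end Final

end Pool.Agent.PepsX
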