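import Pool.Agent.PEPS953.Count

/-!
# Counting sparse histories (PX8)
-/

open Finset

set_option autoImplicit false
set_option linter.unusedSectionVars false

namespace Pool.Agent.PepsX

open Pool.Agent.PEPS953

/-- PX8. -/
theorem card_sparse_le {A P : Type} [Fintype A] [DecidableEq A] [Fintype P] [DecidableEq P]
    (S : Finset A) (K : ℕ) :
    (univ.filter fun O : A → Option P => (∀ a, a ∉ S → O a = none) ∧
      (univ.filter fun a => O a ≠ none).card ≤ K).card ≤ (1 + S.card * Fintype.card P) ^ K := by
  classical
  -- the graph of a history
  let gr : (A → Option P) → Finset (A × P) := fun ω => univ.filter fun x => ω x.1 = some x.2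
  have hgr : Function.Injective gr := by
    intro ω ω' h
    funext t
    have key : ∀ p, ω t = some p ↔ ω' t = some p := by
      intro p
      have := Finset.ext_iff.mp h (t, p)
      simpa [gr] using this
    cases h1 : ω t with
    | none =>
      cases h2 : ω' t with
      | none => rfl
      | some p => rw [(key p).mpr h2] at h1; exact absurd h1 (by simp)
    | some p => exact ((key p).mp h1).symm
  have hcard : ∀ ω : A → Option P, (gr ω).card ≤ (univ.filter fun a => ω a ≠ none).card := by
    intro ω
    refine Finset.card_le_card_of_injOn Prod.fst ?_ ?_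
    · intro x hx
      simp only [gr, Finset.coe_filter, Finset.mem_univ, true_and, Set.mem_ofPred_eq] at hx
      simp only [Finset.coe_filter, Finset.mem_univ, true_and, Set.mem_ofPred_eq]
      rw [hx]; simp
    · intro x hx y hy hxy
      simp only [gr, Finset.coe_filter, Finset.mem_univ, true_and, Set.mem_ofPred_eq] at hx hy
      have hxy' : x.1 = y.1 := hxy
      rw [hxy', hy] at hx
      exact Prod.ext hxy' (Option.some.inj hx).symm
  set T : Finset (Finset (A × P)) := (range (K + 1)).biUnion fun j =>
    powersetCard j (S ×ˢ (univ : Finset P)) with hT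
  have h1 : (univ.filter fun O : A → Option P => (∀ a, a ∉ S → O a = none) ∧
      (univ.filter fun a => O a ≠ none).card ≤ K).card ≤ T.card := by
    refine Finset.card_le_card_of_injOn gr ?_ (hgr.injOn)
    intro ω hω
    rw [Finset.mem_coe, Finset.mem_filter] at hω
    rw [Finset.mem_coe, hT, Finset.mem_biUnion]
    refine ⟨(gr ω).card, ?_, ?_⟩
    · rw [Finset.mem_range]
      exact Nat.lt_succ_of_le ((hcard ω).trans hω.2.2)
    · rw [Finset.mem_powersetCard]
      refine ⟨fun x hx => ?_, rfl⟩
      simp only [gr, Finset.mem_filter, Finset.mem_univ, true_and] at hx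
      rw [Finset.mem_product]
      refine ⟨?_, Finset.mem_univ _⟩
      by_contra hS
      rw [hω.2.1 _ hS] at hx
      exact absurd hx (by simp)
  refine h1.trans (Finset.card_biUnion_le.trans ?_)
  have h2 : ∀ j, (powersetCard j (S ×ˢ (univ : Finset P))).card =
      (S.card * Fintype.card P).choose j := by
    intro j
    rw [Finset.card_powersetCard, Finset.card_product, Finset.card_univ]
  simp_rw [h2]
  exact sum_choose_le _ _

end Pool.Agent.PepsX
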