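import Pool.Agent.PepsX.Terms
import Pool.Agent.PepsX.Regroup
import Pool.Agent.PepsX.Sparse
import Pool.Agent.PepsX.CellCount

/-!
# Each term is a PEPS (PX9)
-/

open Finset
open scoped InnerProductSpace

set_option autoImplicit false
set_option linter.unusedSectionVars false

namespace Pool.Agent.PepsX

open Pool.Agent.PEPS953

/-! ### Slices -/

theorem sst_zero_or_mem (D : Finset ℕ) (t : ℕ) : sst D t = 0 ∨ sst D t ∈ D := by
  rcases (D.filter (· ≤ t)).eq_empty_or_nonempty with h | h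
  · left
    unfold sst
    rw [h]
    rfl
  · right
    obtain ⟨x, hx, hx2⟩ := Finset.exists_mem_eq_sup _ h id
    unfold sst
    rw [hx2]
    exact (mem_filter.1 hx).1

theorem sst_mono (D : Finset ℕ) {t t' : ℕ} (h : t ≤ t') : sst D t ≤ sst D t' :=
  Finset.sup_mono fun _ hx => mem_filter.2 ⟨(mem_filter.1 hx).1, (mem_filter.1 hx).2.trans h⟩

theorem le_sst {D : Finset ℕ} {s t : ℕ} (hs : s ∈ D) (h : s ≤ t) : s ≤ sst D t :=
  Finset.le_sup (f := id) (mem_filter.2 ⟨hs, h⟩)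

theorem sst_between {D : Finset ℕ} {s x t : ℕ} (h : sst D t = s) (h1 : s ≤ x) (h2 : x ≤ t) :
    sst D x = s := by
  refine le_antisymm (h ▸ sst_mono D h2) ?_
  rcases sst_zero_or_mem D t with h0 | h0
  · rw [h] at h0
    omega
  · rw [h] at h0
    exact le_sst h0 h1

/-! ### Cells and boxes -/

variable {d L r : ℕ} [NeZero L]

theorem cell_mem_grid {R : ℕ} (hR : 0 < R) (hRL : R ≤ L) (o u : Site L) :
    cell R o u ∈ grid L R := by
  have h1 : 1 ≤ L / R := (Nat.one_le_div_iff hR).2 hRL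
  unfold cell cidx grid
  simp only [mem_product, mem_range]
  constructor <;> omega

theorem cell_mem_touch {R : ℕ} (o τ v : Site L) (h : ∃ p, boxPos L r τ p = v) :
    cell R o v ∈ touch r R o τ := by
  obtain ⟨p, rfl⟩ := h
  exact mem_image.2 ⟨p, mem_univ _, rfl⟩

theorem boxPos_zero (hr : 0 < r) (v : Site L) :
    boxPos L r v ((⟨0, hr⟩, ⟨0, hr⟩) : Box r) = v := by
  unfold boxPos
  simp

theorem cell_mem_touch_self (hr : 0 < r) {R : ℕ} (o v : Site L) :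
    cell R o v ∈ touch r R o v :=
  cell_mem_touch o v v ⟨_, boxPos_zero hr v⟩

theorem facq_eq_one (τ v : Site L) (h : ¬ ∃ p, boxPos L r τ p = v) (q : Opn d r) :
    facq τ v q = 1 := by
  cases q with
  | none => rfl
  | some p => exact fac_neg _ _ _ _ h

theorem lay_congr {η η' : Site L → Opn d r} {v : Site L}
    (h : ∀ τ, (∃ p, boxPos L r τ p = v) → η τ = η' τ) : lay η v = lay η' v := by
  unfold lay
  congr 1
  refine congrArg List.ofFn (funext fun a => ?_)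
  by_cases hv : ∃ p, boxPos L r (enum L a) p = v
  · rw [h _ hv]
  · rw [facq_eq_one _ _ hv, facq_eq_one _ _ hv]

theorem card_touch_filter_le {R : ℕ} (hR : 0 < R) (hRL : R ≤ L) (o : Site L) (c : ℕ × ℕ) :
    (univ.filter fun τ : Site L => c ∈ touch r R o τ).card ≤ (2 * R) ^ 2 * r ^ 2 := by
  have hsub : (univ.filter fun τ : Site L => c ∈ touch r R o τ) ⊆
      ((univ.filter fun u : Site L => cell R o u = c) ×ˢ (univ : Finset (Box r))).image
        fun x => (back x.1 x.2 : Site L) := by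
    intro τ hτ
    obtain ⟨p, _, hp⟩ := mem_image.1 (mem_filter.1 hτ).2
    refine mem_image.2 ⟨(boxPos L r τ p, p), ?_, (back_eq_iff _ _ _).2 rfl⟩
    exact mem_product.2 ⟨mem_filter.2 ⟨mem_univ _, hp⟩, mem_univ _⟩
  calc _ ≤ _ := card_le_card hsub
    _ ≤ _ := card_image_le
    _ = _ := card_product _ _
    _ ≤ (2 * R) ^ 2 * r ^ 2 := by
      refine Nat.mul_le_mul (card_cell_le R hR hRL o c) (le_of_eq ?_)
      simp [Box, sq]

/-! ### Tasks and visibility -/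

/-- The tasks: pairs of a cell and the start of one of its slices. -/
abbrev Task (L R : ℕ) (𝒟 : Finset ((ℕ × ℕ) × ℕ)) : Type :=
  {x : (ℕ × ℕ) × ℕ // x ∈ (grid L R ×ˢ ({0} : Finset ℕ)) ∪ 𝒟}

theorem card_task_le (L R : ℕ) (𝒟 : Finset ((ℕ × ℕ) × ℕ)) (hcard : (L / R) ^ 2 + 𝒟.card ≤ L) :
    Fintype.card (Task L R 𝒟) ≤ L := by
  rw [Fintype.card_coe]
  refine (card_union_le _ _).trans (le_trans (le_of_eq ?_) hcard)
  rw [card_product, grid, card_product, card_range, card_singleton]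
  ring

theorem mem_cuts {𝒟 : Finset ((ℕ × ℕ) × ℕ)} {c : ℕ × ℕ} {s : ℕ} :
    s ∈ cuts 𝒟 c ↔ (c, s) ∈ 𝒟 := by
  unfold cuts
  simp only [mem_image, mem_filter]
  constructor
  · rintro ⟨x, ⟨hx, rfl⟩, rfl⟩
    exact hx
  · intro h
    exact ⟨(c, s), ⟨h, rfl⟩, rfl⟩

theorem task_mem {R : ℕ} (𝒟 : Finset ((ℕ × ℕ) × ℕ)) {c : ℕ × ℕ} (hc : c ∈ grid L R) (t : ℕ) :
    (c, sst (cuts 𝒟 c) t) ∈ (grid L R ×ˢ ({0} : Finset ℕ)) ∪ 𝒟 := by
  rcases sst_zero_or_mem (cuts 𝒟 c) t with h | h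
  · refine mem_union_left _ (mem_product.2 ⟨hc, ?_⟩)
    rw [mem_singleton]
    exact h
  · exact mem_union_right _ (mem_cuts.1 h)

/-- The task `x` sees the bond `(t, v)` of the site `v` between the layers `t - 1` and `t`. -/
def Vis1 (n R : ℕ) (o : Site L) (𝒟 : Finset ((ℕ × ℕ) × ℕ)) (x : (ℕ × ℕ) × ℕ)
    (a : Fin (n + 1) × Site L) : Prop :=
  cell R o a.2 = x.1 ∧ (((a.1 : ℕ) < n ∧ sst (cuts 𝒟 x.1) a.1 = x.2) ∨
    (0 < (a.1 : ℕ) ∧ sst (cuts 𝒟 x.1) ((a.1 : ℕ) - 1) = x.2))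

instance (n R : ℕ) (o : Site L) (𝒟 : Finset ((ℕ × ℕ) × ℕ)) (x : (ℕ × ℕ) × ℕ)
    (a : Fin (n + 1) × Site L) : Decidable (Vis1 n R o 𝒟 x a) := by
  unfold Vis1; infer_instance

/-- The shared bonds. -/
def Sh1 (n R : ℕ) (o : Site L) (𝒟 : Finset ((ℕ × ℕ) × ℕ)) (a : Fin (n + 1) × Site L) : Prop :=
  (a.1 : ℕ) = 0 ∨ (a.1 : ℕ) = n ∨ (a.1 : ℕ) ∈ cuts 𝒟 (cell R o a.2)

instance (n R : ℕ) (o : Site L) (𝒟 : Finset ((ℕ × ℕ) × ℕ)) (a : Fin (n + 1) × Site L) :
    Decidable (Sh1 n R o 𝒟 a) := by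
  unfold Sh1; infer_instance

/-- The task `x` sees the letter `(t, τ)`. -/
def Vis2 (n r R : ℕ) (o : Site L) (𝒟 : Finset ((ℕ × ℕ) × ℕ)) (x : (ℕ × ℕ) × ℕ)
    (a : Fin n × Site L) : Prop :=
  sst (cuts 𝒟 x.1) a.1 = x.2 ∧ x.1 ∈ touch r R o a.2

instance (n r R : ℕ) (o : Site L) (𝒟 : Finset ((ℕ × ℕ) × ℕ)) (x : (ℕ × ℕ) × ℕ)
    (a : Fin n × Site L) : Decidable (Vis2 n r R o 𝒟 x a) := by
  unfold Vis2; infer_instance

/-- The shared letters. -/
def Sh2 (n r R : ℕ) (o : Site L) (a : Fin n × Site L) : Prop := Crossing r R o a.2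

instance (n r R : ℕ) (o : Site L) (a : Fin n × Site L) : Decidable (Sh2 n r R o a) := by
  unfold Sh2; infer_instance

theorem exists_vis1 {n R : ℕ} (hn : 0 < n) (hR : 0 < R) (hRL : R ≤ L) (o : Site L)
    (𝒟 : Finset ((ℕ × ℕ) × ℕ)) (a : Fin (n + 1) × Site L) :
    ∃ u : Task L R 𝒟, Vis1 n R o 𝒟 u.1 a := by
  have hc := cell_mem_grid hR hRL o a.2
  by_cases h : (a.1 : ℕ) < n
  · exact ⟨⟨_, task_mem 𝒟 hc a.1⟩, rfl, .inl ⟨h, rfl⟩⟩
  · exact ⟨⟨_, task_mem 𝒟 hc ((a.1 : ℕ) - 1)⟩, rfl, .inr ⟨by omega, rfl⟩⟩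

theorem exists_vis2 {n R : ℕ} (hr : 0 < r) (hR : 0 < R) (hRL : R ≤ L) (o : Site L)
    (𝒟 : Finset ((ℕ × ℕ) × ℕ)) (a : Fin n × Site L) :
    ∃ u : Task L R 𝒟, Vis2 n r R o 𝒟 u.1 a :=
  ⟨⟨_, task_mem 𝒟 (cell_mem_grid hR hRL o a.2) a.1⟩, rfl, cell_mem_touch_self hr o a.2⟩

theorem vis1_unique {n R : ℕ} (o : Site L) (𝒟 : Finset ((ℕ × ℕ) × ℕ)) (a : Fin (n + 1) × Site L)
    (hs : ¬ Sh1 n R o 𝒟 a) (x : (ℕ × ℕ) × ℕ) (h : Vis1 n R o 𝒟 x a) :
    x = (cell R o a.2, sst (cuts 𝒟 (cell R o a.2)) a.1) := by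
  obtain ⟨c, s⟩ := x
  obtain ⟨h1, h2⟩ := h
  simp only at h1 h2
  subst h1
  unfold Sh1 at hs
  push Not at hs
  obtain ⟨hs1, hs2, hs3⟩ := hs
  rcases h2 with h2 | h2
  · rw [h2.2]
  · obtain ⟨m, hm⟩ : ∃ m, (a.1 : ℕ) = m + 1 := ⟨(a.1 : ℕ) - 1, by omega⟩
    rw [hm] at hs3 ⊢
    rw [sst_succ_of_not_mem hs3, ← h2.2, hm]
    simp

theorem vis2_unique {n R : ℕ} (o : Site L) (𝒟 : Finset ((ℕ × ℕ) × ℕ)) (a : Fin n × Site L)
    (hs : ¬ Sh2 n r R o a) (x y : (ℕ × ℕ) × ℕ) (h : Vis2 n r R o 𝒟 x a) (h' : Vis2 n r R o 𝒟 y a) :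
    x = y := by
  obtain ⟨c, s⟩ := x
  obtain ⟨c', s'⟩ := y
  obtain ⟨h1, h2⟩ := h
  obtain ⟨h1', h2'⟩ := h'
  simp only at h1 h2 h1' h2'
  have : c = c' := by
    unfold Sh2 Crossing at hs
    exact Finset.card_le_one.1 (not_lt.1 hs) c h2 c' h2'
  subst this
  rw [← h1, ← h1']

/-! ### The tensors of the tasks -/

/-- The condition of the task `x`. -/
def Cond (n B : ℕ) (R : ℕ) (o : Site L) (𝒟 : Finset ((ℕ × ℕ) × ℕ)) (x : (ℕ × ℕ) × ℕ)
    (ω : Fin n → Site L → Opn d r) : Prop :=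
  ∀ t, sst (cuts 𝒟 x.1) t = x.2 → t + 1 < n →
    (t + 1 ∈ cuts 𝒟 x.1 ↔ B ≤ ∑ y ∈ Icc x.2 t, cload R o x.1 ω y)

open scoped Classical in
/-- The tensor of the task `x`. -/
noncomputable def gg {n : ℕ} (B R : ℕ) (o : Site L) (𝒟 : Finset ((ℕ × ℕ) × ℕ))
    (w : Fin n → Site L → Opn d r → ℂ) (x : (ℕ × ℕ) × ℕ) (p : Fin (n + 1) × Site L → Fin d)
    (ω : Fin n × Site L → Opn d r) : ℂ :=
  (if Cond n B R o 𝒟 x (fun t v => ω (t, v)) then 1 else 0) *
    ∏ a ∈ univ.filter (fun a : Fin n × Site L =>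
      (cell R o a.2, sst (cuts 𝒟 (cell R o a.2)) a.1) = x),
      (w a.1 a.2 (ω a) * lay (fun τ => ω (a.1, τ)) a.2 (p (a.1.castSucc, a.2)) (p (a.1.succ, a.2)))

theorem cload_congr {n R : ℕ} (o : Site L) (c : ℕ × ℕ) {ω ω' : Fin n → Site L → Opn d r} {t : ℕ}
    (h : ∀ t' : Fin n, (t' : ℕ) = t → ∀ τ, c ∈ touch r R o τ → ω t' τ = ω' t' τ) :
    cload R o c ω t = cload R o c ω' t := by
  unfold cload
  refine sum_congr rfl fun t' _ => ?_
  by_cases ht : (t' : ℕ) = t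
  · rw [if_pos ht, if_pos ht]
    congr 1
    refine filter_congr fun τ _ => ?_
    constructor
    · rintro ⟨h1, h2, h3⟩
      exact ⟨h1, h2, by rwa [← h t' ht τ h1]⟩
    · rintro ⟨h1, h2, h3⟩
      exact ⟨h1, h2, by rwa [h t' ht τ h1]⟩
  · rw [if_neg ht, if_neg ht]

theorem gg_congr {n : ℕ} (hr : 0 < r) (B R : ℕ) (o : Site L) (𝒟 : Finset ((ℕ × ℕ) × ℕ))
    (w : Fin n → Site L → Opn d r → ℂ) (x : (ℕ × ℕ) × ℕ) (p p' : Fin (n + 1) × Site L → Fin d)
    (ω ω' : Fin n × Site L → Opn d r) (hp : ∀ a, Vis1 n R o 𝒟 x a → p a = p' a)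
    (hω : ∀ a, Vis2 n r R o 𝒟 x a → ω a = ω' a) :
    gg B R o 𝒟 w x p ω = gg B R o 𝒟 w x p' ω' := by
  unfold gg
  have h1 : Cond n B R o 𝒟 x (fun t v => ω (t, v)) ↔ Cond n B R o 𝒟 x (fun t v => ω' (t, v)) := by
    unfold Cond
    refine forall_congr' fun t => forall_congr' fun ht => forall_congr' fun ht2 => ?_
    have : ∑ y ∈ Icc x.2 t, cload R o x.1 (fun t v => ω (t, v)) y =
        ∑ y ∈ Icc x.2 t, cload R o x.1 (fun t v => ω' (t, v)) y := by
      refine sum_congr rfl fun y hy => ?_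
      rw [mem_Icc] at hy
      refine cload_congr o x.1 fun t' ht' τ hτ => ?_
      refine hω (t', τ) ⟨?_, hτ⟩
      simp only
      rw [ht']
      exact sst_between ht hy.1 hy.2
    rw [this]
  congr 1
  · by_cases hc : Cond n B R o 𝒟 x (fun t v => ω (t, v))
    · rw [if_pos hc, if_pos (h1.1 hc)]
    · rw [if_neg hc, if_neg (fun h => hc (h1.2 h))]
  · refine prod_congr rfl fun a ha => ?_
    have ha' : (cell R o a.2, sst (cuts 𝒟 (cell R o a.2)) a.1) = x := (mem_filter.1 ha).2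
    subst ha'
    have e1 : ω a = ω' a := hω a ⟨rfl, cell_mem_touch_self hr o a.2⟩
    have e2 : lay (fun τ => ω (a.1, τ)) a.2 = lay (fun τ => ω' (a.1, τ)) a.2 :=
      lay_congr fun τ hτ => hω (a.1, τ) ⟨rfl, cell_mem_touch o τ a.2 hτ⟩
    have e3 : p (a.1.castSucc, a.2) = p' (a.1.castSucc, a.2) :=
      hp _ ⟨rfl, .inl ⟨by simp, by simp⟩⟩
    have e4 : p (a.1.succ, a.2) = p' (a.1.succ, a.2) :=
      hp _ ⟨rfl, .inr ⟨by simp, by simp⟩⟩
    rw [e1, e2, e3, e4]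

/-! ### The labels -/

/-- The shared bonds seen by a task. -/
def SS1 (n R : ℕ) (o : Site L) (𝒟 : Finset ((ℕ × ℕ) × ℕ)) (x : (ℕ × ℕ) × ℕ) :
    Finset (Fin (n + 1) × Site L) :=
  univ.filter fun a => Vis1 n R o 𝒟 x a ∧ Sh1 n R o 𝒟 a

/-- The shared letters seen by a task. -/
def SS2 (n r R : ℕ) (o : Site L) (𝒟 : Finset ((ℕ × ℕ) × ℕ)) (x : (ℕ × ℕ) × ℕ) :
    Finset (Fin n × Site L) :=
  univ.filter fun a => Vis2 n r R o 𝒟 x a ∧ Sh2 n r R o a

theorem card_SS1_le {n R : ℕ} (hR : 0 < R) (hRL : R ≤ L) (o : Site L)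
    (𝒟 : Finset ((ℕ × ℕ) × ℕ)) (x : (ℕ × ℕ) × ℕ) :
    (SS1 n R o 𝒟 x).card ≤ 2 * (2 * R) ^ 2 := by
  classical
  set T1 : Finset (Fin (n + 1)) := univ.filter fun t => (t : ℕ) = x.2 with hT1
  set T2 : Finset (Fin (n + 1)) := univ.filter fun t => 0 < (t : ℕ) ∧
    sst (cuts 𝒟 x.1) ((t : ℕ) - 1) = x.2 ∧ ((t : ℕ) = n ∨ (t : ℕ) ∈ cuts 𝒟 x.1) with hT2
  have hc1 : T1.card ≤ 1 := by
    refine Finset.card_le_one.2 fun a ha b hb => ?_
    rw [hT1, mem_filter] at ha hb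
    exact Fin.ext (ha.2.trans hb.2.symm)
  have hc2 : T2.card ≤ 1 := by
    refine Finset.card_le_one.2 fun a ha b hb => ?_
    rw [hT2, mem_filter] at ha hb
    obtain ⟨_, ha1, ha2, ha3⟩ := ha
    obtain ⟨_, hb1, hb2, hb3⟩ := hb
    have key : ∀ a b : Fin (n + 1), 0 < (a : ℕ) → sst (cuts 𝒟 x.1) ((a : ℕ) - 1) = x.2 →
        ((a : ℕ) = n ∨ (a : ℕ) ∈ cuts 𝒟 x.1) → sst (cuts 𝒟 x.1) ((b : ℕ) - 1) = x.2 →
        ¬ (a : ℕ) < b := by
      intro a b ha1 ha2 ha3 hb2 hab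
      have hbn := b.2
      rcases ha3 with ha3 | ha3
      · omega
      · have h1 := le_sst ha3 (show (a : ℕ) ≤ (b : ℕ) - 1 by omega)
        rw [hb2, ← ha2] at h1
        have h2 := sst_le (cuts 𝒟 x.1) ((a : ℕ) - 1)
        omega
    have k1 := key a b ha1 ha2 ha3 hb2
    have k2 := key b a hb1 hb2 hb3 ha2
    exact Fin.ext (by omega)
  have hsub : SS1 n R o 𝒟 x ⊆ (T1 ∪ T2) ×ˢ (univ.filter fun u : Site L => cell R o u = x.1) := by
    intro a ha
    obtain ⟨_, ⟨h1, h2⟩, h3⟩ := mem_filter.1 ha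
    refine mem_product.2 ⟨?_, mem_filter.2 ⟨mem_univ _, h1⟩⟩
    unfold Sh1 at h3
    rw [h1] at h3
    rw [mem_union]
    rcases h2 with ⟨h2, h4⟩ | ⟨h2, h4⟩
    · left
      rw [hT1, mem_filter]
      refine ⟨mem_univ _, ?_⟩
      rcases h3 with h3 | h3 | h3
      · have := sst_le (cuts 𝒟 x.1) (a.1 : ℕ)
        omega
      · omega
      · rw [← h4, sst_of_mem h3]
    · right
      rw [hT2, mem_filter]
      refine ⟨mem_univ _, h2, h4, ?_⟩
      rcases h3 with h3 | h3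
      · omega
      · exact h3
  calc _ ≤ _ := card_le_card hsub
    _ = _ := card_product _ _
    _ ≤ 2 * (2 * R) ^ 2 := by
      refine Nat.mul_le_mul ((card_union_le _ _).trans ?_) (card_cell_le R hR hRL o x.1)
      omega

theorem card_SS2_le {n R : ℕ} (hR : 0 < R) (hRL : R ≤ L) (o : Site L)
    (𝒟 : Finset ((ℕ × ℕ) × ℕ)) (x : (ℕ × ℕ) × ℕ) :
    (SS2 n r R o 𝒟 x).card ≤ n * ((2 * R) ^ 2 * r ^ 2) := by
  have hsub : SS2 n r R o 𝒟 x ⊆ (univ : Finset (Fin n)) ×ˢ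
      (univ.filter fun τ : Site L => x.1 ∈ touch r R o τ) := by
    intro a ha
    obtain ⟨_, ⟨_, h1⟩, _⟩ := mem_filter.1 ha
    exact mem_product.2 ⟨mem_univ _, mem_filter.2 ⟨mem_univ _, h1⟩⟩
  calc _ ≤ _ := card_le_card hsub
    _ = _ := card_product _ _
    _ ≤ _ := Nat.mul_le_mul (by simp) (card_touch_filter_le hR hRL o x.1)

open scoped Classical in
/-- The labels of the task `x`. -/
noncomputable def Lab (n B R : ℕ) (o : Site L) (𝒟 : Finset ((ℕ × ℕ) × ℕ)) (d₀ : Fin d)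
    (x : (ℕ × ℕ) × ℕ) :
    Finset ((Fin (n + 1) × Site L → Fin d) × (Fin n × Site L → Opn d r)) :=
  (univ.filter fun P : Fin (n + 1) × Site L → Fin d => ∀ a, a ∉ SS1 n R o 𝒟 x → P a = d₀) ×ˢ
    (univ.filter fun O : Fin n × Site L → Opn d r => (∀ a, a ∉ SS2 n r R o 𝒟 x → O a = none) ∧
      (univ.filter fun a => O a ≠ none).card ≤ B + (2 * R) ^ 2 * r ^ 2)

theorem card_off_le {A : Type} [Fintype A] [DecidableEq A] (S : Finset A) (d₀ : Fin d) :
    (univ.filter fun P : A → Fin d => ∀ a, a ∉ S → P a = d₀).card ≤ d ^ S.card := by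
  have h : (univ.filter fun P : A → Fin d => ∀ a, a ∉ S → P a = d₀).card ≤
      (univ : Finset (S → Fin d)).card := by
    refine Finset.card_le_card_of_injOn (fun P a => P a) (fun _ _ => mem_univ _) ?_
    intro P hP Q hQ hPQ
    simp only [coe_filter, mem_univ, true_and, Set.mem_ofPred_eq] at hP hQ
    funext a
    by_cases ha : a ∈ S
    · exact congrFun hPQ ⟨a, ha⟩
    · rw [hP a ha, hQ a ha]
  refine h.trans (le_of_eq ?_)
  rw [card_univ, Fintype.card_fun, Fintype.card_coe, Fintype.card_fin]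

theorem card_Lab_le {n B R : ℕ} (hd : 0 < d) (hR : 0 < R) (hRL : R ≤ L) (o : Site L)
    (𝒟 : Finset ((ℕ × ℕ) × ℕ)) (d₀ : Fin d) (x : (ℕ × ℕ) × ℕ) :
    (Lab (r := r) n B R o 𝒟 d₀ x).card ≤ labelSize d r R B n := by
  classical
  unfold Lab labelSize
  rw [card_product]
  refine Nat.mul_le_mul ?_ ?_
  · refine (card_off_le _ _).trans ?_
    exact Nat.pow_le_pow_right hd (card_SS1_le hR hRL o 𝒟 x)
  · refine le_trans (le_of_eq ?_) ((card_sparse_le (P := LConf d r × LConf d r) (SS2 n r R o 𝒟 x)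
      (B + (2 * R) ^ 2 * r ^ 2)).trans
      (Nat.pow_le_pow_left ?_ _))
    · congr 1
    · refine Nat.add_le_add_left ?_ 1
      refine Nat.mul_le_mul (card_SS2_le hR hRL o 𝒟 x) (le_of_eq ?_)
      simp [LConf, Box]

/-- The number of letters in a slice, when the condition of the task holds. -/
theorem card_letters_le {n B R : ℕ} (hR : 0 < R) (hRL : R ≤ L) (o : Site L)
    (𝒟 : Finset ((ℕ × ℕ) × ℕ)) (x : (ℕ × ℕ) × ℕ) (ω : Fin n → Site L → Opn d r)
    (hc : Cond n B R o 𝒟 x ω) :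
    ((SS2 n r R o 𝒟 x).filter fun a => ω a.1 a.2 ≠ none).card ≤ B + (2 * R) ^ 2 * r ^ 2 := by
  classical
  -- the slice
  set I : Finset ℕ := (range n).filter fun t => sst (cuts 𝒟 x.1) t = x.2 with hI
  have h1 : ((SS2 n r R o 𝒟 x).filter fun a => ω a.1 a.2 ≠ none).card ≤
      ∑ t ∈ I, cload R o x.1 ω t := by
    have e1 : ∀ t ∈ I, cload R o x.1 ω t = ∑ t' : Fin n, if (t' : ℕ) = t then
        (univ.filter fun τ => x.1 ∈ touch r R o τ ∧ Crossing r R o τ ∧ ω t' τ ≠ none).card else 0 :=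
      fun t _ => rfl
    rw [sum_congr rfl e1, sum_comm]
    have e2 : ∀ t' : Fin n, (∑ t ∈ I, if (t' : ℕ) = t then
        (univ.filter fun τ => x.1 ∈ touch r R o τ ∧ Crossing r R o τ ∧ ω t' τ ≠ none).card else 0) =
        if sst (cuts 𝒟 x.1) t' = x.2 then
        (univ.filter fun τ => x.1 ∈ touch r R o τ ∧ Crossing r R o τ ∧ ω t' τ ≠ none).card
        else 0 := by
      intro t'
      rw [Finset.sum_ite_eq]
      have : (t' : ℕ) ∈ I ↔ sst (cuts 𝒟 x.1) t' = x.2 := by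
        rw [hI, mem_filter, mem_range]
        exact ⟨fun h => h.2, fun h => ⟨t'.2, h⟩⟩
      by_cases h : sst (cuts 𝒟 x.1) t' = x.2
      · rw [if_pos h, if_pos (this.2 h)]
      · rw [if_neg h, if_neg (fun h' => h (this.1 h'))]
    rw [sum_congr rfl fun t' _ => e2 t']
    have e3 : ((SS2 n r R o 𝒟 x).filter fun a => ω a.1 a.2 ≠ none) =
        (univ : Finset (Fin n)).biUnion fun t' => if sst (cuts 𝒟 x.1) t' = x.2 then
          (univ.filter fun τ => x.1 ∈ touch r R o τ ∧ Crossing r R o τ ∧ ω t' τ ≠ none).image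
            (fun τ => (t', τ)) else ∅ := by
      ext a
      rw [mem_filter, mem_biUnion]
      constructor
      · rintro ⟨h0, h4⟩
        obtain ⟨_, ⟨h1, h2⟩, h3⟩ := mem_filter.1 h0
        refine ⟨a.1, mem_univ _, ?_⟩
        rw [if_pos h1]
        exact mem_image.2 ⟨a.2, mem_filter.2 ⟨mem_univ _, h2, h3, h4⟩, rfl⟩
      · rintro ⟨t', _, h⟩
        by_cases h1 : sst (cuts 𝒟 x.1) t' = x.2
        · rw [if_pos h1] at h
          obtain ⟨τ, hτ, rfl⟩ := mem_image.1 h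
          obtain ⟨_, h2, h3, h4⟩ := mem_filter.1 hτ
          exact ⟨mem_filter.2 ⟨mem_univ _, ⟨h1, h2⟩, h3⟩, h4⟩
        · rw [if_neg h1] at h
          exact absurd h (notMem_empty _)
    rw [e3]
    refine card_biUnion_le.trans (sum_le_sum fun t' _ => ?_)
    by_cases h1 : sst (cuts 𝒟 x.1) t' = x.2
    · rw [if_pos h1, if_pos h1]
      exact card_image_le
    · rw [if_neg h1, if_neg h1, card_empty]
  refine h1.trans ?_
  rcases I.eq_empty_or_nonempty with hI0 | hI0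
  · rw [hI0, sum_empty]
    exact Nat.zero_le _
  · set m := I.max' hI0 with hm
    have hmI : m ∈ I := I.max'_mem hI0
    have hmI' := hmI
    rw [hI, mem_filter, mem_range] at hmI'
    have hx : x.2 ≤ m := hmI'.2 ▸ sst_le _ _
    rw [← Finset.sum_erase_add _ _ hmI]
    refine Nat.add_le_add ?_ ?_
    · rcases Nat.eq_or_lt_of_le hx with hx1 | hx1
      · have : I.erase m = ∅ := by
          rw [Finset.eq_empty_iff_forall_notMem]
          intro t ht
          rw [mem_erase] at ht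
          have h2 := I.le_max' t ht.2
          have h3 := ht.2
          rw [hI, mem_filter] at h3
          have h4 := sst_le (cuts 𝒟 x.1) t
          rw [h3.2] at h4
          rw [← hm] at h2
          exact ht.1 (by omega)
        rw [this, sum_empty]
        exact Nat.zero_le _
      · have h2 := (hc (m - 1) (sst_between hmI'.2 (by omega) (by omega)) (by omega)).not
        have h3 : m - 1 + 1 = m := by omega
        rw [h3] at h2
        have h4 : m ∉ cuts 𝒟 x.1 := by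
          intro h
          have := sst_of_mem h
          rw [hmI'.2] at this
          omega
        have h5 := not_le.1 (h2.1 h4)
        refine le_trans (Finset.sum_le_sum_of_subset ?_) h5.le
        intro t ht
        rw [mem_erase] at ht
        have h6 := I.le_max' t ht.2
        have h7 := ht.2
        rw [hI, mem_filter] at h7
        have h8 := sst_le (cuts 𝒟 x.1) t
        rw [h7.2] at h8
        rw [← hm] at h6
        have := ht.1
        rw [mem_Icc]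
        exact ⟨h8, by omega⟩
    · unfold cload
      have : ∀ t' : Fin n, t' ≠ ⟨m, hmI'.1⟩ → ¬ (t' : ℕ) = m := by
        intro t' h h'
        exact h (Fin.ext h')
      rw [Finset.sum_eq_single (⟨m, hmI'.1⟩ : Fin n) (fun t' _ h => if_neg (this t' h))
        (fun h => absurd (mem_univ _) h), if_pos rfl]
      refine le_trans (card_le_card ?_) (card_touch_filter_le (r := r) hR hRL o x.1)
      intro τ hτ
      exact mem_filter.2 ⟨mem_univ _, (mem_filter.1 hτ).2.1⟩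

/-! ### The product over the tasks -/

theorem forall_cond_iff {n B R : ℕ} (o : Site L) (𝒟 : Finset ((ℕ × ℕ) × ℕ))
    (h𝒟 : 𝒟 ⊆ grid L R ×ˢ Ico 1 n) (ω : Fin n → Site L → Opn d r) :
    (∀ u : Task L R 𝒟, Cond n B R o 𝒟 u.1 ω) ↔
      ∀ c ∈ grid L R, Greedy n B (cload R o c ω) (cuts 𝒟 c) := by
  constructor
  · intro h c hc
    refine ⟨fun s hs => ?_, fun t ht => ?_⟩
    · exact (mem_product.1 (h𝒟 (mem_cuts.1 hs))).2
    · exact h ⟨_, task_mem 𝒟 hc t⟩ t rfl ht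
  · rintro h ⟨⟨c, s⟩, hu⟩ t hs ht
    have hc : c ∈ grid L R := by
      rcases mem_union.1 hu with h1 | h1
      · exact (mem_product.1 h1).1
      · exact (mem_product.1 (h𝒟 h1)).1
    simp only at hs ⊢
    have := (h c hc).2 t ht
    rw [hs] at this
    exact this

open scoped Classical in
theorem prod_gg {n B R : ℕ} (hR : 0 < R) (hRL : R ≤ L) (o : Site L) (𝒟 : Finset ((ℕ × ℕ) × ℕ))
    (h𝒟 : 𝒟 ⊆ grid L R ×ˢ Ico 1 n) (w : Fin n → Site L → Opn d r → ℂ)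
    (p : Fin (n + 1) × Site L → Fin d) (ω : Fin n × Site L → Opn d r) :
    ∏ u : Task L R 𝒟, gg B R o 𝒟 w u.1 p ω =
      (if ∀ c ∈ grid L R, Greedy n B (cload R o c (fun t v => ω (t, v))) (cuts 𝒟 c) then 1 else 0) *
      ∏ a : Fin n × Site L, (w a.1 a.2 (ω a) *
        lay (fun τ => ω (a.1, τ)) a.2 (p (a.1.castSucc, a.2)) (p (a.1.succ, a.2))) := by
  unfold gg
  rw [Finset.prod_mul_distrib]
  congr 1
  · have key := forall_cond_iff (B := B) o 𝒟 h𝒟 (fun t v => ω (t, v))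
    by_cases h : ∀ u : Task L R 𝒟, Cond n B R o 𝒟 u.1 (fun t v => ω (t, v))
    · rw [if_pos (key.1 h)]
      exact Finset.prod_eq_one fun u _ => if_pos (h u)
    · rw [if_neg fun h' => h (key.2 h')]
      push Not at h
      obtain ⟨u, hu⟩ := h
      exact Finset.prod_eq_zero (mem_univ u) (if_neg hu)
  · rw [← Finset.prod_fiberwise (s := (univ : Finset (Fin n × Site L)))
      (g := fun a => (⟨_, task_mem 𝒟 (cell_mem_grid hR hRL o a.2) a.1⟩ : Task L R 𝒟))]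
    refine prod_congr rfl fun u _ => ?_
    refine prod_congr ?_ fun _ _ => rfl
    ext a
    simp only [mem_filter, mem_univ, true_and, Subtype.ext_iff]

/-- PX9. -/
theorem term_peps {n D₀ : ℕ} (hd : 0 < d) (hr : 0 < r) (hn : 0 < n) (B R : ℕ) (hR : 0 < R)
    (hRL : R ≤ L) (o : Site L) (𝒟 : Finset ((ℕ × ℕ) × ℕ)) (h𝒟 : 𝒟 ⊆ grid L R ×ˢ Ico 1 n)
    (hcard : (L / R) ^ 2 + 𝒟.card ≤ L) (w : Fin n → Site L → Opn d r → ℂ) {Φ₀ : Hil d L}
    (hΦ : IsPEPS D₀ Φ₀) :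
    IsPEPS (D₀ * (labelSize d r R B n * (d ^ L * d ^ L))) (term B R o 𝒟 w Φ₀) := by
  classical
  let d₀ : Fin d := ⟨0, hd⟩
  refine shared_peps (O := Opn d r) (U := Task L R 𝒟) (A₁ := Fin (n + 1) × Site L)
    (A₂ := Fin n × Site L) none d₀ (card_task_le L R 𝒟 hcard)
    (fun u a => Vis1 n R o 𝒟 u.1 a) (fun u a => Vis2 n r R o 𝒟 u.1 a) (Sh1 n R o 𝒟) (Sh2 n r R o)
    (exists_vis1 hn hR hRL o 𝒟) (exists_vis2 hr hR hRL o 𝒟) ?_ ?_
    (fun v => (0, v)) (fun v => (Fin.last n, v)) (fun v => .inl rfl) (fun v => .inr (.inl rfl))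
    (fun u => gg B R o 𝒟 w u.1) ?_ (fun u => Lab n B R o 𝒟 d₀ u.1) ?_ ?_ hΦ _ ?_
  · intro a ha u u' h h'
    exact Subtype.ext ((vis1_unique o 𝒟 a ha _ h).trans (vis1_unique o 𝒟 a ha _ h').symm)
  · intro a ha u u' h h'
    exact Subtype.ext (vis2_unique o 𝒟 a ha _ _ h h')
  · intro u p p' ω ω' hp hω
    exact gg_congr hr B R o 𝒟 w u.1 p p' ω ω' hp hω
  · intro u
    exact card_Lab_le hd hR hRL o 𝒟 d₀ u.1
  · intro u p ω hg
    have hc : Cond n B R o 𝒟 u.1 (fun t v => ω (t, v)) := by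
      by_contra hc
      refine hg ?_
      unfold gg
      rw [if_neg hc, zero_mul]
    unfold Lab
    refine mem_product.2 ⟨mem_filter.2 ⟨mem_univ _, fun a ha => ?_⟩,
      mem_filter.2 ⟨mem_univ _, fun a ha => ?_, ?_⟩⟩
    · refine if_neg fun h => ha ?_
      exact mem_filter.2 ⟨mem_univ _, h⟩
    · refine if_neg fun h => ha ?_
      exact mem_filter.2 ⟨mem_univ _, h⟩
    · refine le_trans (card_le_card ?_) (card_letters_le hR hRL o 𝒟 u.1 _ hc)
      intro a ha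
      obtain ⟨_, ha⟩ := mem_filter.1 ha
      simp only at ha
      by_cases h : Vis2 n r R o 𝒟 u.1 a ∧ Sh2 n r R o a
      · rw [if_pos h] at ha
        exact mem_filter.2 ⟨mem_filter.2 ⟨mem_univ _, h⟩, ha⟩
      · rw [if_neg h] at ha
        exact absurd rfl ha
  · intro s
    rw [Finset.sum_comm]
    refine (Fintype.sum_equiv (Equiv.curry (Fin n) (Site L) (Opn d r)) _ _ fun ω => ?_).symm
    refine Fintype.sum_equiv (Equiv.curry (Fin (n + 1)) (Site L) (Fin d)) _ _ fun p => ?_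
    rw [prod_gg hR hRL o 𝒟 h𝒟 w p ω]
    have h0 : (∀ v, p (0, v) = s v) ↔ (Equiv.curry (Fin (n + 1)) (Site L) (Fin d)) p 0 = s := by
      constructor
      · intro h
        funext v
        exact h v
      · intro h v
        exact congrFun h v
    by_cases h1 : ∀ v, p (0, v) = s v
    · rw [if_pos h1]
      by_cases h2 : ∀ c ∈ grid L R, Greedy n B (cload R o c (fun t v => ω (t, v))) (cuts 𝒟 c)
      · rw [if_pos h2, one_mul, if_pos ⟨h0.1 h1, h2⟩, Fintype.prod_prod_type]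
        simp_rw [Finset.prod_mul_distrib]
        exact mul_comm _ _
      · rw [if_neg h2, zero_mul, mul_zero, if_neg fun h => h2 h.2]
    · rw [if_neg h1, if_neg fun h => h1 (h0.2 h.1)]

end Pool.Agent.PepsX
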