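import Pool.Agent.PepsX.Basic

/-!
# Chebyshev filter for a gapped ground state
-/

open Finset
open scoped InnerProductSpace

set_option autoImplicit false
set_option linter.unusedSectionVars false
set_option linter.deprecated false

namespace Pool.Agent.PepsX

open Pool.Agent.PEPS953

open Polynomial in
lemma cheb_growth (x : ℝ) (hx : 0 ≤ x) (q : ℕ) :
    1 + (q : ℝ) ^ 2 * x ≤ (Chebyshev.T ℝ (q : ℤ)).eval (1 + x) ∧
      (Chebyshev.T ℝ (q : ℤ)).eval (1 + x) + (2 * q + 1) * x ≤
        (Chebyshev.T ℝ ((q : ℤ) + 1)).eval (1 + x) := by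
  induction q with
  | zero =>
    constructor
    · simp
    · simp
  | succ q ih =>
    obtain ⟨h1, h2⟩ := ih
    have h3 : (Chebyshev.T ℝ (((q + 1 : ℕ) : ℤ) + 1)).eval (1 + x) =
        2 * (1 + x) * (Chebyshev.T ℝ ((q : ℤ) + 1)).eval (1 + x) -
          (Chebyshev.T ℝ (q : ℤ)).eval (1 + x) := by
      have : (((q + 1 : ℕ) : ℤ) + 1) = (q : ℤ) + 2 := by push_cast; ring
      rw [this, Chebyshev.T_add_two]
      simp
    have h4 : (1 : ℝ) ≤ (Chebyshev.T ℝ ((q : ℤ) + 1)).eval (1 + x) :=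
      Chebyshev.one_le_eval_T_real _ (by linarith)
    push_cast at h3 ⊢
    refine ⟨by nlinarith, ?_⟩
    rw [h3]
    nlinarith

lemma aeval_eigen {V : Type*} [NormedAddCommGroup V] [NormedSpace ℂ V] (H : V →L[ℂ] V) (μ : ℂ)
    (v : V) (hv : H v = μ • v) (P : Polynomial ℂ) : (Polynomial.aeval H P) v = P.eval μ • v := by
  induction P using Polynomial.induction_on' with
  | add p q hp hq =>
    rw [map_add, ContinuousLinearMap.add_apply, hp, hq, Polynomial.eval_add, add_smul]
  | monomial n a =>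
    rw [Polynomial.aeval_monomial, Polynomial.eval_monomial]
    have h : ∀ k : ℕ, (H ^ k) v = μ ^ k • v := by
      intro k
      induction k with
      | zero => simp
      | succ k ih =>
        rw [pow_succ', ContinuousLinearMap.mul_apply, ih, map_smul, hv, smul_smul, pow_succ]
    rw [ContinuousLinearMap.mul_apply, h, map_smul, ContinuousLinearMap.algebraMap_apply,
      smul_smul, mul_comm]

/-- PX1. -/
theorem cheb_filter {V : Type*} [NormedAddCommGroup V] [InnerProductSpace ℂ V]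
    [FiniteDimensional ℂ V] {H : V →L[ℂ] V} {E Δ : ℝ} {Ψ : V} (hgs : IsGappedGS H E Δ Ψ)
    (hH : (H : V →ₗ[ℂ] V).IsSymmetric) (hΔ : 0 < Δ) (q : ℕ) (hq : 0 < q)
    (hqH : 2 * ‖H‖ ≤ (q : ℝ) ^ 2 * Δ) (N : ℕ) :
    ∃ P : Polynomial ℂ, P.natDegree ≤ N * q ∧
      ∀ φ : V, ‖(Polynomial.aeval H P) φ - ⟪Ψ, φ⟫_ℂ • Ψ‖ ≤ Real.exp (-(N : ℝ)) * ‖φ‖ := by
  have hq' : (0 : ℝ) < (q : ℝ) ^ 2 := by positivity
  set η : ℝ := 2 / (q : ℝ) ^ 2 with hη
  have hη0 : 0 < η := by positivity
  have hqη : (q : ℝ) ^ 2 * η = 2 := by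
    rw [hη]
    field_simp
  set Tq : Polynomial ℝ := Polynomial.Chebyshev.T ℝ (q : ℤ) with hTq
  have hT3 : 3 ≤ Tq.eval (1 + η) := by
    have := (cheb_growth η hη0.le q).1
    rw [hqη] at this
    linarith
  set lin : Polynomial ℝ := Polynomial.C (1 + η + E * η / Δ) - Polynomial.C (η / Δ) * Polynomial.X
    with hlin
  have hlin_eval : ∀ t : ℝ, lin.eval t = 1 + η - (t - E) * η / Δ := by
    intro t
    rw [hlin]
    simp only [Polynomial.eval_sub, Polynomial.eval_C, Polynomial.eval_mul, Polynomial.eval_X]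
    ring
  have hlin_deg : lin.natDegree ≤ 1 := by
    rw [hlin]
    compute_degree
  set p : Polynomial ℝ := Polynomial.C (Tq.eval (1 + η))⁻¹ * Tq.comp lin with hp
  have hp_eval : ∀ t : ℝ, p.eval t = (Tq.eval (1 + η))⁻¹ * Tq.eval (1 + η - (t - E) * η / Δ) := by
    intro t
    rw [hp, Polynomial.eval_mul, Polynomial.eval_C, Polynomial.eval_comp, hlin_eval]
  have hp_deg : p.natDegree ≤ q := by
    rw [hp]
    refine (Polynomial.natDegree_C_mul_le _ _).trans ?_
    rw [Polynomial.natDegree_comp]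
    have h1 : Tq.natDegree = q := by
      rw [hTq, Polynomial.Chebyshev.natDegree_T]
      rfl
    rw [h1]
    nlinarith
  have hpE : p.eval E = 1 := by
    rw [hp_eval, sub_self, zero_mul, zero_div, sub_zero]
    exact inv_mul_cancel₀ (by linarith)
  have hps : ∀ t : ℝ, E + Δ ≤ t → t ≤ E + (q : ℝ) ^ 2 * Δ → |p.eval t| ≤ Real.exp (-1) := by
    intro t h1 h2
    rw [hp_eval, abs_mul, abs_inv, abs_of_pos (show 0 < Tq.eval (1 + η) by linarith)]
    have h3 : |Tq.eval (1 + η - (t - E) * η / Δ)| ≤ 1 := by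
      refine Polynomial.Chebyshev.abs_eval_T_real_le_one _ (abs_le.2 ⟨?_, ?_⟩)
      · have : (t - E) * η / Δ ≤ 2 := by
          rw [div_le_iff₀ hΔ, ← hqη]
          nlinarith
        linarith
      · have : η ≤ (t - E) * η / Δ := by
          rw [le_div_iff₀ hΔ]
          nlinarith
        linarith
    have h4 : (Tq.eval (1 + η))⁻¹ ≤ Real.exp (-1) := by
      rw [Real.exp_neg]
      refine inv_anti₀ (Real.exp_pos 1) (le_trans ?_ hT3)
      have := Real.exp_one_lt_d9
      linarith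
    calc (Tq.eval (1 + η))⁻¹ * |Tq.eval (1 + η - (t - E) * η / Δ)|
        ≤ Real.exp (-1) * 1 := mul_le_mul h4 h3 (abs_nonneg _) (Real.exp_pos _).le
      _ = Real.exp (-1) := mul_one _
  refine ⟨(p ^ N).map (algebraMap ℝ ℂ), ?_, fun φ => ?_⟩
  · refine Polynomial.natDegree_map_le.trans (Polynomial.natDegree_pow_le.trans ?_)
    exact Nat.mul_le_mul_left _ hp_deg
  have hrw : (Polynomial.aeval H ((p ^ N).map (algebraMap ℝ ℂ))) φ - ⟪Ψ, φ⟫_ℂ • Ψ =
      (Polynomial.aeval H ((p ^ N).map (algebraMap ℝ ℂ)) - proj Ψ) φ := rfl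
  rw [hrw]
  set b := hH.eigenvectorBasis rfl with hb
  set lam := hH.eigenvalues rfl with hlam
  have happ : ∀ i, H (b i) = (lam i : ℂ) • b i := fun i => hH.apply_eigenvectorBasis rfl i
  have hbn : ∀ i, ‖b i‖ = 1 := fun i => b.orthonormal.1 i
  have hb0 : ∀ i, b i ≠ 0 := fun i => by rw [← norm_ne_zero_iff, hbn i]; norm_num
  have hG : ∀ i, (Polynomial.aeval H ((p ^ N).map (algebraMap ℝ ℂ))) (b i) =
      (((p.eval (lam i)) ^ N : ℝ) : ℂ) • b i := by
    intro i
    rw [aeval_eigen H _ _ (happ i), Polynomial.eval_map, ← Polynomial.eval_pow]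
    congr 1
    exact Polynomial.eval₂_at_apply (algebraMap ℝ ℂ) (lam i)
  refine norm_le_of_diag b _ (fun i => if lam i = E then 0 else (((p.eval (lam i)) ^ N : ℝ) : ℂ))
    ?_ _ (Real.exp_pos _).le ?_ φ
  · intro i
    rw [ContinuousLinearMap.sub_apply, hG, proj_apply]
    rcases hgs.gap (lam i) (b i) (hb0 i) (happ i) with h | h
    · obtain ⟨hl, c, hc⟩ := h
      rw [if_pos hl, hl, zero_smul, hpE, one_pow]
      have h3 : ⟪Ψ, b i⟫_ℂ • Ψ = b i := by
        rw [hc, inner_smul_right, inner_self_eq_norm_sq_to_K, hgs.norm_eq]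
        simp
      rw [h3]
      simp
    · have hne : lam i ≠ E := by linarith
      rw [if_neg hne]
      have h3 : ⟪Ψ, b i⟫_ℂ = 0 := by
        have h4 : ⟪H Ψ, b i⟫_ℂ = ⟪Ψ, H (b i)⟫_ℂ := hH Ψ (b i)
        rw [hgs.eigen, happ, inner_smul_left, inner_smul_right] at h4
        rw [Complex.conj_ofReal] at h4
        have h5 : ((E : ℂ) - lam i) * ⟪Ψ, b i⟫_ℂ = 0 := by rw [sub_mul, h4, sub_self]
        rcases mul_eq_zero.mp h5 with h6 | h6
        · exfalso
          apply hne
          have : (E : ℂ) = lam i := sub_eq_zero.mp h6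
          exact_mod_cast this.symm
        · exact h6
      rw [h3, zero_smul, sub_zero]
  · intro i
    by_cases hl : lam i = E
    · rw [if_pos hl, norm_zero]
      exact (Real.exp_pos _).le
    · rw [if_neg hl]
      rcases hgs.gap (lam i) (b i) (hb0 i) (happ i) with h | h
      · exact absurd h.1 hl
      · have hlH : |lam i| ≤ ‖H‖ := by
          have h := H.le_opNorm (b i)
          rw [happ, norm_smul, hbn, mul_one, mul_one] at h
          simpa using h
        have hl' := abs_le.mp hlH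
        have hE' := abs_le.mp hgs.abs_E_le
        rw [Complex.norm_real, Real.norm_eq_abs, abs_pow]
        have h1 := hps (lam i) h (by linarith)
        calc |p.eval (lam i)| ^ N ≤ Real.exp (-1) ^ N := pow_le_pow_left₀ (abs_nonneg _) h1 N
          _ = Real.exp (-(N : ℝ)) := by
            rw [← Real.exp_nat_mul]
            congr 1
            ring

end Pool.Agent.PepsX
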