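import Mathlib

/-!
# Greedy cuts (PX5) and functions of additive statistics (PX6)
-/

set_option autoImplicit false

namespace Pool.Agent.PepsX

open Finset

/-- The start of the slice of `D` containing `t`. -/
def sst (D : Finset ℕ) (t : ℕ) : ℕ := (D.filter (· ≤ t)).sup id

/-- `D` is the set of greedy cuts in `1, …, n - 1` of the sequence `l` with threshold `B`: `t + 1`
is a cut iff the sum over the current slice up to `t` reaches `B`. -/
def Greedy (n B : ℕ) (l : ℕ → ℕ) (D : Finset ℕ) : Prop :=
  D ⊆ Ico 1 n ∧ ∀ t, t + 1 < n → (t + 1 ∈ D ↔ B ≤ ∑ x ∈ Icc (sst D t) t, l x)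

theorem sst_le (D : Finset ℕ) (t : ℕ) : sst D t ≤ t :=
  Finset.sup_le fun _ hx => (mem_filter.1 hx).2

theorem sst_congr {D D' : Finset ℕ} {t : ℕ} (h : ∀ x ≤ t, (x ∈ D ↔ x ∈ D')) : sst D t = sst D' t := by
  unfold sst
  congr 1
  ext x
  simp only [mem_filter]
  exact ⟨fun hx => ⟨(h x hx.2).1 hx.1, hx.2⟩, fun hx => ⟨(h x hx.2).2 hx.1, hx.2⟩⟩

theorem sst_of_mem {D : Finset ℕ} {t : ℕ} (h : t ∈ D) : sst D t = t :=
  le_antisymm (sst_le D t) (Finset.le_sup (f := id) (mem_filter.2 ⟨h, le_rfl⟩))

theorem sst_succ_of_not_mem {D : Finset ℕ} {t : ℕ} (h : t + 1 ∉ D) : sst D (t + 1) = sst D t := by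
  unfold sst
  congr 1
  ext x
  simp only [mem_filter]
  constructor
  · rintro ⟨hx, hx2⟩
    refine ⟨hx, ?_⟩
    rcases Nat.lt_or_ge x (t + 1) with h1 | h1
    · omega
    · exact absurd ((le_antisymm hx2 h1) ▸ hx) h
  · rintro ⟨hx, hx2⟩
    exact ⟨hx, by omega⟩

/-- The greedy cuts up to `k`. -/
def gcut (B : ℕ) (l : ℕ → ℕ) : ℕ → Finset ℕ
  | 0 => ∅
  | k + 1 => if B ≤ ∑ x ∈ Icc (sst (gcut B l k) k) k, l x then insert (k + 1) (gcut B l k)
      else gcut B l k

theorem gcut_le (B : ℕ) (l : ℕ → ℕ) (k : ℕ) : ∀ x ∈ gcut B l k, 1 ≤ x ∧ x ≤ k := by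
  induction k with
  | zero => simp [gcut]
  | succ k ih =>
    intro x hx
    rw [gcut] at hx
    split_ifs at hx
    · rcases mem_insert.1 hx with rfl | hx
      · omega
      · have := ih x hx
        omega
    · have := ih x hx
      omega

theorem mem_gcut (B : ℕ) (l : ℕ → ℕ) (t k : ℕ) (htk : t ≤ k) (x : ℕ) (hx : x ≤ t) :
    x ∈ gcut B l k ↔ x ∈ gcut B l t := by
  induction k, htk using Nat.le_induction with
  | base => rfl
  | succ k hk ih =>
    rw [gcut]
    split_ifs
    · rw [mem_insert, ih]
      constructor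
      · rintro (h | h)
        · omega
        · exact h
      · exact Or.inr
    · exact ih

/-- PX5a. -/
theorem greedy_exists_unique (n B : ℕ) (l : ℕ → ℕ) : ∃! D, Greedy n B l D := by
  refine ⟨gcut B l (n - 1), ⟨?_, ?_⟩, ?_⟩
  · intro x hx
    have := gcut_le B l (n - 1) x hx
    rw [mem_Ico]
    omega
  · intro t ht
    rw [mem_gcut B l (t + 1) (n - 1) (by omega) (t + 1) le_rfl,
      sst_congr (mem_gcut B l t (n - 1) (by omega)), gcut]
    split_ifs with h
    · simp [h]
    · simp only [h, iff_false]
      intro h2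
      have := gcut_le B l t _ h2
      omega
  · rintro D ⟨hD1, hD2⟩
    have key : ∀ t, t < n → (t ∈ D ↔ t ∈ gcut B l (n - 1)) := by
      intro t
      induction t using Nat.strong_induction_on with
      | _ t ih =>
        intro ht
        cases t with
        | zero =>
          constructor
          · intro h
            have := mem_Ico.1 (hD1 h)
            omega
          · intro h
            have := gcut_le B l (n - 1) _ h
            omega
        | succ t =>
          have e : sst D t = sst (gcut B l t) t := by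
            refine sst_congr fun x hx => ?_
            rw [ih x (by omega) (by omega), mem_gcut B l t (n - 1) (by omega) x hx]
          rw [hD2 t ht, mem_gcut B l (t + 1) (n - 1) (by omega) (t + 1) le_rfl, e, gcut]
          split_ifs with h
          · simp [h]
          · simp only [h, false_iff]
            intro h2
            have := gcut_le B l t _ h2
            omega
    ext x
    rcases Nat.lt_or_ge x n with h | h
    · exact key x h
    · constructor
      · intro h1
        have := mem_Ico.1 (hD1 h1)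
        omega
      · intro h1
        have := gcut_le B l (n - 1) _ h1
        omega

/-- PX5b: the number of cuts. -/
theorem greedy_card_le (n B : ℕ) (l : ℕ → ℕ) (D : Finset ℕ) (h : Greedy n B l D) :
    D.card * B ≤ ∑ t ∈ range n, l t := by
  obtain ⟨h1, h2⟩ := h
  have key : ∀ t, t < n → (D.filter (· ≤ t)).card * B ≤ ∑ x ∈ range (sst D t), l x := by
    intro t
    induction t with
    | zero =>
      intro _
      have : D.filter (· ≤ 0) = ∅ := by
        rw [filter_eq_empty_iff]
        intro x hx
        have := mem_Ico.1 (h1 hx)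
        omega
      rw [this]
      simp
    | succ t ih =>
      intro ht
      have ih := ih (by omega)
      by_cases hm : t + 1 ∈ D
      · have e1 : D.filter (· ≤ t + 1) = insert (t + 1) (D.filter (· ≤ t)) := by
          ext x
          simp only [mem_filter, mem_insert]
          constructor
          · rintro ⟨hx, hx2⟩
            rcases Nat.lt_or_ge x (t + 1) with h3 | h3
            · exact Or.inr ⟨hx, by omega⟩
            · exact Or.inl (by omega)
          · rintro (rfl | ⟨hx, hx2⟩)
            · exact ⟨hm, le_rfl⟩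
            · exact ⟨hx, by omega⟩
        rw [e1, card_insert_of_notMem (by simp), sst_of_mem hm]
        have e2 : ∑ x ∈ range (t + 1), l x =
            ∑ x ∈ range (sst D t), l x + ∑ x ∈ Icc (sst D t) t, l x := by
          rw [range_eq_Ico, range_eq_Ico, ← sum_Ico_consecutive _ (Nat.zero_le (sst D t))
            (by have := sst_le D t; omega)]
          rfl
        rw [e2, add_mul, one_mul]
        exact add_le_add ih ((h2 t ht).1 hm)
      · rw [sst_succ_of_not_mem hm]
        refine le_trans (Nat.mul_le_mul_right B (card_le_card ?_)) ih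
        intro x hx
        rw [mem_filter] at hx ⊢
        refine ⟨hx.1, ?_⟩
        rcases Nat.lt_or_ge x (t + 1) with h3 | h3
        · omega
        · exact absurd ((le_antisymm hx.2 h3) ▸ hx.1) hm
  rcases Nat.eq_zero_or_pos n with h0 | h0
  · subst h0
    have : D = ∅ := by
      rw [eq_empty_iff_forall_notMem]
      intro x hx
      have := mem_Ico.1 (h1 hx)
      omega
    rw [this]
    simp
  · have e : D.filter (· ≤ n - 1) = D := by
      rw [filter_eq_self]
      intro x hx
      have := mem_Ico.1 (h1 hx)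
      omega
    have := key (n - 1) (by omega)
    rw [e] at this
    refine this.trans (sum_le_sum_of_subset ?_)
    intro x hx
    rw [mem_range] at hx ⊢
    have := sst_le D (n - 1)
    omega

/-! ## PX6: functions of additive statistics -/

/-- PX6. -/
theorem stat_expand {J : Type*} [Fintype J] [DecidableEq J] (M : ℕ) (hM : 0 < M)
    (f : (J → ℕ) → ℂ) :
    ∃ (a : (J → Fin M) → ℂ) (z : Fin M → ℂ), ∀ A : J → ℕ, (∀ j, A j < M) →
      f A = ∑ θ : J → Fin M, a θ * ∏ j, z (θ j) ^ A j := by
  have _ := hM
  set z : Fin M → ℂ := fun k => ((k : ℕ) : ℂ) with hz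
  have hinj : Function.Injective z := by
    intro k k' h
    have : ((k : ℕ) : ℂ) = ((k' : ℕ) : ℂ) := h
    exact Fin.ext (by exact_mod_cast this)
  set V : Matrix (Fin M) (Fin M) ℂ := Matrix.vandermonde z with hV
  have hdet : IsUnit V.det := isUnit_iff_ne_zero.2 (Matrix.det_vandermonde_ne_zero_iff.2 hinj)
  have hc : ∀ m A : Fin M, ∑ k, V⁻¹ m k * z k ^ (A : ℕ) = if m = A then 1 else 0 := by
    intro m A
    have h1 := congrFun (congrFun (Matrix.nonsing_inv_mul V hdet) m) A
    rw [Matrix.mul_apply, Matrix.one_apply] at h1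
    exact h1
  refine ⟨fun θ => ∑ m : J → Fin M, f (fun j => m j) * ∏ j, V⁻¹ (m j) (θ j), z, fun A hA => ?_⟩
  have h1 : ∀ m : J → Fin M, ∑ θ : J → Fin M, (∏ j, V⁻¹ (m j) (θ j)) * ∏ j, z (θ j) ^ A j =
      if m = fun j => ⟨A j, hA j⟩ then 1 else 0 := by
    intro m
    have h2 : ∑ θ : J → Fin M, (∏ j, V⁻¹ (m j) (θ j)) * ∏ j, z (θ j) ^ A j =
        ∏ j, ∑ k, V⁻¹ (m j) k * z k ^ A j := by
      rw [Finset.prod_univ_sum, Fintype.piFinset_univ]
      exact Finset.sum_congr rfl fun θ _ => (Finset.prod_mul_distrib).symm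
    rw [h2]
    have h3 : ∀ j, ∑ k, V⁻¹ (m j) k * z k ^ A j = if m j = ⟨A j, hA j⟩ then 1 else 0 :=
      fun j => hc (m j) ⟨A j, hA j⟩
    simp only [h3]
    by_cases hm : m = fun j => ⟨A j, hA j⟩
    · rw [if_pos hm]
      exact Finset.prod_eq_one fun j _ => by rw [if_pos (congrFun hm j)]
    · rw [if_neg hm]
      obtain ⟨j, hj⟩ := Function.ne_iff.1 hm
      exact Finset.prod_eq_zero (mem_univ j) (if_neg hj)
  calc f A = ∑ m : J → Fin M, f (fun j => m j) * (if m = fun j => ⟨A j, hA j⟩ then 1 else 0) := by
        rw [Finset.sum_eq_single (fun j => ⟨A j, hA j⟩)]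
        · simp
        · intro m _ hm
          rw [if_neg hm, mul_zero]
        · intro h
          exact absurd (mem_univ _) h
    _ = ∑ m : J → Fin M, ∑ θ : J → Fin M, f (fun j => m j) *
          ((∏ j, V⁻¹ (m j) (θ j)) * ∏ j, z (θ j) ^ A j) := by
        refine Finset.sum_congr rfl fun m _ => ?_
        rw [← h1 m, Finset.mul_sum]
    _ = ∑ θ : J → Fin M, (∑ m : J → Fin M, f (fun j => m j) * ∏ j, V⁻¹ (m j) (θ j)) *
          ∏ j, z (θ j) ^ A j := by
        rw [Finset.sum_comm]
        refine Finset.sum_congr rfl fun θ _ => ?_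
        rw [Finset.sum_mul]
        refine Finset.sum_congr rfl fun m _ => ?_
        ring

end Pool.Agent.PepsX
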