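import Pool.Agent.PepsX.Basic
import Pool.Agent.PepsX.Greedy

/-!
# The terms of the decomposition of a polynomial of the Hamiltonian
-/

open Finset
open scoped InnerProductSpace

set_option autoImplicit false
set_option linter.unusedSectionVars false

namespace Pool.Agent.PepsX

open Pool.Agent.PEPS953

variable {d L r : ℕ} [NeZero L]

/-- The cells (grid of side `R`, offset `o`) met by the box at `τ`. -/
def touch (r R : ℕ) (o τ : Site L) : Finset (ℕ × ℕ) :=
  (univ : Finset (Box r)).image fun p => cell R o (boxPos L r τ p)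

/-- The box at `τ` meets at least two cells. -/
def Crossing (r R : ℕ) (o τ : Site L) : Prop := 1 < (touch r R o τ).card

instance (r R : ℕ) (o τ : Site L) : Decidable (Crossing r R o τ) :=
  inferInstanceAs (Decidable (_ < _))

/-- The crossing load of the cell `c` in the layer `t`: the number of insertions whose box crosses
and meets `c`. -/
def cload {n : ℕ} (R : ℕ) (o : Site L) (c : ℕ × ℕ) (ω : Fin n → Site L → Opn d r) (t : ℕ) : ℕ :=
  ∑ t' : Fin n, if (t' : ℕ) = t then
    (univ.filter fun τ => c ∈ touch r R o τ ∧ Crossing r R o τ ∧ ω t' τ ≠ none).card else 0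

/-- The cuts of the cell `c` of a profile. -/
def cuts (𝒟 : Finset ((ℕ × ℕ) × ℕ)) (c : ℕ × ℕ) : Finset ℕ :=
  (𝒟.filter fun x => x.1 = c).image Prod.snd

/-- The cells. -/
def grid (L R : ℕ) : Finset (ℕ × ℕ) := range (L / R) ×ˢ range (L / R)

open scoped Classical in
/-- The contribution of the histories whose greedy cuts are given by `𝒟`, with weights `w`. -/
noncomputable def term {n : ℕ} (B R : ℕ) (o : Site L) (𝒟 : Finset ((ℕ × ℕ) × ℕ))
    (w : Fin n → Site L → Opn d r → ℂ) (Φ₀ : Hil d L) : Hil d L :=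
  WithLp.toLp 2 fun s => ∑ ω : Fin n → Site L → Opn d r, ∑ p : Fin (n + 1) → Conf d L,
    if p 0 = s ∧ ∀ c ∈ grid L R, Greedy n B (cload R o c ω) (cuts 𝒟 c) then
      (∏ t, ∏ v, w t v (ω t v)) *
        (∏ t : Fin n, ∏ u, lay (ω t) u (p t.castSucc u) (p t.succ u)) * Φ₀ (p (Fin.last n))
    else 0

/-- The size of the label of a task. -/
def labelSize (d r R B n : ℕ) : ℕ :=
  d ^ (2 * (2 * R) ^ 2) *
    (1 + n * ((2 * R) ^ 2 * r ^ 2) * (d ^ (r * r) * d ^ (r * r))) ^ (B + (2 * R) ^ 2 * r ^ 2)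

/-- The number of global labels. -/
def globalSize (L R n : ℕ) : ℕ :=
  (n + 1) * (R * R) * (1 + (L / R) ^ 2 * n) ^ L * (n * L ^ 2 + 1) ^ (2 * R + 1)

end Pool.Agent.PepsX
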